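import Pool.Agent.H55.UL.Dens
import Pool.Agent.H55.G.R_seed8.Results.MP_f7abf1_nt.NormalLaw

/-!
# Jointly with the total stopping time
-/

set_option autoImplicit false

namespace Pool.Agent.H55.UL

open Filter Topology Finset MeasureTheory ProbabilityTheory
open Pool.Agent.H499R2.ND.TJ (PP geo)
open Pool.Agent.Results.MP_f7abf1_nt.BlockLaw (T Syr wait blocks Admissible prob bound oddCount HasDensity Phi)

/-- the total stopping time is at most `bound z` -/
def NZ (z : ℝ) (n : ℕ) : Prop := ∃ t, IsT n t ∧ (t : ℝ) ≤ bound z n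

theorem up_short {κ ε : ℝ} (hκ : 0 < κ) (hε : 0 < ε) : ∀ᶠ X : ℕ in atTop, ∀ c : ℕ, 0 < c →
    κ * Real.log X ≤ c → (c : ℝ) ≤ (1 - κ) * Real.log X / Real.log (4 / 3) →
    ∀ x w : ℝ, 0 ≤ w → oddCount X (fun n => |(S n c : ℝ) - x| ≤ w) ≤
      ((2 * w + 1) / Real.sqrt c / 2 + ε) * X := by
  filter_upwards [upper hκ hε] with X hX c hc h1 h3 x w hw
  have h := hX 1 (K1 c) (adm1 h1 h3) {v | |(v 0 : ℝ) - x| ≤ w}
  have e : (fun n => |(S n c : ℝ) - x| ≤ w) =
      fun n => blocks (K1 c) 1 (wait n) ∈ {v : Fin 1 → ℕ | |(v 0 : ℝ) - x| ≤ w} := by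
    funext n
    simp only [Set.mem_ofPred_eq, blocks]
    have e1 : ((∑ j ∈ Ico (K1 c ((0 : Fin 1) : ℕ)) (K1 c (((0 : Fin 1) : ℕ) + 1)), wait n j : ℕ) : ℝ) = S n c := by
      simp [K1, S]
    rw [e1]
  rw [e]
  refine h.trans ?_
  have hp : prob (K1 c) 1 {v | |(v 0 : ℝ) - x| ≤ w} ≤ (2 * w + 1) / Real.sqrt c := by
    have h4 := bs_short (s := Ico 0 c) (by rw [Finset.nonempty_Ico]; exact hc) {s : ℕ | |(s : ℝ) - x| ≤ w}
      (l := 2 * w) (by linarith) (by
        intro a ha b hb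
        rw [Set.mem_ofPred_eq, abs_le] at ha hb
        linarith [ha.1, hb.2])
    rw [Nat.card_Ico, Nat.sub_zero] at h4
    refine le_trans (le_of_eq ?_) h4
    unfold prob
    rw [Pool.Agent.Results.MP_f7abf1_nt.BlockLaw.model_eq]
    congr 1
  have hX0 : (0 : ℝ) ≤ X := Nat.cast_nonneg X
  gcongr

theorem oc_small {θ : ℝ} (hθ : 0 < θ) : ∀ᶠ X : ℕ in atTop, oddCount X (fun m => ¬ (θ * X ≤ m)) ≤ 2 * θ * X := by
  have h1 : Tendsto (fun X : ℕ => θ * (X : ℝ)) atTop atTop := tendsto_natCast_atTop_atTop.const_mul_atTop hθ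
  filter_upwards [h1.eventually_ge_atTop 1] with X hX
  unfold oddCount
  have h : {n : ℕ | n ≤ X ∧ Odd n ∧ ¬ (θ * X ≤ n)} ⊆ (Finset.range ⌈θ * X⌉₊ : Finset ℕ) := by
    rintro n ⟨_, _, h3⟩
    rw [Finset.coe_range, Set.mem_Iio, Nat.lt_ceil]
    exact not_le.1 h3
  have h2 := Set.ncard_le_ncard h (Finset.finite_toSet _)
  rw [Set.ncard_coe_finset, Finset.card_range] at h2
  have h3 : (({n : ℕ | n ≤ X ∧ Odd n ∧ ¬ (θ * X ≤ n)}.ncard : ℕ) : ℝ) ≤ ⌈θ * X⌉₊ := by exact_mod_cast h2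
  have h4 := (Nat.ceil_lt_add_one (show 0 ≤ θ * (X : ℝ) by linarith)).le
  linarith

theorem b_facts {κ : ℝ} (hκ2 : κ ≤ 1 / 2) {r : ℕ} (hr0 : 0 < r) : ∀ᶠ X : ℕ in atTop,
    0 < ⌊(1 - κ) * Real.log X / Real.log (4 / 3) / r⌋₊ ∧
    Real.log X ≤ (r * ⌊(1 - κ) * Real.log X / Real.log (4 / 3) / r⌋₊ : ℕ) ∧
    ((r * ⌊(1 - κ) * Real.log X / Real.log (4 / 3) / r⌋₊ : ℕ) : ℝ) ≤ (1 - κ) * Real.log X / Real.log (4 / 3) ∧
    (1 - κ) * Real.log X / Real.log (4 / 3) - r ≤ (r * ⌊(1 - κ) * Real.log X / Real.log (4 / 3) / r⌋₊ : ℕ) := by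
  have hrR : (0 : ℝ) < r := by exact_mod_cast hr0
  have hlpos : 0 < Real.log (4 / 3) := by linarith [log43_lo]
  filter_upwards [log_tendsto.eventually_ge_atTop (max (16 * r) 1)] with X hL
  have hL1 : 16 * (r : ℝ) ≤ Real.log X := (le_max_left _ _).trans hL
  have hL2 : 1 ≤ Real.log X := (le_max_right _ _).trans hL
  set L := Real.log X with hLdef
  set y : ℝ := (1 - κ) * L / Real.log (4 / 3) / r with hy
  set b : ℕ := ⌊y⌋₊ with hb
  have hyr : y * r = (1 - κ) * L / Real.log (4 / 3) := by rw [hy]; field_simp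
  have hy0 : 0 ≤ y := by
    rw [hy]
    have : 0 ≤ 1 - κ := by linarith
    positivity
  have hyL : 3 / 2 * L ≤ y * r := by
    rw [hyr, le_div_iff₀ hlpos]
    have h1 := log43_hi
    have h2 : (1 / 2 : ℝ) * L ≤ (1 - κ) * L := by
      apply mul_le_mul_of_nonneg_right (by linarith) (by linarith)
    have h3 : 3 / 2 * L * Real.log (4 / 3) ≤ 3 / 2 * L * (1 / 3) := by
      apply mul_le_mul_of_nonneg_left h1 (by linarith)
    linarith
  have hb1 : (b : ℝ) ≤ y := Nat.floor_le hy0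
  have hb2 : y < b + 1 := Nat.lt_floor_add_one y
  have hbr1 : (r * b : ℝ) ≤ (1 - κ) * L / Real.log (4 / 3) := by
    rw [← hyr, mul_comm]
    exact mul_le_mul_of_nonneg_right hb1 hrR.le
  have hbr2 : (1 - κ) * L / Real.log (4 / 3) - r ≤ r * b := by
    rw [← hyr]
    have := mul_le_mul_of_nonneg_right hb2.le hrR.le
    linarith
  have hbL : L ≤ r * b := by
    have : (r : ℝ) ≤ L / 16 := by linarith
    linarith
  have hbpos : 0 < b := by
    rcases Nat.eq_zero_or_pos b with h | h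
    · rw [h] at hbL
      simp at hbL
      linarith
    · exact h
  refine ⟨hbpos, ?_, ?_, ?_⟩
  · push_cast; exact hbL
  · push_cast; exact hbr1
  · push_cast; exact hbr2

theorem sqrt_diff {a a' : ℝ} (ha : 0 ≤ a) (ha' : 1 ≤ a') : |Real.sqrt a - Real.sqrt a'| ≤ |a - a'| := by
  have h1 : Real.sqrt a * Real.sqrt a = a := Real.mul_self_sqrt ha
  have h2 : Real.sqrt a' * Real.sqrt a' = a' := Real.mul_self_sqrt (by linarith)
  have h3 : 1 ≤ Real.sqrt a' := by rw [Real.one_le_sqrt]; exact ha'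
  have h4 : a - a' = (Real.sqrt a - Real.sqrt a') * (Real.sqrt a + Real.sqrt a') := by
    nlinarith
  rw [h4, abs_mul]
  have h5 := Real.sqrt_nonneg a
  rw [abs_of_nonneg (by linarith : 0 ≤ Real.sqrt a + Real.sqrt a')]
  have h6 := abs_nonneg (Real.sqrt a - Real.sqrt a')
  nlinarith

theorem joint_det {M Z e : ℝ} (hM : 0 < M) (hZ : 0 < Z) (he : 0 < e) :
    ∃ κ₀ : ℝ, 0 < κ₀ ∧ κ₀ ≤ 1 / 2 ∧ ∀ κ : ℝ, 0 < κ → κ ≤ κ₀ → ∀ (v r : ℕ) (θ z : ℝ), 0 < θ → θ ≤ 1 →
      ∀ᶠ X : ℕ in atTop, ∀ K : ℕ, (1 - κ) * Real.log X / Real.log (4 / 3) - r ≤ K →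
      ∀ m : ℕ, m ≤ X → θ * X ≤ m → m % 2 = 1 → Good M Z K m →
      e * Real.sqrt K < |(S m K : ℝ) - 2 * K + z * Real.sqrt (2 * Real.log X / Real.log (4 / 3))| →
      (NZ z (2 ^ v * m) ↔ 0 < (S m K : ℝ) - 2 * K + z * Real.sqrt (2 * Real.log X / Real.log (4 / 3))) := by
  set κ₀ : ℝ := min (1 / 2) (e ^ 2 / (4608 * Z ^ 2)) with hκ₀
  refine ⟨κ₀, by rw [hκ₀]; positivity, min_le_left _ _, ?_⟩
  intro κ hκ hκκ v r θ z hθ hθ1
  have k1 : κ ≤ 1 / 2 := hκκ.trans (min_le_left _ _)
  have k3 : κ ≤ e ^ 2 / (4608 * Z ^ 2) := hκκ.trans (min_le_right _ _)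
  have k3' : 24 * Z * Real.sqrt (2 * κ) ≤ e / 2 := by
    rw [le_div_iff₀ (by positivity)] at k3
    have : Real.sqrt (2 * κ) ≤ e / (48 * Z) := by
      rw [Real.sqrt_le_left (by positivity), div_pow, le_div_iff₀ (by positivity)]
      linarith
    rw [le_div_iff₀ (by positivity)] at this
    linarith
  set B : ℝ := 9 * (v : ℝ) + 24 + 8 * |z| * (v + |Real.log θ|) with hB
  have hB0 : 0 ≤ B := by rw [hB]; positivity
  obtain ⟨K₁, hK₁⟩ := eventually_atTop.1 (slow M (show (0 : ℝ) < min 1 (κ / 2) by positivity))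
  obtain ⟨K₂, hK₂⟩ := eventually_atTop.1 (slow ((r : ℝ) + 4) (show (0 : ℝ) < min (κ / 2) 1 by positivity))
  obtain ⟨K₃, hK₃⟩ := eventually_atTop.1 (slow B (show (0 : ℝ) < e / 4 by positivity))
  filter_upwards [log_tendsto.eventually_ge_atTop (max (max (max K₁ K₂) K₃) (max (2 * r) 1))]
    with X hX K hK m hmX hmθ hm hG hD
  set L := Real.log X with hL
  have hX1 : K₁ ≤ L := ((le_max_left _ _).trans (le_max_left _ _)).trans ((le_max_left _ _).trans hX)
  have hX2 : K₂ ≤ L := ((le_max_right _ _).trans (le_max_left _ _)).trans ((le_max_left _ _).trans hX)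
  have hX3 : K₃ ≤ L := (le_max_right _ _).trans ((le_max_left _ _).trans hX)
  have hX6 : 2 * (r : ℝ) ≤ L := (le_max_left _ _).trans ((le_max_right _ _).trans hX)
  have hX7 : 1 ≤ L := (le_max_right _ _).trans ((le_max_right _ _).trans hX)
  have hlo := log43_lo
  have hhi := log43_hi
  have hlpos : 0 < Real.log (4 / 3) := by linarith
  have hLK : L ≤ K := by
    have h1 : 3 / 2 * L ≤ (1 - κ) * L / Real.log (4 / 3) := by
      rw [le_div_iff₀ hlpos]
      have q1 := mul_le_mul_of_nonneg_left hhi (show (0 : ℝ) ≤ L by linarith)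
      have q2 := mul_le_mul_of_nonneg_right k1 (show (0 : ℝ) ≤ L by linarith)
      linarith
    linarith
  have hKR1 : (1 : ℝ) ≤ K := hX7.trans hLK
  have hK0 : 0 < K := by
    have : (0 : ℝ) < K := by linarith
    exact_mod_cast this
  have hKR : (0 : ℝ) < K := by linarith
  obtain ⟨_, s11, s12⟩ := hK₁ K (hX1.trans hLK)
  obtain ⟨_, s21, s22⟩ := hK₂ K (hX2.trans hLK)
  obtain ⟨_, s31, s32⟩ := hK₃ K (hX3.trans hLK)
  have hsq1 : 1 ≤ Real.sqrt K := by rw [Real.one_le_sqrt]; exact hKR1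
  have hsqK : Real.sqrt K * Real.sqrt K = K := Real.mul_self_sqrt hKR.le
  have hsqle : Real.sqrt K ≤ K := by
    have := mul_le_mul_of_nonneg_left hsq1 (Real.sqrt_nonneg (K : ℝ))
    linarith
  have hlogK : 0 ≤ Real.log K := Real.log_nonneg hKR1
  obtain ⟨g1, g2, g3⟩ := hG
  -- the end
  set y := Syr^[K] m with hy
  have hyodd : y % 2 = 1 := syr_iter_odd hm K
  have hy1 : 1 ≤ y := by omega
  have hRy : R y := by
    obtain ⟨k, _, h⟩ := g2
    exact ⟨k, h⟩
  obtain ⟨s, hs⟩ := exists_IsT hRy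
  have hs_le : (s : ℝ) ≤ bound Z y := by
    obtain ⟨k, h1, h2⟩ := g2
    have : s ≤ k := by
      by_contra hcon
      exact hs.2 k (not_le.1 hcon) h2
    have : (s : ℝ) ≤ k := by exact_mod_cast this
    exact this.trans h1
  have hs_gt : bound (-Z) y < s := by
    by_contra hcon
    exact g3 ⟨s, not_lt.1 hcon, hs.1⟩
  have hs1 : 1 ≤ s := by
    rcases Nat.eq_zero_or_pos s with h0 | h0
    · exfalso
      subst h0
      have h1 : y = 1 := hs.1
      rw [h1] at hs_gt
      unfold bound at hs_gt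
      simp at hs_gt
    · exact h0
  have hm1 : 1 ≤ m := by omega
  obtain ⟨hT, _⟩ := comp_IsT (v := v) hm hs hs1
  obtain ⟨hT0, _⟩ := comp_IsT (v := 0) hm hs hs1
  rw [pow_zero, one_mul, zero_add] at hT0
  set x := S m K with hx
  have hd1 := abs_lt.1 g1
  have hMK : M * Real.sqrt K ≤ K := by
    calc M * Real.sqrt K ≤ min 1 (κ / 2) * K := s12
      _ ≤ 1 * K := by gcongr; exact min_le_left _ _
      _ = K := one_mul _
  have hMK2 : M * Real.sqrt K ≤ κ / 2 * K := s12.trans (by gcongr; exact min_le_right _ _)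
  have hx3 : (x : ℝ) ≤ 3 * K := by linarith
  have her : er m x = Real.log y - Real.log m - K * Real.log 3 + x * Real.log 2 := by
    unfold er
    rw [hx, T_S hm, O_S hm]
  have her0 : 0 ≤ er m x := er_nonneg hm1 x
  have her1 : er m x ≤ 3 + Real.log K := by
    have h2 : er m x ≤ 1 + Real.log x := er_bound' hm1 hT0 (Nat.le_add_right _ _)
    have h3 : Real.log x ≤ 2 + Real.log K := log_3K hKR1 (Nat.cast_nonneg _) hx3
    linarith
  have hmX' : Real.log m ≤ L := by
    apply Real.log_le_log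
    · exact_mod_cast hm1
    · exact_mod_cast hmX
  -- the size of `y`
  have hlam : Real.log y ≤ 2 * κ * K := by
    have h5 : (1 - κ) * L ≤ (K + r) * Real.log (4 / 3) := by
      rw [sub_le_iff_le_add, div_le_iff₀ hlpos] at hK
      exact hK
    have h6 : (K : ℝ) * Real.log 3 - x * Real.log 2 = -K * Real.log (4 / 3) - (x - 2 * K) * Real.log 2 := by
      rw [log43_eq]; ring
    have h7 : -((x : ℝ) - 2 * K) * Real.log 2 ≤ M * Real.sqrt K := by
      have h8 : 0 < Real.log 2 := Real.log_pos (by norm_num)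
      have h9 := log2_hi
      have h10 : 0 ≤ M * Real.sqrt K := by positivity
      have q1 := mul_le_mul_of_nonneg_right (show -((x : ℝ) - 2 * K) ≤ M * Real.sqrt K by linarith [hd1.1]) h8.le
      have q2 := mul_le_mul_of_nonneg_left h9 h10
      linarith
    have h8 : (r : ℝ) * Real.log (4 / 3) ≤ r := by
      have : (0 : ℝ) ≤ r := Nat.cast_nonneg r
      have q1 := mul_le_mul_of_nonneg_left hhi this
      linarith
    have h9 : Real.log y ≤ κ * L + (3 + r + Real.log K) + M * Real.sqrt K := by linarith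
    have h10 : 3 + (r : ℝ) + Real.log K ≤ κ / 2 * K := by
      have hr0 : (0 : ℝ) ≤ r := Nat.cast_nonneg r
      have q1 := mul_nonneg hr0 hlogK
      calc 3 + (r : ℝ) + Real.log K ≤ ((r : ℝ) + 4) * (1 + Real.log K) := by linarith
        _ ≤ min (κ / 2) 1 * Real.sqrt K := s21
        _ ≤ κ / 2 * K := by
          apply mul_le_mul (min_le_left _ _) hsqle (Real.sqrt_nonneg _) (by positivity)
    have h11 : κ * L ≤ κ * K := by gcongr
    linarith
  have hlam0 : 0 ≤ Real.log y := Real.log_natCast_nonneg y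
  have hsl : Real.sqrt (Real.log y) ≤ Real.sqrt (2 * κ) * Real.sqrt K := by
    rw [← Real.sqrt_mul (by positivity)]
    exact Real.sqrt_le_sqrt hlam
  -- the time
  set q := Real.log (4 / 3) with hq
  have hq2 : q = 2 * Real.log 2 - Real.log 3 := log43_eq
  have hΔ : |(s : ℝ) - 2 / q * Real.log y| ≤ e / 2 * Real.sqrt K := by
    have h3l := one_lt_log3
    have h3h := log3_hi
    have hr := root_bd hlam0
    have hr0 := Real.sqrt_nonneg (2 * Real.log y / q ^ 3)
    set rt := Real.sqrt (2 * Real.log y / q ^ 3) with hrt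
    have e2 : Z * (Real.log 3 * rt) ≤ 24 * Z * Real.sqrt (Real.log y) := by
      have : Real.log 3 * rt ≤ 2 * (12 * Real.sqrt (Real.log y)) := by
        apply mul_le_mul h3h hr hr0 (by norm_num)
      nlinarith
    have e3 : 24 * Z * Real.sqrt (Real.log y) ≤ e / 2 * Real.sqrt K := by
      calc 24 * Z * Real.sqrt (Real.log y) ≤ 24 * Z * (Real.sqrt (2 * κ) * Real.sqrt K) := by gcongr
        _ = (24 * Z * Real.sqrt (2 * κ)) * Real.sqrt K := by ring
        _ ≤ e / 2 * Real.sqrt K := by gcongr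
    unfold bound at hs_le hs_gt
    rw [← hq, ← hrt] at hs_le hs_gt
    rw [abs_le]
    constructor <;> linarith
  set t := v + x + s with htdef
  have htR : (t : ℝ) = v + x + s := by rw [htdef]; push_cast; ring
  have hmR : (0 : ℝ) < m := by exact_mod_cast hm1
  have hlogn : Real.log ((2 ^ v * m : ℕ) : ℝ) = v * Real.log 2 + Real.log m := by
    push_cast
    rw [Real.log_mul (by positivity) hmR.ne', Real.log_pow]
  have hlogm0 : 0 ≤ Real.log m := Real.log_natCast_nonneg m
  have h2l := log2_hi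
  have h2pos : 0 < Real.log 2 := Real.log_pos (by norm_num)
  have hX0 : (0 : ℝ) < X := by
    rcases (Nat.cast_nonneg X : (0 : ℝ) ≤ X).eq_or_lt with h | h
    · exfalso
      rw [← h] at hL
      rw [Real.log_zero] at hL
      linarith
    · exact h
  have hmL : L - |Real.log θ| ≤ Real.log m := by
    have h1 := Real.log_le_log (by positivity) hmθ
    rw [Real.log_mul hθ.ne' hX0.ne'] at h1
    have := neg_abs_le (Real.log θ)
    linarith
  set ln := Real.log ((2 ^ v * m : ℕ) : ℝ) with hln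
  have hv0 : (0 : ℝ) ≤ v := Nat.cast_nonneg v
  have hln0 : 0 ≤ ln := by rw [hlogn]; positivity
  have hlnL : |ln - L| ≤ v + |Real.log θ| := by
    have q1 : (v : ℝ) * Real.log 2 ≤ v * 1 := mul_le_mul_of_nonneg_left h2l hv0
    have q2 : 0 ≤ (v : ℝ) * Real.log 2 := by positivity
    have q3 := abs_nonneg (Real.log θ)
    rw [abs_le]
    constructor <;> linarith
  have hroot : Real.sqrt (2 * ln / q ^ 3) = Real.sqrt (2 * ln / q) / q := by
    have h1 : 2 * ln / q ^ 3 = (2 * ln / q) / q ^ 2 := by field_simp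
    rw [h1, Real.sqrt_div' _ (by positivity), Real.sqrt_sq hlpos.le]
  have hrd : |Real.sqrt (2 * ln / q) - Real.sqrt (2 * L / q)| ≤ 8 * (v + |Real.log θ|) := by
    have h1 : 1 ≤ 2 * L / q := by
      rw [le_div_iff₀ hlpos]
      linarith
    refine (sqrt_diff (by positivity) h1).trans ?_
    have h2 : 2 * ln / q - 2 * L / q = (2 / q) * (ln - L) := by ring
    rw [h2, abs_mul, abs_of_pos (by positivity)]
    apply mul_le_mul _ hlnL (abs_nonneg _) (by norm_num)
    rw [div_le_iff₀ hlpos]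
    linarith
  -- the identity
  set D : ℝ := (x : ℝ) - 2 * K + z * Real.sqrt (2 * L / q) with hDdef
  set E : ℝ := (v : ℝ) + 2 / q * er m x - 2 / q * (v * Real.log 2) + (s - 2 / q * Real.log y) with hE
  have h3pos : 0 < Real.log 3 := by linarith [one_lt_log3]
  have hid : (t : ℝ) - bound z (2 ^ v * m) =
      E - Real.log 3 / q * (D + z * (Real.sqrt (2 * ln / q) - Real.sqrt (2 * L / q))) := by
    unfold bound
    rw [← hln, ← hq, hroot, hlogn, htR, hE, hDdef, her]
    have hq0 : q ≠ 0 := hlpos.ne'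
    have h2 : Real.log 2 = (q + Real.log 3) / 2 := by linarith
    rw [h2]
    field_simp
    ring
  have hqE : |q / Real.log 3 * E| + |z * (Real.sqrt (2 * ln / q) - Real.sqrt (2 * L / q))| ≤ e * Real.sqrt K := by
    have hq3 : q / Real.log 3 ≤ 1 := by
      rw [div_le_one h3pos]
      linarith [one_lt_log3]
    have h2q : 2 / q ≤ 8 := by
      rw [div_le_iff₀ hlpos]
      linarith
    have hE1 : |E| ≤ 9 * v + 8 * (3 + Real.log K) + e / 2 * Real.sqrt K := by
      rw [hE]
      have q1 : 2 / q * er m x ≤ 8 * (3 + Real.log K) := by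
        apply mul_le_mul h2q her1 her0 (by norm_num)
      have q2 : 0 ≤ 2 / q * er m x := by positivity
      have q3 : 2 / q * (v * Real.log 2) ≤ 8 * (v * 1) := by
        apply mul_le_mul h2q _ (by positivity) (by norm_num)
        exact mul_le_mul_of_nonneg_left h2l hv0
      have q4 : 0 ≤ 2 / q * (v * Real.log 2) := by positivity
      have q5 := abs_le.1 hΔ
      rw [abs_le]
      constructor
      · linarith [q5.1]
      · linarith [q5.2]
    have h1 : |q / Real.log 3 * E| ≤ 1 * |E| := by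
      rw [abs_mul, abs_of_nonneg (by positivity)]
      exact mul_le_mul_of_nonneg_right hq3 (abs_nonneg _)
    have h2 : |z * (Real.sqrt (2 * ln / q) - Real.sqrt (2 * L / q))| ≤ |z| * (8 * (v + |Real.log θ|)) := by
      rw [abs_mul]
      exact mul_le_mul_of_nonneg_left hrd (abs_nonneg _)
    have h3 : 9 * (v : ℝ) + 8 * (3 + Real.log K) + |z| * (8 * (v + |Real.log θ|)) ≤ B * (1 + Real.log K) := by
      rw [hB]
      have q1 : 0 ≤ (9 * (v : ℝ) + 16 + 8 * |z| * (v + |Real.log θ|)) * Real.log K := by positivity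
      nlinarith
    have h4 : 0 ≤ e * Real.sqrt K := by positivity
    linarith
  have h5 := abs_le.1 (le_refl |q / Real.log 3 * E|)
  have h6 := abs_le.1 (le_refl |z * (Real.sqrt (2 * ln / q) - Real.sqrt (2 * L / q))|)
  have hpos3 : 0 < Real.log 3 / q := by positivity
  have hEq : E = Real.log 3 / q * (q / Real.log 3 * E) := by
    field_simp
  have hid' : (t : ℝ) - bound z (2 ^ v * m) =
      Real.log 3 / q * (q / Real.log 3 * E - (D + z * (Real.sqrt (2 * ln / q) - Real.sqrt (2 * L / q)))) := by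
    rw [hid]
    conv_lhs => rw [hEq]
    ring
  constructor
  · rintro ⟨t', ht', hle⟩
    have ht : t' = t := IsT_unique ht' hT
    subst ht
    by_contra hcon
    rw [abs_of_nonpos (not_lt.1 hcon)] at hD
    have h7 : 0 < (t : ℝ) - bound z (2 ^ v * m) := by
      rw [hid']
      apply mul_pos hpos3
      linarith [h5.1, h6.2]
    linarith
  · intro hpos
    rw [abs_of_pos hpos] at hD
    refine ⟨t, hT, ?_⟩
    have h7 : (t : ℝ) - bound z (2 ^ v * m) ≤ 0 := by
      rw [hid']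
      apply mul_nonpos_of_nonneg_of_nonpos hpos3.le
      linarith [h5.2, h6.1]
    linarith

end Pool.Agent.H55.UL
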