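import Pool.Agent.H55.UL.LawF

/-!
# The law of the proportion of the times above the chord, for the multiples of a power of two
-/

set_option autoImplicit false

namespace Pool.Agent.H55.UL

open Filter Topology Finset
open Pool.Agent.Results.MP_f7abf1_nt.BlockLaw (T Syr wait bound oddCount HasDensity)

open Classical in
/-- the proportion of the times before the arrival at `1` at which the trajectory is above the chord is at most `u` -/
def PU (u : ℝ) (n : ℕ) : Prop := ∃ t, 0 < t ∧ IsT n t ∧ (((range t).filter (Above n t)).card : ℝ) ≤ u * t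

theorem card_div (Q : ℕ → Prop) [DecidablePred Q] (r : ℕ) {b : ℕ} (hb : 0 < b) :
    ((range (r * b)).filter fun j => Q (j / b)).card = b * ((range r).filter Q).card := by
  have h : ((range (r * b)).filter fun j => Q (j / b)).card = (((range r).filter Q) ×ˢ range b).card := by
    apply Finset.card_bij' (fun j _ => (j / b, j % b)) (fun p _ => p.1 * b + p.2)
    · intro j hj
      rw [Finset.mem_filter, Finset.mem_range] at hj
      rw [Finset.mem_product, Finset.mem_filter, Finset.mem_range, Finset.mem_range]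
      exact ⟨⟨(Nat.div_lt_iff_lt_mul hb).2 hj.1, hj.2⟩, Nat.mod_lt _ hb⟩
    · intro p hp
      rw [Finset.mem_product, Finset.mem_filter, Finset.mem_range, Finset.mem_range] at hp
      obtain ⟨⟨h1, h2⟩, h3⟩ := hp
      have h4 : (p.1 * b + p.2) / b = p.1 := by
        rw [mul_comm, Nat.mul_add_div hb, Nat.div_eq_of_lt h3, add_zero]
      rw [Finset.mem_filter, Finset.mem_range, h4]
      refine ⟨?_, h2⟩
      calc p.1 * b + p.2 < p.1 * b + b := by omega
        _ = (p.1 + 1) * b := by ring
        _ ≤ r * b := Nat.mul_le_mul_right b h1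
    · intro j hj
      exact Nat.div_add_mod' j b
    · intro p hp
      rw [Finset.mem_product, Finset.mem_range] at hp
      have h4 : (p.1 * b + p.2) / b = p.1 := by
        rw [mul_comm, Nat.mul_add_div hb, Nat.div_eq_of_lt hp.2, add_zero]
      have h5 : (p.1 * b + p.2) % b = p.2 := by
        rw [mul_comm, Nat.mul_add_mod, Nat.mod_eq_of_lt hp.2]
      simp only [h4, h5]
  rw [h, Finset.card_product, Finset.card_range, mul_comm]

theorem sg_block {r b m i : ℕ} (hb : 0 < b) : sg (r * b) m (i * b) ↔ r * S m (i * b) < i * S m (r * b) := by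
  unfold sg
  constructor
  · intro h
    have : b * (r * S m (i * b)) < b * (i * S m (r * b)) := by
      calc b * (r * S m (i * b)) = r * b * S m (i * b) := by ring
        _ < i * b * S m (r * b) := h
        _ = b * (i * S m (r * b)) := by ring
    exact lt_of_mul_lt_mul_left this (Nat.zero_le _)
  · intro h
    calc r * b * S m (i * b) = b * (r * S m (i * b)) := by ring
      _ < b * (i * S m (r * b)) := Nat.mul_lt_mul_of_pos_left h hb
      _ = i * b * S m (r * b) := by ring

/-- the place `j` and the endpoint of its block are on different sides of the chord -/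
def mis (K b n j : ℕ) : Prop := ¬ (sg K n j ↔ sg K n (j / b * b))

open Classical in
theorem cn_cmp {r b m : ℕ} (hb : 0 < b) :
    b * cn r b m ≤ ((range (r * b)).filter (sg (r * b) m)).card +
      ((range (r * b)).filter (mis (r * b) b m)).card ∧
    ((range (r * b)).filter (sg (r * b) m)).card ≤ b * cn r b m +
      ((range (r * b)).filter (mis (r * b) b m)).card := by
  have h1 : ((range (r * b)).filter fun j => sg (r * b) m (j / b * b)).card = b * cn r b m := by
    rw [card_div (fun i => sg (r * b) m (i * b)) r hb]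
    unfold cn
    congr 2
    ext i
    simp only [Finset.mem_filter, sg_block hb]
  rw [← h1]
  constructor
  · refine (Finset.card_le_card ?_).trans (Finset.card_union_le _ _)
    intro j hj
    rw [Finset.mem_filter] at hj
    rw [Finset.mem_union, Finset.mem_filter, Finset.mem_filter]
    by_cases h : sg (r * b) m j
    · exact Or.inl ⟨hj.1, h⟩
    · exact Or.inr ⟨hj.1, by unfold mis; tauto⟩
  · refine (Finset.card_le_card ?_).trans (Finset.card_union_le _ _)
    intro j hj
    rw [Finset.mem_filter] at hj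
    rw [Finset.mem_union, Finset.mem_filter, Finset.mem_filter]
    by_cases h : sg (r * b) m (j / b * b)
    · exact Or.inl ⟨hj.1, h⟩
    · exact Or.inr ⟨hj.1, by unfold mis; tauto⟩

theorem cn_lt {r b m : ℕ} (hr : 0 < r) : cn r b m ≤ r - 1 := by
  unfold cn
  have : ((range r).filter fun i => r * S m (i * b) < i * S m (r * b)) ⊆ (range r).erase 0 := by
    intro i hi
    rw [Finset.mem_filter] at hi
    rw [Finset.mem_erase]
    refine ⟨?_, hi.1⟩
    rintro rfl
    simp at hi
  have h := Finset.card_le_card this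
  rwa [Finset.card_erase_of_mem (Finset.mem_range.2 hr), Finset.card_range] at h

theorem R_two {v m : ℕ} : R (2 ^ v * m) ↔ R m := by
  induction v with
  | zero => simp
  | succ v ih =>
    rw [R_T, ← ih]
    have e : 2 ^ (v + 1) * m = 2 * (2 ^ v * m) := by ring
    have : T (2 ^ (v + 1) * m) = 2 ^ v * m := by
      rw [e, T_even (by omega)]
      omega
    rw [this]

theorem IsT_unique {n t t' : ℕ} (h : IsT n t) (h' : IsT n t') : t = t' := by
  rcases lt_trichotomy t t' with h1 | h1 | h1
  · exact absurd h.1 (h'.2 t h1)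
  · exact h1
  · exact absurd h'.1 (h.2 t' h1)

/-- for a fixed number of blocks, the law of the proportion of the times above the chord is close to uniform,
also jointly with the position after the first `r * b` odd steps -/
theorem core {ε : ℝ} (hε : 0 < ε) (hε1 : ε ≤ 1) : ∃ κ₀ : ℝ, 0 < κ₀ ∧ ∀ κ : ℝ, 0 < κ → κ ≤ κ₀ →
    ∃ r : ℕ, 0 < r ∧ ∀ v : ℕ, ∀ᶠ X : ℕ in atTop, ∀ u : ℝ, 0 ≤ u → u ≤ 1 → ∀ F : Set ℕ,
      |oddCount X (fun m => PU u (2 ^ v * m) ∧ S m (r * ⌊(1 - κ) * Real.log X / Real.log (4 / 3) / r⌋₊) ∈ F) -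
        u * oddCount X (fun m => R m ∧ S m (r * ⌊(1 - κ) * Real.log X / Real.log (4 / 3) / r⌋₊) ∈ F)| ≤ ε * X := by
  classical
  set e : ℝ := ε / 16 with he
  have he0 : 0 < e := by positivity
  have he1 : e ≤ 1 := by rw [he]; linarith
  have hee1 : e ^ 2 ≤ 1 := by nlinarith
  obtain ⟨η, hη, hbad⟩ := bad_sum (ε₀ := e ^ 2) (by positivity) hee1
  obtain ⟨r₀, hmis⟩ := mis_sum (ε₀ := e ^ 2) (by positivity) hee1
  obtain ⟨δ, _, _, _, _, htail⟩ := tail
  obtain ⟨M, Z, hM, hZ, htail⟩ := htail e he0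
  obtain ⟨κ₀, hκ₀, hκ₀2, hgood⟩ := good_imp hM hZ hη he0 he1
  refine ⟨κ₀, hκ₀, fun κ hκ hκκ => ?_⟩
  have hκ2 : κ ≤ 1 / 2 := hκκ.trans hκ₀2
  set r : ℕ := r₀ + ⌈1 / e⌉₊ + 1 with hr
  have hr0 : 0 < r := by omega
  refine ⟨r, hr0, fun v => ?_⟩
  have hrR : (0 : ℝ) < r := by exact_mod_cast hr0
  have hre : 1 ≤ e * r := by
    have h1 := Nat.le_ceil (1 / e)
    have h2 : ((⌈1 / e⌉₊ : ℕ) : ℝ) ≤ r := by
      have : ⌈1 / e⌉₊ ≤ r := by omega
      exact_mod_cast this
    have h3 : 1 / e ≤ r := h1.trans h2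
    rw [div_le_iff₀ he0] at h3
    linarith
  have hlpos : 0 < Real.log (4 / 3) := by linarith [log43_lo]
  set κ₁ : ℝ := κ / r with hκ₁
  have hκ₁0 : 0 < κ₁ := by positivity
  have hκ₁κ : κ₁ ≤ κ := by
    rw [hκ₁, div_le_iff₀ hrR]
    have h1 : (1 : ℝ) ≤ r := by exact_mod_cast hr0
    have := mul_le_mul_of_nonneg_left h1 hκ.le
    linarith
  have hκ₁2 : κ₁ ≤ 1 / 2 := hκ₁κ.trans hκ2
  filter_upwards [hbad κ hκ hκ2, hmis r (by omega) hr0 κ hκ hκ2, htail κ hκ, hgood κ hκ hκκ v r,
    lawF hκ₁0 he0, log_tendsto.eventually_ge_atTop (max (max (16 * r) 1) (8 * r * (r ^ 2 / e) ^ 2))]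
    with X hXbad hXmis hXtail hXgood hXlaw hL u hu0 hu1 F
  have hL1 : 16 * (r : ℝ) ≤ Real.log X := ((le_max_left _ _).trans (le_max_left _ _)).trans hL
  have hL2 : 1 ≤ Real.log X := ((le_max_right _ _).trans (le_max_left _ _)).trans hL
  have hL3 : 8 * r * ((r : ℝ) ^ 2 / e) ^ 2 ≤ Real.log X := (le_max_right _ _).trans hL
  set L := Real.log X with hLdef
  set y : ℝ := (1 - κ) * L / Real.log (4 / 3) / r with hy
  set b : ℕ := ⌊y⌋₊ with hb
  have hyr : y * r = (1 - κ) * L / Real.log (4 / 3) := by rw [hy]; field_simp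
  have hy0 : 0 ≤ y := by
    rw [hy]
    have : 0 ≤ 1 - κ := by linarith
    positivity
  have hyL : 3 / 2 * L ≤ y * r := by
    rw [hyr, le_div_iff₀ hlpos]
    have h1 := log43_hi
    have h2 : (1 / 2 : ℝ) * L ≤ (1 - κ) * L := by
      apply mul_le_mul_of_nonneg_right (by linarith) (by linarith)
    have h3 : 3 / 2 * L * Real.log (4 / 3) ≤ 3 / 2 * L * (1 / 3) := by
      apply mul_le_mul_of_nonneg_left h1 (by linarith)
    linarith
  have hb1 : (b : ℝ) ≤ y := Nat.floor_le hy0
  have hb2 : y < b + 1 := Nat.lt_floor_add_one y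
  have hbr1 : (r * b : ℝ) ≤ (1 - κ) * L / Real.log (4 / 3) := by
    rw [← hyr, mul_comm]
    exact mul_le_mul_of_nonneg_right hb1 hrR.le
  have hbr2 : (1 - κ) * L / Real.log (4 / 3) - r ≤ r * b := by
    rw [← hyr]
    have := mul_le_mul_of_nonneg_right hb2.le hrR.le
    linarith
  have hbL : L ≤ r * b := by
    have : (r : ℝ) ≤ L / 16 := by linarith
    linarith
  have hbpos : 0 < b := by
    rcases Nat.eq_zero_or_pos b with h | h
    · rw [h] at hbL
      simp at hbL
      linarith
    · exact h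
  have hbR : (0 : ℝ) < b := by exact_mod_cast hbpos
  set K := r * b with hK
  have hKR : (K : ℝ) = r * b := by rw [hK]; push_cast; ring
  have hK0 : 0 < K := Nat.mul_pos hr0 hbpos
  have hKR0 : (0 : ℝ) < K := by exact_mod_cast hK0
  have hX0 : (0 : ℝ) ≤ X := Nat.cast_nonneg X
  have hκb : κ₁ * L ≤ b := by
    rw [hκ₁, div_mul_eq_mul_div, div_le_iff₀ hrR]
    have : κ * L ≤ 1 * L := mul_le_mul_of_nonneg_right (by linarith) (by linarith)
    linarith
  have hsb : (r : ℝ) ^ 2 / Real.sqrt b ≤ e := by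
    rw [div_le_iff₀ (Real.sqrt_pos.2 hbR), mul_comm, ← div_le_iff₀ he0]
    apply Real.le_sqrt_of_sq_le
    have h1 : 8 * r * ((r : ℝ) ^ 2 / e) ^ 2 ≤ r * b := hL3.trans hbL
    have h2 : (r : ℝ) * (8 * (r ^ 2 / e) ^ 2) ≤ r * b := by linarith
    have h3 := le_of_mul_le_mul_left h2 hrR
    have h4 : 0 ≤ ((r : ℝ) ^ 2 / e) ^ 2 := by positivity
    linarith
  have h1K : (K : ℝ) ≤ (1 - κ) * L / Real.log (4 / 3) := by rw [hKR]; exact hbr1
  have h1K' : ((r * b : ℕ) : ℝ) ≤ (1 - κ₁) * L / Real.log (4 / 3) := by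
    refine le_trans h1K ?_
    gcongr
  have hLK : L ≤ K := by rw [hKR]; exact hbL
  -- the exceptional sets
  have B1 : oddCount X (fun n => e * K ≤ (((range K).filter fun j => bd (η * Real.sqrt K) K n j).card : ℝ)) ≤ e * X := by
    have h1 := markov X K (fun n j => bd (η * Real.sqrt K) K n j) (e * K)
    have h2 : ∑ j ∈ range K, oddCount X (fun n => bd (η * Real.sqrt K) K n j) ≤ e ^ 2 * K * X := hXbad K hLK h1K
    have h3 : e * K * oddCount X (fun n => e * K ≤ (((range K).filter fun j => bd (η * Real.sqrt K) K n j).card : ℝ)) ≤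
        e * K * (e * X) := by
      have h4 : e ^ 2 * K * X = e * K * (e * X) := by ring
      rw [← h4]
      exact h1.trans h2
    exact le_of_mul_le_mul_left h3 (by positivity)
  have B2 : oddCount X (fun n => e * K ≤ (((range K).filter fun j => mis K b n j).card : ℝ)) ≤ e * X := by
    have h1 := markov X K (fun n j => mis K b n j) (e * K)
    have h2 : ∑ j ∈ range K, oddCount X (fun n => mis K b n j) ≤ e ^ 2 * K * X :=
      hXmis b hbpos hLK h1K
    have h3 : e * K * oddCount X (fun n => e * K ≤ (((range K).filter fun j => mis K b n j).card : ℝ)) ≤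
        e * K * (e * X) := by
      have h4 : e ^ 2 * K * X = e * K * (e * X) := by ring
      rw [← h4]
      exact h1.trans h2
    exact le_of_mul_le_mul_left h3 (by positivity)
  have B3 : oddCount X (fun n => R n ∧ ¬ Good M Z K n) ≤ e * X := by
    apply hXtail K hK0 _ h1K
    have : κ * L ≤ 1 * L := mul_le_mul_of_nonneg_right (by linarith) (by linarith)
    linarith
  set Bad : ℕ → Prop := fun n => (R n ∧ ¬ Good M Z K n) ∨
    ((e * K ≤ (((range K).filter fun j => bd (η * Real.sqrt K) K n j).card : ℝ)) ∨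
    (e * K ≤ (((range K).filter fun j => mis K b n j).card : ℝ))) with hBad
  have B : oddCount X Bad ≤ 3 * e * X := by
    have h1 := oc_or X (fun n => R n ∧ ¬ Good M Z K n) (fun n =>
      (e * K ≤ (((range K).filter fun j => bd (η * Real.sqrt K) K n j).card : ℝ)) ∨
      (e * K ≤ (((range K).filter fun j => mis K b n j).card : ℝ)))
    have h2 := oc_or X (fun n => e * K ≤ (((range K).filter fun j => bd (η * Real.sqrt K) K n j).card : ℝ))
      (fun n => e * K ≤ (((range K).filter fun j => mis K b n j).card : ℝ))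
    linarith
  -- the comparison outside the exceptional set
  have key : ∀ m : ℕ, m ≤ X → m % 2 = 1 → R m → ¬ Bad m →
      (PU u (2 ^ v * m) → (cn r b m : ℝ) ≤ (u + 3 * e) * r) ∧
      ((cn r b m : ℝ) ≤ (u - 5 * e) * r → PU u (2 ^ v * m)) := by
    intro m hmX hm hRm hB
    obtain ⟨g1, g23⟩ := not_or.1 hB
    obtain ⟨g2, g3⟩ := not_or.1 g23
    rw [not_le] at g2 g3
    have hG : Good M Z K m := by
      by_contra h
      exact g1 ⟨hRm, h⟩
    obtain ⟨t, ht0, ht, ht2, c1, c2⟩ := hXgood K (by rw [hKR]; exact hbr2) m hmX hm hG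
    obtain ⟨d1, d2⟩ := cn_cmp (r := r) (b := b) (m := m) hbpos
    have d1' : (b : ℝ) * cn r b m ≤ ((range K).filter (sg K m)).card +
      (((range K).filter fun j => mis K b m j).card : ℝ) := by exact_mod_cast d1
    have d2' : (((range K).filter (sg K m)).card : ℝ) ≤ b * cn r b m +
      (((range K).filter fun j => mis K b m j).card : ℝ) := by exact_mod_cast d2
    rw [abs_le] at ht2
    have heK : 0 < e * K := by positivity
    have ht3 : u * t ≤ 2 * u * K + e * K := by
      have h1 : (t : ℝ) ≤ 2 * K + e * K := by linarith [ht2.2]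
      have h2 := mul_le_mul_of_nonneg_left h1 hu0
      have h3 : u * (e * K) ≤ 1 * (e * K) := mul_le_mul_of_nonneg_right hu1 heK.le
      linarith
    have ht4 : 2 * u * K - e * K ≤ u * t := by
      have h1 : 2 * K - e * K ≤ (t : ℝ) := by linarith [ht2.1]
      have h2 := mul_le_mul_of_nonneg_left h1 hu0
      have h3 : u * (e * K) ≤ 1 * (e * K) := mul_le_mul_of_nonneg_right hu1 heK.le
      linarith
    constructor
    · rintro ⟨t', _, ht', hle⟩
      have : t' = t := IsT_unique ht' ht
      subst this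
      have h1 : (b : ℝ) * cn r b m ≤ (u + 3 * e) * K := by linarith
      rw [hKR] at h1
      have h2 : (b : ℝ) * cn r b m ≤ b * ((u + 3 * e) * r) := by linarith
      exact le_of_mul_le_mul_left h2 hbR
    · intro h
      refine ⟨t, ht0, ht, ?_⟩
      have h1 : (b : ℝ) * cn r b m ≤ b * ((u - 5 * e) * r) := mul_le_mul_of_nonneg_left h hbR.le
      have h2 : (b : ℝ) * cn r b m ≤ (u - 5 * e) * K := by rw [hKR]; linarith
      linarith
  set A := oddCount X (fun m => PU u (2 ^ v * m) ∧ S m K ∈ F) with hA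
  set Q := oddCount X (fun m => R m ∧ S m K ∈ F) with hQ
  have hQ0 : 0 ≤ Q := oc_nonneg _ _
  have hQ1 : Q ≤ X := oc_le _ _
  have hPR : ∀ m, PU u (2 ^ v * m) → R m := by
    rintro m ⟨t, _, ht, _⟩
    exact R_two.1 ⟨t, ht.1⟩
  -- upper bound
  have U : A ≤ u * Q + 10 * e * X := by
    set a : ℕ := min ⌊(u + 3 * e) * r⌋₊ (r - 1) with ha
    have har : a < r := by
      have : a ≤ r - 1 := min_le_right _ _
      omega
    have h1 : A ≤ oddCount X (fun m => (R m ∧ cn r b m ≤ a ∧ S m K ∈ F) ∨ Bad m) := by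
      apply oc_mono
      rintro m hmX hm ⟨h2, h3⟩
      by_cases hB : Bad m
      · exact Or.inr hB
      · left
        have hR := hPR m h2
        refine ⟨hR, ?_, h3⟩
        have h4 := (key m hmX (Nat.odd_iff.1 hm) hR hB).1 h2
        exact le_min (Nat.le_floor h4) (cn_lt hr0)
    have h2 := oc_or X (fun m => R m ∧ cn r b m ≤ a ∧ S m K ∈ F) Bad
    have h3 := (abs_le.1 (hXlaw r b hr0 hbpos hκb h1K' a har F)).2
    have h4 : ((a : ℝ) + 1) / r ≤ u + 4 * e := by
      rw [div_le_iff₀ hrR]
      have h5 : (a : ℝ) ≤ ⌊(u + 3 * e) * r⌋₊ := by exact_mod_cast (min_le_left _ _)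
      have h6 : (⌊(u + 3 * e) * r⌋₊ : ℝ) ≤ (u + 3 * e) * r := Nat.floor_le (by positivity)
      linarith
    have h5 : ((a : ℝ) + 1) / r * Q ≤ (u + 4 * e) * Q := mul_le_mul_of_nonneg_right h4 hQ0
    have h6 : 4 * e * Q ≤ 4 * e * X := mul_le_mul_of_nonneg_left hQ1 (by positivity)
    have h7 : ((r : ℝ) ^ 2 / Real.sqrt b + 2 * e) * X ≤ 3 * e * X := by
      apply mul_le_mul_of_nonneg_right (by linarith) hX0
    linarith
  -- lower bound
  have Lw : u * Q - 12 * e * X ≤ A := by
    have hA0 : 0 ≤ A := oc_nonneg _ _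
    have heX : 0 ≤ e * X := by positivity
    by_cases hu5 : u - 5 * e < 0
    · have h1 : u * Q ≤ 5 * e * X := by
        have h2 : u * Q ≤ 5 * e * Q := mul_le_mul_of_nonneg_right (by linarith) hQ0
        have h3 : 5 * e * Q ≤ 5 * e * X := mul_le_mul_of_nonneg_left hQ1 (by positivity)
        linarith
      linarith
    · push Not at hu5
      set a : ℕ := ⌊(u - 5 * e) * r⌋₊ with ha
      have h0 : 0 ≤ (u - 5 * e) * r := mul_nonneg hu5 hrR.le
      have haR : (a : ℝ) ≤ (u - 5 * e) * r := Nat.floor_le h0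
      have har : a < r := by
        have h1 : (u - 5 * e) * r < 1 * r := by
          apply mul_lt_mul_of_pos_right _ hrR
          linarith
        have : (a : ℝ) < r := by linarith
        exact_mod_cast this
      have h1 : oddCount X (fun m => R m ∧ cn r b m ≤ a ∧ S m K ∈ F) ≤
          oddCount X (fun m => (PU u (2 ^ v * m) ∧ S m K ∈ F) ∨ Bad m) := by
        apply oc_mono
        rintro m hmX hm ⟨hR, h2, h3⟩
        by_cases hB : Bad m
        · exact Or.inr hB
        · left
          refine ⟨(key m hmX (Nat.odd_iff.1 hm) hR hB).2 ?_, h3⟩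
          have : (cn r b m : ℝ) ≤ a := by exact_mod_cast h2
          linarith
      have h2 := oc_or X (fun m => PU u (2 ^ v * m) ∧ S m K ∈ F) Bad
      have h3 := (abs_le.1 (hXlaw r b hr0 hbpos hκb h1K' a har F)).1
      have h4 : u - 5 * e ≤ ((a : ℝ) + 1) / r := by
        rw [le_div_iff₀ hrR]
        exact (Nat.lt_floor_add_one _).le
      have h5 : (u - 5 * e) * Q ≤ ((a : ℝ) + 1) / r * Q := mul_le_mul_of_nonneg_right h4 hQ0
      have h6 : 5 * e * Q ≤ 5 * e * X := mul_le_mul_of_nonneg_left hQ1 (by positivity)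
      have h7 : ((r : ℝ) ^ 2 / Real.sqrt b + 2 * e) * X ≤ 3 * e * X := by
        apply mul_le_mul_of_nonneg_right (by linarith) hX0
      linarith
  have hεe : ε = 16 * e := by rw [he]; ring
  have heX : 0 ≤ e * X := by positivity
  rw [abs_le, hεe]
  constructor <;> linarith

end Pool.Agent.H55.UL
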