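import Pool.Agent.H55.UL.Core

/-!
# From the odd numbers to all numbers
-/

set_option autoImplicit false

namespace Pool.Agent.H55.UL

open Filter Topology Finset
open Pool.Agent.Results.MP_f7abf1_nt.BlockLaw (T Syr wait bound oddCount HasDensity)

/-- the number of the `n ≤ N` with the property -/
noncomputable def cnt' (N : ℕ) (P : ℕ → Prop) : ℝ := ({n : ℕ | 1 ≤ n ∧ n ≤ N ∧ P n}.ncard : ℝ)

theorem cnt'_nonneg (N : ℕ) (P : ℕ → Prop) : 0 ≤ cnt' N P := by unfold cnt'; positivity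

theorem cnt'_le (N : ℕ) (P : ℕ → Prop) : cnt' N P ≤ N := by
  unfold cnt'
  have h : {n : ℕ | 1 ≤ n ∧ n ≤ N ∧ P n} ⊆ (Finset.Icc 1 N : Finset ℕ) := by
    rintro n ⟨h1, h2, _⟩
    rw [Finset.coe_Icc]
    exact ⟨h1, h2⟩
  have h1 := Set.ncard_le_ncard h (Finset.finite_toSet _)
  rw [Set.ncard_coe_finset, Nat.card_Icc] at h1
  exact_mod_cast h1

theorem cnt'_split (N : ℕ) (P : ℕ → Prop) : cnt' N P = oddCount N P + cnt' (N / 2) (fun n => P (2 * n)) := by
  unfold cnt' oddCount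
  have hf : {n : ℕ | n ≤ N ∧ Odd n ∧ P n}.Finite := (Set.finite_Iic N).subset fun n hn => hn.1
  have hf2 : {n : ℕ | 1 ≤ n ∧ n ≤ N / 2 ∧ P (2 * n)}.Finite := (Set.finite_Iic (N / 2)).subset fun n hn => hn.2.1
  have e : {n : ℕ | 1 ≤ n ∧ n ≤ N ∧ P n} = {n : ℕ | n ≤ N ∧ Odd n ∧ P n} ∪
      (fun n => 2 * n) '' {n : ℕ | 1 ≤ n ∧ n ≤ N / 2 ∧ P (2 * n)} := by
    ext n
    simp only [Set.mem_ofPred_eq, Set.mem_union, Set.mem_image]
    constructor
    · rintro ⟨h1, h2, h3⟩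
      rcases Nat.even_or_odd n with he | ho
      · right
        obtain ⟨k, hk⟩ := he
        refine ⟨k, ⟨by omega, by omega, ?_⟩, by omega⟩
        rw [show 2 * k = n by omega]
        exact h3
      · exact Or.inl ⟨h2, ho, h3⟩
    · rintro (⟨h1, h2, h3⟩ | ⟨k, ⟨h1, h2, h3⟩, rfl⟩)
      · exact ⟨h2.pos, h1, h3⟩
      · exact ⟨by omega, by omega, h3⟩
  have hd : Disjoint {n : ℕ | n ≤ N ∧ Odd n ∧ P n} ((fun n => 2 * n) '' {n : ℕ | 1 ≤ n ∧ n ≤ N / 2 ∧ P (2 * n)}) := by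
    rw [Set.disjoint_left]
    rintro n ⟨_, ho, _⟩ ⟨k, _, hk⟩
    simp only at hk
    rw [Nat.odd_iff] at ho
    omega
  rw [e, Set.ncard_union_eq hd hf (hf2.image _), Set.ncard_image_of_injective _ (fun a b h => by simpa using h)]
  push_cast
  rfl

theorem odd_dens {u : ℝ} (hu0 : 0 ≤ u) (hu1 : u ≤ 1) (V : ℕ) : ∀ A B : ℕ → Prop,
    (∀ v : ℕ, ∀ ε : ℝ, 0 < ε → ∀ᶠ X : ℕ in atTop,
      |oddCount X (fun m => A (2 ^ v * m)) - u * oddCount X (fun m => B (2 ^ v * m))| ≤ ε * X) →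
    ∀ ε : ℝ, 0 < ε → ∀ᶠ N : ℕ in atTop, |cnt' N A - u * cnt' N B| ≤ (ε + 1 / 2 ^ V) * N := by
  induction V with
  | zero =>
    intro A B _ ε hε
    filter_upwards with N
    have h1 := cnt'_nonneg N A
    have h2 := cnt'_le N A
    have h3 := cnt'_nonneg N B
    have h4 := cnt'_le N B
    have h5 : u * cnt' N B ≤ 1 * N := mul_le_mul hu1 h4 h3 zero_le_one
    have h6 : 0 ≤ u * cnt' N B := by positivity
    have h7 : 0 ≤ ε * N := by positivity
    rw [abs_le, pow_zero, div_one, add_mul]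
    constructor <;> linarith
  | succ V ih =>
    intro A B h ε hε
    have h1 := h 0 (ε / 2) (by positivity)
    have h2 := ih (fun n => A (2 * n)) (fun n => B (2 * n)) (by
      intro v ε' hε'
      filter_upwards [h (v + 1) ε' hε'] with X hX
      have e : ∀ m : ℕ, 2 * (2 ^ v * m) = 2 ^ (v + 1) * m := fun m => by ring
      simp only [e]
      exact hX) ε hε
    have h3 : Tendsto (fun N : ℕ => N / 2) atTop atTop := by
      apply tendsto_atTop_atTop.2
      intro b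
      exact ⟨2 * b, fun a ha => by omega⟩
    filter_upwards [h1, h3.eventually h2] with N q1 q2
    simp only [pow_zero, one_mul] at q1
    rw [cnt'_split N A, cnt'_split N B]
    have e : oddCount N A + cnt' (N / 2) (fun n => A (2 * n)) - u * (oddCount N B + cnt' (N / 2) fun n => B (2 * n)) =
        (oddCount N A - u * oddCount N B) + (cnt' (N / 2) (fun n => A (2 * n)) - u * cnt' (N / 2) fun n => B (2 * n)) := by
      ring
    rw [e]
    refine (abs_add_le _ _).trans ?_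
    have h4 : ((N / 2 : ℕ) : ℝ) ≤ N / 2 := Nat.cast_div_le
    have h5 : (ε + 1 / 2 ^ V) * ((N / 2 : ℕ) : ℝ) ≤ (ε + 1 / 2 ^ V) * (N / 2) := by gcongr
    have h6 : (ε + 1 / 2 ^ V) * ((N : ℝ) / 2) = (ε / 2) * N + 1 / 2 ^ (V + 1) * N := by
      rw [pow_succ]
      field_simp
    linarith

/-- transfer of the densities from the classes `2 ^ v * (odd)` -/
theorem dens_transfer {A B : ℕ → Prop} {u d : ℝ} (hu0 : 0 ≤ u) (hu1 : u ≤ 1)
    (h : ∀ v : ℕ, ∀ ε : ℝ, 0 < ε → ∀ᶠ X : ℕ in atTop,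
      |oddCount X (fun m => A (2 ^ v * m)) - u * oddCount X (fun m => B (2 ^ v * m))| ≤ ε * X)
    (hB : HasDensity B d) : HasDensity A (u * d) := by
  have h1 : Tendsto (fun N : ℕ => (cnt' N A - u * cnt' N B) / N) atTop (𝓝 0) := by
    rw [Metric.tendsto_atTop']
    intro ε hε
    obtain ⟨V, hV⟩ := exists_pow_lt_of_lt_one (show (0 : ℝ) < ε / 4 by positivity) (show (1 / 2 : ℝ) < 1 by norm_num)
    obtain ⟨N₀, hN₀⟩ := eventually_atTop.1 (odd_dens hu0 hu1 V A B h (ε / 4) (by positivity))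
    refine ⟨max N₀ 1, fun N hN => ?_⟩
    have h2 := hN₀ N ((le_max_left _ _).trans hN.le)
    have hN1 : 1 < N := lt_of_le_of_lt (le_max_right _ _) hN
    have hNR : (0 : ℝ) < N := by
      have : 0 < N := by omega
      exact_mod_cast this
    rw [Real.dist_eq, sub_zero, abs_div, abs_of_pos hNR, div_lt_iff₀ hNR]
    refine lt_of_le_of_lt h2 ?_
    have h3 : (1 : ℝ) / 2 ^ V = (1 / 2) ^ V := by rw [one_div_pow]
    rw [h3]
    apply mul_lt_mul_of_pos_right _ hNR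
    linarith
  have h2 : Tendsto (fun N : ℕ => u * (cnt' N B / N)) atTop (𝓝 (u * d)) := by
    have : Tendsto (fun N : ℕ => cnt' N B / N) atTop (𝓝 d) := hB
    exact this.const_mul u
  have h3 := h1.add h2
  rw [zero_add] at h3
  unfold HasDensity
  refine h3.congr fun N => ?_
  unfold cnt'
  ring

end Pool.Agent.H55.UL
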