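import Pool.Agent.H55.UL.Traj

/-!
# Comparison of the trajectory and the chord with the times of the odd terms
-/

set_option autoImplicit false

namespace Pool.Agent.H55.UL

open Finset
open Pool.Agent.Results.MP_f7abf1_nt.BlockLaw (T Syr wait)

/-- the number of the `k` with `k l < j t` -/
def G (t l j : ℕ) : ℕ := (j * t + l - 1) / l

theorem lt_G {t l : ℕ} (hl : 0 < l) (j k : ℕ) : k < G t l j ↔ k * l < j * t := by
  unfold G
  rw [← Nat.succ_le_iff, Nat.le_div_iff_mul_le hl, Nat.succ_mul]
  omega

theorem fiber {t l : ℕ} (ht : 0 < t) (hl : 0 < l) {j : ℕ} (hj : j < l) :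
    ((range t).filter fun k => k * l / t = j) = Ico (G t l j) (G t l (j + 1)) := by
  ext k
  rw [Finset.mem_filter, Finset.mem_range, Finset.mem_Ico, lt_G hl, ← not_lt, lt_G hl, not_lt,
    Nat.div_eq_iff ht]
  have h1 : (j + 1) * t ≤ l * t := Nat.mul_le_mul_right t hj
  constructor
  · rintro ⟨_, h2, h3⟩
    refine ⟨by omega, ?_⟩
    rw [Nat.add_mul, one_mul]
    omega
  · rintro ⟨h2, h3⟩
    refine ⟨?_, h2, ?_⟩
    · have h4 : k * l < t * l := by
        rw [mul_comm t l]; omega
      exact Nat.lt_of_mul_lt_mul_right h4
    · rw [Nat.add_mul, one_mul] at h3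
      omega

theorem card_fiber {t l : ℕ} (ht : 0 < t) (hl : 0 < l) {j : ℕ} (hj : j < l) :
    (2 * l ≤ t → 2 ≤ ((range t).filter fun k => k * l / t = j).card) ∧
    (t ≤ 2 * l → ((range t).filter fun k => k * l / t = j).card ≤ 2) := by
  rw [fiber ht hl hj, Nat.card_Ico]
  have e : (j + 1) * t = j * t + t := by ring
  constructor
  · intro h
    have h1 : G t l j + 1 < G t l (j + 1) := by
      rw [lt_G hl, e]
      rcases Nat.eq_zero_or_pos (G t l j) with h0 | h0
      · rw [h0]; omega
      · have h2 : G t l j - 1 < G t l j := by omega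
        rw [lt_G hl] at h2
        have h3 : (G t l j + 1) * l = (G t l j - 1) * l + 2 * l := by
          obtain ⟨g, hg⟩ : ∃ g, G t l j = g + 1 := ⟨G t l j - 1, by omega⟩
          rw [hg]
          simp only [Nat.add_sub_cancel]
          ring
        omega
    omega
  · intro h
    by_contra hcon
    have h1 : G t l j + 2 < G t l (j + 1) := by omega
    rw [lt_G hl, e] at h1
    have h2 : ¬ G t l j < G t l j := lt_irrefl _
    rw [lt_G hl] at h2
    have h3 : (G t l j + 2) * l = G t l j * l + 2 * l := by ring
    omega

open Classical in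
/-- comparison of counts -/
theorem count_cmp {t l K h : ℕ} (ht : 0 < t) (hK0 : 0 < K) (hK : K ≤ l) (cond s bad : ℕ → Prop)
    (h1 : ∀ k < t, cond k → h ≤ k * l / t → k * l / t - h < K → s (k * l / t - h) ∨ bad (k * l / t - h))
    (h2 : ∀ k < t, k * l / t + h < K → s (k * l / t + h) → ¬ bad (k * l / t + h) → cond k) :
    ((range t).filter cond).card ≤ 2 * (((range K).filter s).card + ((range K).filter bad).card)
        + 2 * h + 2 * (l - K) + (t - 2 * l) ∧
    2 * ((range K).filter s).card ≤ ((range t).filter cond).card + 2 * ((range K).filter bad).card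
        + 2 * h + (2 * l - t) := by
  have hl : 0 < l := lt_of_lt_of_le hK0 hK
  set c : ℕ → ℕ := fun j => ((range t).filter fun k => k * l / t = j).card with hc
  set A : ℕ → ℕ := fun j => (((range t).filter cond).filter fun k => k * l / t = j).card with hA
  have hmaps : ∀ k ∈ range t, k * l / t ∈ range l := by
    intro k hk
    rw [Finset.mem_range] at hk ⊢
    rw [Nat.div_lt_iff_lt_mul ht, mul_comm l t]
    exact Nat.mul_lt_mul_of_pos_right hk hl
  have hC : ((range t).filter cond).card = ∑ j ∈ range l, A j :=
    Finset.card_eq_sum_card_fiberwise fun k hk => hmaps k (Finset.mem_of_mem_filter k hk)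
  have hT : t = ∑ j ∈ range l, c j := by
    have := Finset.card_eq_sum_card_fiberwise (s := range t) (t := range l) (f := fun k => k * l / t) hmaps
    rw [Finset.card_range] at this
    exact this
  have hAc : ∀ j, A j ≤ c j := by
    intro j
    apply Finset.card_le_card
    intro k hk
    rw [Finset.mem_filter, Finset.mem_filter] at hk
    rw [Finset.mem_filter]
    exact ⟨hk.1.1, hk.2⟩
  have hsum1 : ∑ j ∈ range l, (c j - 2) = t - 2 * l := by
    rcases le_total (2 * l) t with h3 | h3
    · have h4 : ∑ j ∈ range l, (c j - 2) + ∑ j ∈ range l, 2 = ∑ j ∈ range l, c j := by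
        rw [← Finset.sum_add_distrib]
        apply Finset.sum_congr rfl
        intro j hj
        have := (card_fiber ht hl (Finset.mem_range.1 hj)).1 h3
        have h5 : 2 ≤ c j := this
        omega
      rw [Finset.sum_const, Finset.card_range, smul_eq_mul, ← hT] at h4
      omega
    · have h4 : ∑ j ∈ range l, (c j - 2) = 0 := by
        apply Finset.sum_eq_zero
        intro j hj
        have : c j ≤ 2 := (card_fiber ht hl (Finset.mem_range.1 hj)).2 h3
        omega
      omega
  have hsum2 : ∑ j ∈ range l, (2 - c j) = 2 * l - t := by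
    rcases le_total t (2 * l) with h3 | h3
    · have h4 : ∑ j ∈ range l, (2 - c j) + ∑ j ∈ range l, c j = ∑ j ∈ range l, 2 := by
        rw [← Finset.sum_add_distrib]
        apply Finset.sum_congr rfl
        intro j hj
        have h5 : c j ≤ 2 := (card_fiber ht hl (Finset.mem_range.1 hj)).2 h3
        omega
      rw [Finset.sum_const, Finset.card_range, smul_eq_mul, ← hT] at h4
      omega
    · have h4 : ∑ j ∈ range l, (2 - c j) = 0 := by
        apply Finset.sum_eq_zero
        intro j hj
        have : 2 ≤ c j := (card_fiber ht hl (Finset.mem_range.1 hj)).1 h3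
        omega
      omega
  constructor
  · -- upper bound
    set χ : ℕ → Prop := fun j => ¬ (h ≤ j ∧ j - h < K ∧ ¬ (s (j - h) ∨ bad (j - h))) with hχ
    have hA1 : ∀ j ∈ range l, A j ≤ 2 * (if χ j then 1 else 0) + (c j - 2) := by
      intro j _
      by_cases hj : χ j
      · rw [if_pos hj]
        have := hAc j
        omega
      · rw [if_neg hj]
        rw [hχ] at hj
        simp only [not_not] at hj
        have : A j = 0 := by
          rw [hA]
          simp only
          rw [Finset.card_eq_zero, Finset.filter_eq_empty_iff]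
          intro k hk hkj
          rw [Finset.mem_filter, Finset.mem_range] at hk
          have h3 := h1 k hk.1 hk.2
          rw [hkj] at h3
          exact hj.2.2 (h3 hj.1 hj.2.1)
        omega
    have hB1 : ∑ j ∈ range l, A j ≤ 2 * ((range l).filter χ).card + (t - 2 * l) := by
      refine (Finset.sum_le_sum hA1).trans (le_of_eq ?_)
      rw [Finset.sum_add_distrib, hsum1, ← Finset.mul_sum, Finset.card_filter]
    have hB2 : ((range l).filter χ).card ≤ ((range K).filter s).card + ((range K).filter bad).card + h + (l - K) := by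
      have hsub : (range l).filter χ ⊆ (range h ∪ Ico K l) ∪
          (((range K).filter s).image (· + h) ∪ ((range K).filter bad).image (· + h)) := by
        intro j hj
        rw [Finset.mem_filter, Finset.mem_range] at hj
        rw [Finset.mem_union, Finset.mem_union, Finset.mem_union, Finset.mem_range, Finset.mem_Ico,
          Finset.mem_image, Finset.mem_image]
        obtain ⟨hj1, hj2⟩ := hj
        by_cases h3 : j < h
        · exact Or.inl (Or.inl h3)
        by_cases h4 : K ≤ j
        · exact Or.inl (Or.inr ⟨h4, hj1⟩)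
        right
        rw [hχ] at hj2
        simp only [not_and, not_not] at hj2
        rcases hj2 (by omega) (by omega) with h5 | h5
        · left
          exact ⟨j - h, by rw [Finset.mem_filter, Finset.mem_range]; exact ⟨by omega, h5⟩, by omega⟩
        · right
          exact ⟨j - h, by rw [Finset.mem_filter, Finset.mem_range]; exact ⟨by omega, h5⟩, by omega⟩
      have h3 := Finset.card_le_card hsub
      have h4 := Finset.card_union_le (range h ∪ Ico K l) (((range K).filter s).image (· + h) ∪ ((range K).filter bad).image (· + h))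
      have h5 := Finset.card_union_le (range h) (Ico K l)
      have h6 := Finset.card_union_le (((range K).filter s).image (· + h)) (((range K).filter bad).image (· + h))
      have h7 : (((range K).filter s).image (· + h)).card ≤ ((range K).filter s).card := Finset.card_image_le
      have h8 : (((range K).filter bad).image (· + h)).card ≤ ((range K).filter bad).card := Finset.card_image_le
      rw [Finset.card_range, Nat.card_Ico] at h5
      omega
    rw [hC]
    omega
  · set ψ : ℕ → Prop := fun j => j + h < K ∧ s (j + h) ∧ ¬ bad (j + h) with hψ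
    have hA1 : ∀ j ∈ range l, 2 * (if ψ j then 1 else 0) ≤ A j + (2 - c j) := by
      intro j _
      by_cases hj : ψ j
      · rw [if_pos hj]
        have : A j = c j := by
          rw [hA, hc]
          simp only
          congr 1
          ext k
          rw [Finset.mem_filter, Finset.mem_filter, Finset.mem_filter]
          constructor
          · rintro ⟨⟨h3, _⟩, h4⟩
            exact ⟨h3, h4⟩
          · rintro ⟨h3, h4⟩
            refine ⟨⟨h3, ?_⟩, h4⟩
            apply h2 k (Finset.mem_range.1 h3) <;> rw [h4]
            · exact hj.1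
            · exact hj.2.1
            · exact hj.2.2
        omega
      · rw [if_neg hj]
        omega
    have hB1 : 2 * ((range l).filter ψ).card ≤ ∑ j ∈ range l, A j + (2 * l - t) := by
      rw [← hsum2, ← Finset.sum_add_distrib, Finset.card_filter, Finset.mul_sum]
      exact Finset.sum_le_sum hA1
    have hB2 : ((range K).filter s).card ≤ ((range l).filter ψ).card + ((range K).filter bad).card + h := by
      have hsub : (range K).filter s ⊆ (((range l).filter ψ).image (· + h)) ∪ ((range K).filter bad) ∪ range h := by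
        intro j hj
        rw [Finset.mem_filter, Finset.mem_range] at hj
        rw [Finset.mem_union, Finset.mem_union, Finset.mem_range, Finset.mem_image]
        by_cases h3 : j < h
        · exact Or.inr h3
        by_cases h4 : bad j
        · left; right
          rw [Finset.mem_filter, Finset.mem_range]
          exact ⟨hj.1, h4⟩
        left; left
        refine ⟨j - h, ?_, by omega⟩
        rw [Finset.mem_filter, Finset.mem_range, hψ]
        simp only
        have h5 : j - h + h = j := by omega
        rw [h5]
        exact ⟨by omega, hj.1, hj.2, h4⟩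
      have h3 := Finset.card_le_card hsub
      have h4 := Finset.card_union_le ((((range l).filter ψ).image (· + h)) ∪ ((range K).filter bad)) (range h)
      have h5 := Finset.card_union_le (((range l).filter ψ).image (· + h)) ((range K).filter bad)
      have h6 : (((range l).filter ψ).image (· + h)).card ≤ ((range l).filter ψ).card := Finset.card_image_le
      rw [Finset.card_range] at h4
      omega
    rw [hC]
    omega

/-- the term number `k` is above the chord from `(0, log n)` to `(t, 0)` -/
def Above (n t k : ℕ) : Prop := (n : ℝ) ^ (1 - (k : ℝ) / t) < (T^[k] n : ℕ)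

theorem above_iff {n t : ℕ} (hn : 1 ≤ n) (ht0 : 0 < t) (ht : IsT n t) (k : ℕ) :
    Above n t k ↔ 0 < ((O n k : ℝ) - k * O n t / t) * Real.log 3 + er n k - k / t * er n t := by
  have hnR : (0 : ℝ) < n := by exact_mod_cast hn
  have hp : (0 : ℝ) < (T^[k] n : ℕ) := by exact_mod_cast Ti_pos hn k
  have htR : (0 : ℝ) < t := by exact_mod_cast ht0
  have h1 : Real.log n = t * Real.log 2 - O n t * Real.log 3 - er n t := by
    unfold er
    rw [ht.1]
    simp only [Nat.cast_one, Real.log_one]
    ring
  have h2 : Real.log (T^[k] n : ℕ) = er n k + Real.log n + O n k * Real.log 3 - k * Real.log 2 := by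
    unfold er
    ring
  unfold Above
  rw [← Real.log_lt_log_iff (by positivity) hp, Real.log_rpow hnR, h2]
  have h3 : er n k + Real.log n + O n k * Real.log 3 - k * Real.log 2 - (1 - (k : ℝ) / t) * Real.log n =
      ((O n k : ℝ) - k * O n t / t) * Real.log 3 + er n k - k / t * er n t := by
    rw [h1]
    field_simp
    ring
  rw [← h3, sub_pos]

theorem one_lt_log3 : 1 < Real.log 3 := by
  rw [Real.lt_log_iff_exp_lt (by norm_num)]
  exact Real.exp_one_lt_three

theorem above_imp {m v t h : ℕ} (hm : m % 2 = 1) (ht0 : 0 < t) (ht : IsT (2 ^ v * m) t)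
    (hh : er (2 ^ v * m) t ≤ h) (hl : 0 < O (2 ^ v * m) t) {k : ℕ} (hk : k < t)
    (hc : Above (2 ^ v * m) t k) (hj : h ≤ k * O (2 ^ v * m) t / t) :
    (S m (k * O (2 ^ v * m) t / t - h) + v) * O (2 ^ v * m) t < (k * O (2 ^ v * m) t / t + 1) * t := by
  have hn : 1 ≤ 2 ^ v * m := Nat.mul_pos (by positivity) (by omega)
  rw [above_iff hn ht0 ht] at hc
  have htR : (0 : ℝ) < t := by exact_mod_cast ht0
  have h1 := er_mono hn hk.le
  have h2 := er_nonneg hn k
  have h3 : 0 ≤ (k : ℝ) / t * er (2 ^ v * m) t := by
    have := er_nonneg hn t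
    positivity
  have h4 := one_lt_log3
  set l := O (2 ^ v * m) t with hl'
  have h5 : (k : ℝ) * l / t < O (2 ^ v * m) k + h := by
    by_contra hcon
    push Not at hcon
    have hh0 : (0 : ℝ) ≤ h := Nat.cast_nonneg h
    have h6 : ((O (2 ^ v * m) k : ℝ) - k * l / t) * Real.log 3 ≤ -h * Real.log 3 := by
      apply mul_le_mul_of_nonneg_right _ (by linarith)
      linarith
    have h7 : -(h : ℝ) * Real.log 3 ≤ -h := by nlinarith
    linarith
  have h6 : k * l / t < O (2 ^ v * m) k + h := by
    rw [Nat.div_lt_iff_lt_mul ht0]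
    rw [div_lt_iff₀ htR] at h5
    exact_mod_cast h5
  have h7 : k * l / t - h < O (2 ^ v * m) k := by omega
  rw [lt_O' hm] at h7
  have h8 : k * l < (k * l / t + 1) * t := by
    have := Nat.lt_div_mul_add ht0 (a := k * l)
    rw [Nat.add_mul, one_mul]
    exact this
  exact lt_trans (Nat.mul_lt_mul_of_pos_right h7 hl) h8

theorem above_of {m v t h : ℕ} (hm : m % 2 = 1) (ht0 : 0 < t) (ht : IsT (2 ^ v * m) t)
    (hh : er (2 ^ v * m) t ≤ h) (hh1 : 1 ≤ h) {k : ℕ} (hk : k < t)
    (hc : (S m (k * O (2 ^ v * m) t / t + h) + v) * O (2 ^ v * m) t < (k * O (2 ^ v * m) t / t) * t) :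
    Above (2 ^ v * m) t k := by
  have hn : 1 ≤ 2 ^ v * m := Nat.mul_pos (by positivity) (by omega)
  rw [above_iff hn ht0 ht]
  have htR : (0 : ℝ) < t := by exact_mod_cast ht0
  set l := O (2 ^ v * m) t with hl'
  have h1 : k * l / t * t ≤ k * l := Nat.div_mul_le_self _ _
  have h2 : S m (k * l / t + h) + v < k := by
    have : (S m (k * l / t + h) + v) * l < k * l := lt_of_lt_of_le hc h1
    exact Nat.lt_of_mul_lt_mul_right this
  rw [← lt_O' hm] at h2
  have h3 : k * l < (k * l / t + 1) * t := by
    have := Nat.lt_div_mul_add ht0 (a := k * l)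
    rw [Nat.add_mul, one_mul]
    exact this
  have h4 : (k : ℝ) * l / t < (k * l / t : ℕ) + 1 := by
    rw [div_lt_iff₀ htR]
    exact_mod_cast h3
  have h5 : ((k * l / t : ℕ) : ℝ) + h + 1 ≤ O (2 ^ v * m) k := by exact_mod_cast h2
  have h6 := one_lt_log3
  have h7 : (h : ℝ) ≤ (O (2 ^ v * m) k : ℝ) - k * l / t := by linarith
  have h8 : (h : ℝ) * Real.log 3 ≤ ((O (2 ^ v * m) k : ℝ) - k * l / t) * Real.log 3 :=
    mul_le_mul_of_nonneg_right h7 (by linarith)
  have h9 : (1 : ℝ) ≤ h := by exact_mod_cast hh1
  have h10 : (h : ℝ) < h * Real.log 3 := by nlinarith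
  have h11 := er_nonneg hn k
  have h12 : (k : ℝ) / t * er (2 ^ v * m) t ≤ h := by
    have h13 := er_nonneg hn t
    have h14 : (k : ℝ) / t ≤ 1 := by
      rw [div_le_one htR]
      exact_mod_cast hk.le
    nlinarith
  linarith

/-- the time of the last term in terms of the odd terms -/
theorem S_end {m v t : ℕ} (hm : m % 2 = 1) (ht : IsT (2 ^ v * m) t) (hvt : v ≤ t) :
    S m (O (2 ^ v * m) t) + v = t := by
  have h1 : ¬ (O (2 ^ v * m) t < O (2 ^ v * m) t) := lt_irrefl _
  rw [lt_O' hm] at h1
  have h2 : O (2 ^ v * m) (t + 1) = O (2 ^ v * m) t + 1 := by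
    rw [O_succ, ht.1]
    simp
  have h3 : O (2 ^ v * m) t < O (2 ^ v * m) (t + 1) := by omega
  rw [lt_O' hm] at h3
  omega

end Pool.Agent.H55.UL
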