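import Pool.Agent.H55.UL.Joint

/-!
# The uniform law
-/

set_option autoImplicit false

namespace Pool.Agent.H55.UL

open Filter Topology Finset MeasureTheory ProbabilityTheory
open Pool.Agent.H499R2.ND.TJ (PP geo)
open Pool.Agent.Results.MP_f7abf1_nt.BlockLaw (T Syr wait blocks Admissible prob bound oddCount HasDensity Phi)

theorem NZ_R {z : ℝ} {v m : ℕ} (h : NZ z (2 ^ v * m)) : R m := by
  obtain ⟨t, ht, _⟩ := h
  exact R_two.1 ⟨t, ht.1⟩

/-- the joint law in the class `2 ^ v * (odd)` -/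
theorem joint_class (z : ℝ) (v : ℕ) {ε : ℝ} (hε : 0 < ε) : ∀ᶠ X : ℕ in atTop, ∀ u : ℝ, 0 ≤ u → u ≤ 1 →
    |oddCount X (fun m => PU u (2 ^ v * m) ∧ NZ z (2 ^ v * m)) - u * oddCount X (fun m => NZ z (2 ^ v * m))|
      ≤ ε * X := by
  set e : ℝ := min 1 (ε / 20) with he
  have he0 : 0 < e := by rw [he]; positivity
  have he1 : e ≤ 1 := min_le_left _ _
  have heε : 20 * e ≤ ε := by
    have : e ≤ ε / 20 := min_le_right _ _
    linarith
  obtain ⟨κ₁, hκ₁, hcore⟩ := core he0 he1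
  obtain ⟨δ, _, _, _, _, htail⟩ := tail
  obtain ⟨M, Z, hM, hZ, htail⟩ := htail e he0
  obtain ⟨κ₂, hκ₂, hκ₂2, hjd⟩ := joint_det hM hZ he0
  set κ := min κ₁ κ₂ with hκ
  have hκ0 : 0 < κ := lt_min hκ₁ hκ₂
  have hκ2 : κ ≤ 1 / 2 := (min_le_right _ _).trans hκ₂2
  obtain ⟨r, hr0, hcore⟩ := hcore κ hκ0 (min_le_left _ _)
  obtain ⟨N₁, hN₁⟩ := exists_nat_gt (1 / e ^ 2)
  filter_upwards [hcore v, htail κ hκ0, hjd κ hκ0 (min_le_right _ _) v r e z he0 he1, oc_small he0,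
    b_facts hκ2 hr0, up_short hκ0 he0, log_tendsto.eventually_ge_atTop (max 1 N₁)]
    with X hXcore hXtail hXjd hXs hXb hXsh hL u hu0 hu1
  obtain ⟨hb, hLK, hK1, hK2⟩ := hXb
  set K := r * ⌊(1 - κ) * Real.log X / Real.log (4 / 3) / r⌋₊ with hKdef
  have hL1 : 1 ≤ Real.log X := (le_max_left _ _).trans hL
  have hL2 : (N₁ : ℝ) ≤ Real.log X := (le_max_right _ _).trans hL
  have hK0 : 0 < K := Nat.mul_pos hr0 hb
  have hKR0 : (0 : ℝ) < K := by exact_mod_cast hK0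
  have hX0 : (0 : ℝ) ≤ X := Nat.cast_nonneg X
  have hκL : κ * Real.log X ≤ K := by
    have : κ * Real.log X ≤ 1 * Real.log X := mul_le_mul_of_nonneg_right (by linarith) (by linarith)
    linarith
  set thr : ℝ := z * Real.sqrt (2 * Real.log X / Real.log (4 / 3)) with hthr
  set F : Set ℕ := {s : ℕ | 0 < (s : ℝ) - 2 * K + thr} with hF
  have h1 := hXcore u hu0 hu1 F
  have h2 := hXtail K hK0 hκL hK1
  have h3 := hXsh K hK0 hκL hK1 (2 * K - thr) (e * Real.sqrt K) (by positivity)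
  have hsK : 0 < Real.sqrt K := Real.sqrt_pos.2 hKR0
  have h4 : (2 * (e * Real.sqrt K) + 1) / Real.sqrt K / 2 + e ≤ 3 * e := by
    have h5 : 1 ≤ e * Real.sqrt K := by
      have h6 : 1 / e ^ 2 ≤ K := (hN₁.le.trans hL2).trans hLK
      have h7 : 1 / e ≤ Real.sqrt K := by
        apply Real.le_sqrt_of_sq_le
        rw [div_pow, one_pow]
        exact h6
      rw [div_le_iff₀ he0] at h7
      linarith
    have h6 : (2 * (e * Real.sqrt K) + 1) / Real.sqrt K ≤ 4 * e := by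
      rw [div_le_iff₀ hsK]
      linarith
    linarith
  have h5 : oddCount X (fun n => |(S n K : ℝ) - (2 * K - thr)| ≤ e * Real.sqrt K) ≤ 3 * e * X :=
    h3.trans (mul_le_mul_of_nonneg_right h4 hX0)
  set Bad : ℕ → Prop := fun n => (R n ∧ ¬ Good M Z K n) ∨
    ((¬ (e * X ≤ n)) ∨ (|(S n K : ℝ) - (2 * K - thr)| ≤ e * Real.sqrt K)) with hBad
  have hB : oddCount X Bad ≤ 6 * e * X := by
    have h6 := oc_or X (fun n => R n ∧ ¬ Good M Z K n) (fun n =>
      (¬ (e * X ≤ n)) ∨ (|(S n K : ℝ) - (2 * K - thr)| ≤ e * Real.sqrt K))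
    have h7 := oc_or X (fun n => ¬ (e * X ≤ n)) (fun n => |(S n K : ℝ) - (2 * K - thr)| ≤ e * Real.sqrt K)
    have h8 : oddCount X (fun n => ¬ (e * X ≤ n)) ≤ 2 * e * X := hXs
    linarith
  have key : ∀ m : ℕ, m ≤ X → m % 2 = 1 → R m → ¬ Bad m → (NZ z (2 ^ v * m) ↔ S m K ∈ F) := by
    intro m hmX hm hRm hb
    obtain ⟨g1, g23⟩ := not_or.1 hb
    obtain ⟨g2, g3⟩ := not_or.1 g23
    rw [not_not] at g2
    have hG : Good M Z K m := by
      by_contra h
      exact g1 ⟨hRm, h⟩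
    have := hXjd K hK2 m hmX g2 hm hG (by
      rw [not_le] at g3
      have e1 : (S m K : ℝ) - 2 * K + z * Real.sqrt (2 * Real.log X / Real.log (4 / 3)) = S m K - (2 * K - thr) := by
        rw [hthr]; ring
      rw [e1]
      exact g3)
    exact this
  have hPR : ∀ m, PU u (2 ^ v * m) → R m := by
    rintro m ⟨t, _, ht, _⟩
    exact R_two.1 ⟨t, ht.1⟩
  set A := oddCount X (fun m => PU u (2 ^ v * m) ∧ NZ z (2 ^ v * m)) with hA
  set A' := oddCount X (fun m => PU u (2 ^ v * m) ∧ S m K ∈ F) with hA'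
  set Q := oddCount X (fun m => NZ z (2 ^ v * m)) with hQ
  set Q' := oddCount X (fun m => R m ∧ S m K ∈ F) with hQ'
  have a1 : A ≤ A' + 6 * e * X := by
    have h6 : A ≤ oddCount X (fun m => (PU u (2 ^ v * m) ∧ S m K ∈ F) ∨ Bad m) := by
      apply oc_mono
      rintro m hmX hm ⟨b1, b2⟩
      by_cases hb : Bad m
      · exact Or.inr hb
      · exact Or.inl ⟨b1, (key m hmX (Nat.odd_iff.1 hm) (hPR m b1) hb).1 b2⟩
    have h7 := oc_or X (fun m => PU u (2 ^ v * m) ∧ S m K ∈ F) Bad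
    linarith
  have a2 : A' ≤ A + 6 * e * X := by
    have h6 : A' ≤ oddCount X (fun m => (PU u (2 ^ v * m) ∧ NZ z (2 ^ v * m)) ∨ Bad m) := by
      apply oc_mono
      rintro m hmX hm ⟨b1, b2⟩
      by_cases hb : Bad m
      · exact Or.inr hb
      · exact Or.inl ⟨b1, (key m hmX (Nat.odd_iff.1 hm) (hPR m b1) hb).2 b2⟩
    have h7 := oc_or X (fun m => PU u (2 ^ v * m) ∧ NZ z (2 ^ v * m)) Bad
    linarith
  have a3 : Q ≤ Q' + 6 * e * X := by
    have h6 : Q ≤ oddCount X (fun m => (R m ∧ S m K ∈ F) ∨ Bad m) := by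
      apply oc_mono
      rintro m hmX hm b2
      by_cases hb : Bad m
      · exact Or.inr hb
      · exact Or.inl ⟨NZ_R b2, (key m hmX (Nat.odd_iff.1 hm) (NZ_R b2) hb).1 b2⟩
    have h7 := oc_or X (fun m => R m ∧ S m K ∈ F) Bad
    linarith
  have a4 : Q' ≤ Q + 6 * e * X := by
    have h6 : Q' ≤ oddCount X (fun m => NZ z (2 ^ v * m) ∨ Bad m) := by
      apply oc_mono
      rintro m hmX hm ⟨b1, b2⟩
      by_cases hb : Bad m
      · exact Or.inr hb
      · exact Or.inl ((key m hmX (Nat.odd_iff.1 hm) b1 hb).2 b2)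
    have h7 := oc_or X (fun m => NZ z (2 ^ v * m)) Bad
    linarith
  have heX : 0 ≤ e * X := by positivity
  have a5 : u * Q ≤ u * Q' + 6 * e * X := by
    have h6 := mul_le_mul_of_nonneg_left a3 hu0
    have h7 : u * (6 * (e * X)) ≤ 1 * (6 * (e * X)) := mul_le_mul_of_nonneg_right hu1 (by linarith)
    linarith
  have a6 : u * Q' ≤ u * Q + 6 * e * X := by
    have h6 := mul_le_mul_of_nonneg_left a4 hu0
    have h7 : u * (6 * (e * X)) ≤ 1 * (6 * (e * X)) := mul_le_mul_of_nonneg_right hu1 (by linarith)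
    linarith
  have hεX : 20 * e * X ≤ ε * X := mul_le_mul_of_nonneg_right heε hX0
  rw [abs_le] at h1 ⊢
  constructor <;> linarith [h1.1, h1.2]

theorem marginal_class (v : ℕ) {ε : ℝ} (hε : 0 < ε) : ∀ᶠ X : ℕ in atTop, ∀ u : ℝ, 0 ≤ u → u ≤ 1 →
    |oddCount X (fun m => PU u (2 ^ v * m)) - u * oddCount X (fun m => R (2 ^ v * m))| ≤ ε * X := by
  have he0 : 0 < min 1 ε := by positivity
  obtain ⟨κ₁, hκ₁, hcore⟩ := core he0 (min_le_left _ _)
  obtain ⟨r, hr0, hcore⟩ := hcore κ₁ hκ₁ le_rfl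
  filter_upwards [hcore v] with X hX u hu0 hu1
  have h1 := hX u hu0 hu1 Set.univ
  simp only [Set.mem_univ, and_true] at h1
  have h2 : min 1 ε * (X : ℝ) ≤ ε * X := mul_le_mul_of_nonneg_right (min_le_right _ _) (Nat.cast_nonneg X)
  simp only [R_two]
  exact h1.trans h2

theorem normal (z : ℝ) {δ : ℝ} (hδ : HasDensity R δ) : HasDensity (NZ z) (δ * Phi z) := by
  obtain ⟨δ', h0, h1, h2, h3, h4⟩ := Pool.Agent.Results.MP_f7abf1_nt.NormalLaw.result
  have hδ' : δ' = δ := tendsto_nhds_unique h3 hδ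
  subst hδ'
  have h5 := h4 1 0 0 le_rfl 1 0 le_rfl z
  have e : δ' * Pool.Agent.Results.MP_f7abf1_nt.NormalLaw.Phi z / (((1 : ℕ) : ℝ) ^ 2 * ((1 : ℕ) : ℝ)) = δ' * Phi z := by
    rw [Nat.cast_one, one_pow, mul_one, div_one]
    rfl
  rw [e] at h5
  refine Pool.Agent.H499R2.ND.dn_congr h5 (Pool.Agent.H499R2.ND.zd_bdd 1) fun n hn hE => ?_
  have hn1 : 1 < n := by
    rcases Nat.lt_or_ge 1 n with h | h
    · exact h
    · exact absurd (show (n : ℝ) ≤ 1 by exact_mod_cast h) hE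
  constructor
  · rintro ⟨_, t, ht1, ht2, _, _⟩
    exact ⟨t, ht2, (Pool.Agent.Results.MP_f7abf1_nt.NormalLaw.bound_iff z hn1 t).1 ht1⟩
  · rintro ⟨t, ht1, ht2⟩
    exact ⟨by omega, t, (Pool.Agent.Results.MP_f7abf1_nt.NormalLaw.bound_iff z hn1 t).2 ht2, ht1,
      by simp [Int.modEq_one], by simp [Int.modEq_one]⟩

end Pool.Agent.H55.UL
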