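import Pool.Agent.H55.UL.Tail
import Pool.Agent.H55.UL.Det

/-!
# Deterministic consequences of the typical behaviour
-/

set_option autoImplicit false

namespace Pool.Agent.H55.UL

open Filter Topology Finset
open Pool.Agent.Results.MP_f7abf1_nt.BlockLaw (T Syr wait bound)

theorem log43_lo : (1 / 4 : ℝ) ≤ Real.log (4 / 3) := by
  have := Real.one_sub_inv_le_log_of_pos (show (0 : ℝ) < 4 / 3 by norm_num)
  norm_num at this ⊢
  linarith

theorem log43_hi : Real.log (4 / 3) ≤ 1 / 3 := by
  have := Real.log_le_sub_one_of_pos (show (0 : ℝ) < 4 / 3 by norm_num)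
  linarith

theorem log3_hi : Real.log 3 ≤ 2 := by
  have := Real.log_le_sub_one_of_pos (show (0 : ℝ) < 3 by norm_num)
  linarith

theorem log2_hi : Real.log 2 ≤ 1 := by
  have := Real.log_le_sub_one_of_pos (show (0 : ℝ) < 2 by norm_num)
  linarith

theorem log43_eq : Real.log (4 / 3) = 2 * Real.log 2 - Real.log 3 := by
  rw [Real.log_div (by norm_num) (by norm_num), show (4 : ℝ) = 2 ^ 2 by norm_num, Real.log_pow]
  norm_num

/-- the root in the normal law -/
theorem root_bd {l : ℝ} (hl : 0 ≤ l) : Real.sqrt (2 * l / Real.log (4 / 3) ^ 3) ≤ 12 * Real.sqrt l := by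
  have h := log43_lo
  rw [Real.sqrt_le_left (by positivity), mul_pow, Real.sq_sqrt hl]
  have h1 : (1 / 4 : ℝ) ^ 3 ≤ Real.log (4 / 3) ^ 3 := by gcongr
  have h2 : (0 : ℝ) < Real.log (4 / 3) ^ 3 := lt_of_lt_of_le (by norm_num) h1
  rw [div_le_iff₀ h2]
  nlinarith

/-- an end of a trajectory: time and number of odd terms -/
theorem end_bd {x s : ℕ} {Z : ℝ} (hZ : 0 < Z) (hx : 1 ≤ x) (hs : IsT x s) (hs1 : 1 ≤ s)
    (h1 : (s : ℝ) ≤ bound Z x) (h2 : bound (-Z) x < s) :
    (s : ℝ) ≤ 8 * Real.log x + 24 * Z * Real.sqrt (Real.log x) ∧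
    |(s : ℝ) - 2 * O x s| ≤ 4 * Z * Real.sqrt (Real.log x) + 2 * (1 + Real.log s) := by
  have hl : 0 ≤ Real.log x := Real.log_natCast_nonneg x
  have hlo := log43_lo
  have hhi := log43_hi
  have h3l := one_lt_log3
  have h3h := log3_hi
  have hr := root_bd hl
  have hr0 := Real.sqrt_nonneg (2 * Real.log x / Real.log (4 / 3) ^ 3)
  set rt := Real.sqrt (2 * Real.log x / Real.log (4 / 3) ^ 3) with hrt
  have hsq := Real.sqrt_nonneg (Real.log x)
  unfold bound at h1 h2
  rw [← hrt] at h1 h2
  have hlogpos : 0 < Real.log (4 / 3) := by linarith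
  have e1 : 2 / Real.log (4 / 3) * Real.log x ≤ 8 * Real.log x := by
    apply mul_le_mul_of_nonneg_right _ hl
    rw [div_le_iff₀ hlogpos]
    linarith
  have e2 : Z * (Real.log 3 * rt) ≤ 24 * Z * Real.sqrt (Real.log x) := by
    have : Real.log 3 * rt ≤ 2 * (12 * Real.sqrt (Real.log x)) := by
      apply mul_le_mul h3h hr hr0 (by norm_num)
    nlinarith
  refine ⟨by linarith, ?_⟩
  have her : er x s ≤ 1 + Real.log s := er_bound hx hs
  have her0 := er_nonneg hx s
  have hid : er x s = - Real.log x - O x s * Real.log 3 + s * Real.log 2 := by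
    unfold er
    rw [hs.1]
    simp
  have e3 : ((s : ℝ) - 2 * O x s) * Real.log 3 = (2 * Real.log x - s * Real.log (4 / 3)) + 2 * er x s := by
    rw [hid, log43_eq]
    ring
  have e4 : |2 * Real.log x - s * Real.log (4 / 3)| ≤ 4 * Z * Real.sqrt (Real.log x) * Real.log 3 := by
    have e5 : 2 * Real.log x - s * Real.log (4 / 3) = Real.log (4 / 3) * (2 / Real.log (4 / 3) * Real.log x - s) := by
      field_simp
    rw [e5, abs_mul, abs_of_pos hlogpos]
    have e6 : |2 / Real.log (4 / 3) * Real.log x - s| ≤ Z * (Real.log 3 * rt) := by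
      rw [abs_le]
      constructor
      · linarith
      · linarith
    calc Real.log (4 / 3) * |2 / Real.log (4 / 3) * Real.log x - s|
        ≤ (1 / 3) * (Z * (Real.log 3 * rt)) := by gcongr
      _ ≤ (1 / 3) * (Z * (Real.log 3 * (12 * Real.sqrt (Real.log x)))) := by gcongr
      _ = 4 * Z * Real.sqrt (Real.log x) * Real.log 3 := by ring
  have e7 : |(s : ℝ) - 2 * O x s| * Real.log 3 ≤ (4 * Z * Real.sqrt (Real.log x) + 2 * (1 + Real.log s)) * Real.log 3 := by
    rw [← abs_of_pos (show 0 < Real.log 3 by linarith), ← abs_mul, e3, abs_of_pos (show 0 < Real.log 3 by linarith)]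
    refine (abs_add_le _ _).trans ?_
    rw [abs_of_nonneg (by positivity : 0 ≤ 2 * er x s), add_mul]
    have : 2 * er x s ≤ 2 * (1 + Real.log s) * Real.log 3 := by
      have hs0 : 0 ≤ Real.log s := Real.log_natCast_nonneg s
      nlinarith
    linarith
  exact le_of_mul_le_mul_right e7 (by linarith)

/-- existence of the total stopping time -/
theorem exists_IsT {x : ℕ} (h : R x) : ∃ s, IsT x s := by
  classical
  refine ⟨Nat.find h, Nat.find_spec h, fun j hj => Nat.find_min h hj⟩

theorem T_cycle (k : ℕ) : T^[k] 1 = 1 ∨ T^[k] 1 = 2 := by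
  induction k with
  | zero => exact Or.inl rfl
  | succ k ih =>
    rw [Function.iterate_succ_apply']
    rcases ih with h | h
    · rw [h]; right; decide
    · rw [h]; left; decide

/-- composition of the first part and of the end -/
theorem comp_IsT {m v K s : ℕ} (hm : m % 2 = 1) (hs : IsT (Syr^[K] m) s) (hs1 : 1 ≤ s) :
    IsT (2 ^ v * m) (v + S m K + s) ∧ O (2 ^ v * m) (v + S m K + s) = K + O (Syr^[K] m) s := by
  have hx1 : Syr^[K] m ≠ 1 := hs.2 0 hs1
  refine ⟨⟨?_, ?_⟩, ?_⟩
  · rw [show v + S m K + s = s + (S m K + v) by ring, Function.iterate_add_apply, Function.iterate_add_apply,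
      T_two v m v le_rfl, Nat.sub_self, pow_zero, one_mul, T_S hm]
    exact hs.1
  · intro j hj h
    rcases lt_or_ge j v with h1 | h1
    · rw [T_two v m j h1.le] at h
      obtain ⟨c, hc⟩ : ∃ c, v - j = c + 1 := ⟨v - j - 1, by omega⟩
      rw [hc, pow_succ, mul_right_comm] at h
      omega
    · obtain ⟨i, rfl⟩ := Nat.exists_eq_add_of_le h1
      rw [add_comm v i, Function.iterate_add_apply, T_two v m v le_rfl, Nat.sub_self, pow_zero, one_mul] at h
      rcases lt_or_ge i (S m K) with h2 | h2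
      · have h3 : T^[S m K] m = T^[S m K - i] 1 := by
          rw [← h, ← Function.iterate_add_apply]
          congr 2
          omega
        rw [T_S hm] at h3
        have h4 := syr_iter_odd hm K
        rcases T_cycle (S m K - i) with h5 | h5
        · exact hx1 (h3.trans h5)
        · rw [h3, h5] at h4
          omega
      · obtain ⟨q, rfl⟩ := Nat.exists_eq_add_of_le h2
        rw [add_comm (S m K) q, Function.iterate_add_apply, T_S hm] at h
        exact hs.2 q (by omega) h
  · rw [add_assoc, O_add, O_two, zero_add, T_two v m v le_rfl, Nat.sub_self, pow_zero, one_mul, O_add, O_S hm, T_S hm]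

theorem sqrt_mul_bd {c K : ℝ} (hc : 0 ≤ c) {l : ℝ} (h : l ≤ c ^ 2 * K) : Real.sqrt l ≤ c * Real.sqrt K := by
  calc Real.sqrt l ≤ Real.sqrt (c ^ 2 * K) := Real.sqrt_le_sqrt h
    _ = c * Real.sqrt K := by rw [Real.sqrt_mul (by positivity), Real.sqrt_sq hc]

/-- slowly growing quantities -/
theorem slow (A : ℝ) {c : ℝ} (hc : 0 < c) : ∀ᶠ K : ℝ in atTop, 1 ≤ K ∧ A * (1 + Real.log K) ≤ c * Real.sqrt K ∧
    A * Real.sqrt K ≤ c * K := by
  have h1 : Tendsto (fun K : ℝ => (1 + Real.log K) / Real.sqrt K) atTop (𝓝 0) := by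
    have h2 : Tendsto (fun K : ℝ => Real.log K / K ^ (1 / 2 : ℝ)) atTop (𝓝 0) :=
      (isLittleO_log_rpow_atTop (by norm_num : (0 : ℝ) < 1 / 2)).tendsto_div_nhds_zero
    have h3 : Tendsto (fun K : ℝ => 1 / Real.sqrt K) atTop (𝓝 0) := by
      have := (Real.tendsto_sqrt_atTop).inv_tendsto_atTop
      refine this.congr fun K => ?_
      simp
    have h4 := h3.add h2
    rw [add_zero] at h4
    refine h4.congr fun K => ?_
    rw [← Real.sqrt_eq_rpow, add_div]
  have h2 : Tendsto (fun K : ℝ => A * ((1 + Real.log K) / Real.sqrt K)) atTop (𝓝 0) := by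
    have := h1.const_mul A
    rwa [mul_zero] at this
  have h3 := Real.tendsto_sqrt_atTop.eventually_ge_atTop (A / c)
  filter_upwards [eventually_ge_atTop (1 : ℝ), h2.eventually (gt_mem_nhds hc), h3] with K q1 q2 q3
  have hK : 0 < Real.sqrt K := Real.sqrt_pos.2 (by linarith)
  refine ⟨q1, ?_, ?_⟩
  · rw [← mul_div_assoc, div_lt_iff₀ hK] at q2
    exact q2.le
  · rw [div_le_iff₀ hc] at q3
    have h4 : Real.sqrt K * Real.sqrt K = K := Real.mul_self_sqrt (by linarith)
    nlinarith

end Pool.Agent.H55.UL
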