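import Pool.Agent.H55.UL.GoodDet

/-!
# Typical trajectories: comparison with the first `K` odd steps
-/

set_option autoImplicit false

namespace Pool.Agent.H55.UL

open Filter Topology Finset
open Pool.Agent.Results.MP_f7abf1_nt.BlockLaw (T Syr wait bound)

/-- below the chord of the first `K` odd steps -/
def sg (K m j : ℕ) : Prop := K * S m j < j * S m K

/-- near the chord of the first `K` odd steps -/
def bd (w : ℝ) (K m j : ℕ) : Prop := |(j : ℝ) * S m K - K * S m j| ≤ K * w

open Classical in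
theorem chord_cmp {m v t h K : ℕ} {w : ℝ} (hm : m % 2 = 1) (ht0 : 0 < t) (ht : IsT (2 ^ v * m) t)
    (hh : er (2 ^ v * m) t ≤ h) (hh1 : 1 ≤ h) (hK0 : 0 < K) (hKl : K ≤ O (2 ^ v * m) t)
    (hw1 : ((h : ℝ) + 1) * (t / O (2 ^ v * m) t) ≤ w / 2)
    (hw2 : ∀ j : ℕ, j ≤ K → |(j : ℝ) * (t / O (2 ^ v * m) t - S m K / K) - v| ≤ w / 2) :
    ((range t).filter (Above (2 ^ v * m) t)).card ≤
        2 * (((range K).filter (sg K m)).card + ((range K).filter (bd w K m)).card)
        + 2 * h + 2 * (O (2 ^ v * m) t - K) + (t - 2 * O (2 ^ v * m) t) ∧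
    2 * ((range K).filter (sg K m)).card ≤ ((range t).filter (Above (2 ^ v * m) t)).card
        + 2 * ((range K).filter (bd w K m)).card + 2 * h + (2 * O (2 ^ v * m) t - t) := by
  have hl : 0 < O (2 ^ v * m) t := lt_of_lt_of_le hK0 hKl
  have hlR : (0 : ℝ) < O (2 ^ v * m) t := by exact_mod_cast hl
  have hKR : (0 : ℝ) < K := by exact_mod_cast hK0
  have htR : (0 : ℝ) < t := by exact_mod_cast ht0
  set l := O (2 ^ v * m) t with hl'
  set ρ : ℝ := (t : ℝ) / l with hρ
  have hρ0 : 0 < ρ := by rw [hρ]; positivity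
  have hw0 : 0 ≤ w / 2 := (abs_nonneg _).trans (hw2 0 (Nat.zero_le _))
  refine count_cmp ht0 hK0 hKl _ _ _ ?_ ?_
  · intro k hk hc hj hjK
    have h1 := above_imp hm ht0 ht hh hl hk hc hj
    rw [← hl'] at h1
    set j := k * l / t with hjdef
    by_contra hcon
    push Not at hcon
    obtain ⟨hc1, hc2⟩ := hcon
    unfold sg at hc1
    unfold bd at hc2
    set i := j - h with hi
    have hij : (j : ℝ) = i + h := by
      rw [hi, Nat.cast_sub hj]; ring
    have h2 : ((S m i : ℝ) + v) * l < (j + 1) * t := by exact_mod_cast h1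
    have h3 : (S m i : ℝ) + v < (j + 1) * ρ := by
      rw [hρ, ← mul_div_assoc, lt_div_iff₀ hlR]
      exact h2
    have h4 := hw2 i hjK.le
    rw [abs_le] at h4
    have h5 : (i : ℝ) * S m K ≤ K * S m i := by exact_mod_cast not_lt.1 hc1
    rw [not_le, abs_of_nonpos (by linarith)] at hc2
    -- `i S_K / K - S_i > -w`
    have h6 : -w < (i : ℝ) * (S m K / K) - S m i := by
      have : (i : ℝ) * (ρ - S m K / K) - v ≤ w / 2 := h4.2
      have h7 : ((h : ℝ) + 1) * ρ ≤ w / 2 := hw1
      rw [hij] at h3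
      linarith
    have h8 : K * ((i : ℝ) * (S m K / K) - S m i) = i * S m K - K * S m i := by
      field_simp
    have h9 : K * (-w) < K * ((i : ℝ) * (S m K / K) - S m i) := mul_lt_mul_of_pos_left h6 hKR
    linarith
  · intro k hk hjK hs hb
    set j := k * l / t with hjdef
    apply above_of hm ht0 ht hh hh1 hk
    rw [← hl', ← hjdef]
    unfold sg at hs
    unfold bd at hb
    set i := j + h with hi
    have hij : (j : ℝ) = i - h := by
      rw [hi]; push_cast; ring
    have h4 := hw2 i hjK.le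
    rw [abs_le] at h4
    have h5 : (K : ℝ) * S m i < i * S m K := by exact_mod_cast hs
    rw [not_le, abs_of_pos (by linarith)] at hb
    have h8 : K * ((i : ℝ) * (S m K / K) - S m i) = i * S m K - K * S m i := by
      field_simp
    have h6 : w < (i : ℝ) * (S m K / K) - S m i := by
      have : (K : ℝ) * w < K * ((i : ℝ) * (S m K / K) - S m i) := by linarith
      exact lt_of_mul_lt_mul_left this hKR.le
    have h3 : (S m i : ℝ) + v < j * ρ := by
      have h7 : ((h : ℝ) + 1) * ρ ≤ w / 2 := hw1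
      have h9 : -(w / 2) ≤ (i : ℝ) * (ρ - S m K / K) - v := h4.1
      rw [hij]
      linarith
    have h2 : ((S m i : ℝ) + v) * l < j * t := by
      rw [hρ, ← mul_div_assoc, lt_div_iff₀ hlR] at h3
      exact h3
    exact_mod_cast h2

theorem log_3K {K x : ℝ} (hK : 1 ≤ K) (hx : 0 ≤ x) (h : x ≤ 3 * K) : Real.log x ≤ 2 + Real.log K := by
  rcases hx.eq_or_lt with h0 | h0
  · rw [← h0, Real.log_zero]
    have := Real.log_nonneg hK
    linarith
  · have h1 := Real.log_le_log h0 h
    rw [Real.log_mul (by norm_num) (by linarith)] at h1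
    linarith [log3_hi]

open Classical in
theorem good_imp {M Z η ε : ℝ} (hM : 0 < M) (hZ : 0 < Z) (hη : 0 < η) (hε : 0 < ε) (hε1 : ε ≤ 1) :
    ∃ κ₀ : ℝ, 0 < κ₀ ∧ κ₀ ≤ 1 / 2 ∧ ∀ κ : ℝ, 0 < κ → κ ≤ κ₀ → ∀ v r : ℕ, ∀ᶠ X : ℕ in atTop, ∀ K : ℕ,
      (1 - κ) * Real.log X / Real.log (4 / 3) - r ≤ K →
      ∀ m : ℕ, m ≤ X → m % 2 = 1 → Good M Z K m → ∃ t : ℕ, 0 < t ∧ IsT (2 ^ v * m) t ∧
        |(t : ℝ) - 2 * K| ≤ ε * K ∧
        (((range t).filter (Above (2 ^ v * m) t)).card : ℝ) ≤
          2 * ((range K).filter (sg K m)).card + 2 * ((range K).filter (bd (η * Real.sqrt K) K m)).card + ε * K ∧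
        2 * (((range K).filter (sg K m)).card : ℝ) ≤
          ((range t).filter (Above (2 ^ v * m) t)).card + 2 * ((range K).filter (bd (η * Real.sqrt K) K m)).card
            + ε * K := by
  set κ₀ : ℝ := min (1 / 2) (min (ε / 200) (min (η ^ 2 / (2048 * Z ^ 2)) (η / (136 * M)))) with hκ₀
  refine ⟨κ₀, by rw [hκ₀]; positivity, min_le_left _ _, ?_⟩
  intro κ hκ hκκ v r
  have k1 : κ ≤ 1 / 2 := hκκ.trans (min_le_left _ _)
  have k2 : κ ≤ ε / 200 := hκκ.trans ((min_le_right _ _).trans (min_le_left _ _))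
  have k3 : κ ≤ η ^ 2 / (2048 * Z ^ 2) :=
    hκκ.trans ((min_le_right _ _).trans ((min_le_right _ _).trans (min_le_left _ _)))
  have k4 : κ ≤ η / (136 * M) :=
    hκκ.trans ((min_le_right _ _).trans ((min_le_right _ _).trans (min_le_right _ _)))
  have k3' : 32 * Z * Real.sqrt (2 * κ) ≤ η := by
    rw [le_div_iff₀ (by positivity)] at k3
    have : Real.sqrt (2 * κ) ≤ η / (32 * Z) := by
      rw [Real.sqrt_le_left (by positivity), div_pow, le_div_iff₀ (by positivity)]
      linarith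
    rw [le_div_iff₀ (by positivity)] at this
    linarith
  have k4' : 136 * κ * M ≤ η := by
    rw [le_div_iff₀ (by positivity)] at k4
    linarith
  -- large `K`
  obtain ⟨K₁, hK₁⟩ := eventually_atTop.1 (slow M (show (0 : ℝ) < min 1 (κ / 2) by positivity))
  obtain ⟨K₂, hK₂⟩ := eventually_atTop.1 (slow ((r : ℝ) + 4) (show (0 : ℝ) < min (κ / 2) 1 by positivity))
  obtain ⟨K₃, hK₃⟩ := eventually_atTop.1 (slow (24 * Z * Real.sqrt (2 * κ)) hκ)
  obtain ⟨K₄, hK₄⟩ := eventually_atTop.1 (slow ((v : ℝ) + M + 4 * Z * Real.sqrt (2 * κ) + 4) (show (0 : ℝ) < ε / 16 by positivity))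
  obtain ⟨K₅, hK₅⟩ := eventually_atTop.1 (slow (2 * (v : ℝ) + 16) (show (0 : ℝ) < η / 8 by positivity))
  have hLt : Tendsto (fun X : ℕ => Real.log X) atTop atTop := Real.tendsto_log_atTop.comp tendsto_natCast_atTop_atTop
  filter_upwards [hLt.eventually_ge_atTop (max (max (max K₁ K₂) (max K₃ K₄)) (max K₅ (max (2 * r) 1)))] with X hX K hK m hmX hm hG
  set L := Real.log X with hL
  have hX1 : K₁ ≤ L := ((le_max_left _ _).trans (le_max_left _ _)).trans ((le_max_left _ _).trans hX)
  have hX2 : K₂ ≤ L := ((le_max_right _ _).trans (le_max_left _ _)).trans ((le_max_left _ _).trans hX)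
  have hX3 : K₃ ≤ L := ((le_max_left _ _).trans (le_max_right _ _)).trans ((le_max_left _ _).trans hX)
  have hX4 : K₄ ≤ L := ((le_max_right _ _).trans (le_max_right _ _)).trans ((le_max_left _ _).trans hX)
  have hX5 : K₅ ≤ L := (le_max_left _ _).trans ((le_max_right _ _).trans hX)
  have hX6 : 2 * (r : ℝ) ≤ L := (le_max_left _ _).trans ((le_max_right _ _).trans ((le_max_right _ _).trans hX))
  have hX7 : 1 ≤ L := (le_max_right _ _).trans ((le_max_right _ _).trans ((le_max_right _ _).trans hX))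
  have hlo := log43_lo
  have hhi := log43_hi
  have hlpos : 0 < Real.log (4 / 3) := by linarith
  have hLK : L ≤ K := by
    have h1 : 3 / 2 * L ≤ (1 - κ) * L / Real.log (4 / 3) := by
      rw [le_div_iff₀ hlpos]
      have q1 := mul_le_mul_of_nonneg_left hhi (show (0 : ℝ) ≤ L by linarith)
      have q2 := mul_le_mul_of_nonneg_right k1 (show (0 : ℝ) ≤ L by linarith)
      linarith
    linarith
  have hKR1 : (1 : ℝ) ≤ K := hX7.trans hLK
  have hK0 : 0 < K := by
    have : (0 : ℝ) < K := by linarith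
    exact_mod_cast this
  have hKR : (0 : ℝ) < K := by linarith
  obtain ⟨_, s11, s12⟩ := hK₁ K (hX1.trans hLK)
  obtain ⟨_, s21, s22⟩ := hK₂ K (hX2.trans hLK)
  obtain ⟨_, s31, s32⟩ := hK₃ K (hX3.trans hLK)
  obtain ⟨_, s41, s42⟩ := hK₄ K (hX4.trans hLK)
  obtain ⟨_, s51, s52⟩ := hK₅ K (hX5.trans hLK)
  have hsq1 : 1 ≤ Real.sqrt K := by rw [Real.one_le_sqrt]; exact hKR1
  have hsqK : Real.sqrt K * Real.sqrt K = K := Real.mul_self_sqrt hKR.le
  have hsqle : Real.sqrt K ≤ K := by
    have := mul_le_mul_of_nonneg_left hsq1 (Real.sqrt_nonneg (K : ℝ))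
    linarith
  have hlogK : 0 ≤ Real.log K := Real.log_nonneg hKR1
  obtain ⟨g1, g2, g3⟩ := hG
  -- the end
  set y := Syr^[K] m with hy
  have hyodd : y % 2 = 1 := syr_iter_odd hm K
  have hy1 : 1 ≤ y := by omega
  have hRy : R y := by
    obtain ⟨k, _, h⟩ := g2
    exact ⟨k, h⟩
  obtain ⟨s, hs⟩ := exists_IsT hRy
  have hs_le : (s : ℝ) ≤ bound Z y := by
    obtain ⟨k, h1, h2⟩ := g2
    have : s ≤ k := by
      by_contra hcon
      exact hs.2 k (not_le.1 hcon) h2
    have : (s : ℝ) ≤ k := by exact_mod_cast this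
    exact this.trans h1
  have hs_gt : bound (-Z) y < s := by
    by_contra hcon
    exact g3 ⟨s, not_lt.1 hcon, hs.1⟩
  have hs1 : 1 ≤ s := by
    rcases Nat.eq_zero_or_pos s with h0 | h0
    · exfalso
      subst h0
      have h1 : y = 1 := hs.1
      rw [h1] at hs_gt
      unfold bound at hs_gt
      simp at hs_gt
    · exact h0
  obtain ⟨e1, e2⟩ := end_bd hZ hy1 hs hs1 hs_le hs_gt
  have hm1 : 1 ≤ m := by omega
  obtain ⟨hT, hO⟩ := comp_IsT (v := v) hm hs hs1
  obtain ⟨hT0, _⟩ := comp_IsT (v := 0) hm hs hs1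
  rw [pow_zero, one_mul, zero_add] at hT0
  set x := S m K with hx
  have hd1 := abs_lt.1 g1
  have hMK : M * Real.sqrt K ≤ K := by
    calc M * Real.sqrt K ≤ min 1 (κ / 2) * K := s12
      _ ≤ 1 * K := by gcongr; exact min_le_left _ _
      _ = K := one_mul _
  have hMK2 : M * Real.sqrt K ≤ κ / 2 * K := s12.trans (by gcongr; exact min_le_right _ _)
  have hx3 : (x : ℝ) ≤ 3 * K := by linarith
  -- the size of `y`
  have hlam : Real.log y ≤ 2 * κ * K := by
    have h1 : er m x = Real.log y - Real.log m - K * Real.log 3 + x * Real.log 2 := by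
      unfold er
      rw [hx, T_S hm, O_S hm]
    have h2 : er m x ≤ 1 + Real.log x := er_bound' hm1 hT0 (Nat.le_add_right _ _)
    have h3 : Real.log x ≤ 2 + Real.log K := log_3K hKR1 (Nat.cast_nonneg _) hx3
    have h4 : Real.log m ≤ L := by
      apply Real.log_le_log
      · exact_mod_cast hm1
      · exact_mod_cast hmX
    have h5 : (1 - κ) * L ≤ (K + r) * Real.log (4 / 3) := by
      rw [sub_le_iff_le_add, div_le_iff₀ hlpos] at hK
      exact hK
    have h6 : (K : ℝ) * Real.log 3 - x * Real.log 2 = -K * Real.log (4 / 3) - (x - 2 * K) * Real.log 2 := by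
      rw [log43_eq]; ring
    have h7 : -((x : ℝ) - 2 * K) * Real.log 2 ≤ M * Real.sqrt K := by
      have h8 : 0 < Real.log 2 := Real.log_pos (by norm_num)
      have h9 := log2_hi
      have h10 : 0 ≤ M * Real.sqrt K := by positivity
      have q1 := mul_le_mul_of_nonneg_right (show -((x : ℝ) - 2 * K) ≤ M * Real.sqrt K by linarith [hd1.1]) h8.le
      have q2 := mul_le_mul_of_nonneg_left h9 h10
      linarith
    have h8 : (r : ℝ) * Real.log (4 / 3) ≤ r := by
      have : (0 : ℝ) ≤ r := Nat.cast_nonneg r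
      have q1 := mul_le_mul_of_nonneg_left hhi this
      linarith
    have h9 : Real.log y ≤ κ * L + (3 + r + Real.log K) + M * Real.sqrt K := by linarith
    have h10 : 3 + (r : ℝ) + Real.log K ≤ κ / 2 * K := by
      have hr0 : (0 : ℝ) ≤ r := Nat.cast_nonneg r
      have q1 := mul_nonneg hr0 hlogK
      calc 3 + (r : ℝ) + Real.log K ≤ ((r : ℝ) + 4) * (1 + Real.log K) := by linarith
        _ ≤ min (κ / 2) 1 * Real.sqrt K := s21
        _ ≤ κ / 2 * K := by
          apply mul_le_mul (min_le_left _ _) hsqle (Real.sqrt_nonneg _) (by positivity)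
    have h11 : κ * L ≤ κ * K := by gcongr
    linarith
  have hlam0 : 0 ≤ Real.log y := Real.log_natCast_nonneg y
  have hsl : Real.sqrt (Real.log y) ≤ Real.sqrt (2 * κ) * Real.sqrt K := by
    rw [← Real.sqrt_mul (by positivity)]
    exact Real.sqrt_le_sqrt hlam
  have hs17 : (s : ℝ) ≤ 17 * κ * K := by
    have h1 : 24 * Z * Real.sqrt (Real.log y) ≤ κ * K := by
      calc 24 * Z * Real.sqrt (Real.log y) ≤ 24 * Z * (Real.sqrt (2 * κ) * Real.sqrt K) := by gcongr
        _ = 24 * Z * Real.sqrt (2 * κ) * Real.sqrt K := by ring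
        _ ≤ κ * K := s32
    linarith
  have hsK : (s : ℝ) ≤ K := by
    have : 17 * κ ≤ 1 := by linarith
    have q1 := mul_le_mul_of_nonneg_right this hKR.le
    linarith
  set o := O y s with ho
  have hos : o ≤ s := O_le y s
  have ho17 : (o : ℝ) ≤ 17 * κ * K := by
    have : (o : ℝ) ≤ s := by exact_mod_cast hos
    linarith
  have hd2 : |(s : ℝ) - 2 * o| ≤ 4 * Z * Real.sqrt (2 * κ) * Real.sqrt K + 2 * (1 + Real.log K) := by
    have h1 : Real.log s ≤ Real.log K := by
      apply Real.log_le_log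
      · exact_mod_cast hs1
      · exact hsK
    have h2 : 4 * Z * Real.sqrt (Real.log y) ≤ 4 * Z * (Real.sqrt (2 * κ) * Real.sqrt K) := by gcongr
    linarith
  set t := v + x + s with htdef
  have htpos : 0 < t := by omega
  set l := O (2 ^ v * m) t with hldef
  have hlK : l = K + o := hO
  have hKl : K ≤ l := by omega
  have hlR : (l : ℝ) = K + o := by rw [hlK]; push_cast; ring
  have htR : (t : ℝ) = v + x + s := by rw [htdef]; push_cast; ring
  have ht2l : (t : ℝ) - 2 * l = v + (x - 2 * K) + (s - 2 * o) := by rw [hlR, htR]; ring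
  have habs : |(t : ℝ) - 2 * l| ≤ ε / 8 * K := by
    rw [ht2l]
    have hv0 : (0 : ℝ) ≤ v := Nat.cast_nonneg v
    have h1 : |(v : ℝ) + (x - 2 * K) + (s - 2 * o)| ≤ v + M * Real.sqrt K +
        (4 * Z * Real.sqrt (2 * κ) * Real.sqrt K + 2 * (1 + Real.log K)) := by
      refine (abs_add_le _ _).trans (add_le_add ((abs_add_le _ _).trans ?_) hd2)
      rw [abs_of_nonneg hv0]
      linarith [g1.le]
    have h2 : (v : ℝ) ≤ v * Real.sqrt K := by
      have := mul_le_mul_of_nonneg_left hsq1 hv0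
      linarith
    have h3 : 2 * (1 + Real.log K) ≤ ε / 16 * K := by
      have h4 : 2 * (1 + Real.log K) ≤ ((v : ℝ) + M + 4 * Z * Real.sqrt (2 * κ) + 4) * (1 + Real.log K) := by
        apply mul_le_mul_of_nonneg_right _ (by linarith)
        have : 0 ≤ 4 * Z * Real.sqrt (2 * κ) := by positivity
        linarith
      calc 2 * (1 + Real.log K) ≤ ε / 16 * Real.sqrt K := h4.trans s41
        _ ≤ ε / 16 * K := by gcongr
    have h5 : (v : ℝ) * Real.sqrt K + M * Real.sqrt K + 4 * Z * Real.sqrt (2 * κ) * Real.sqrt K ≤ ε / 16 * K := by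
      refine le_trans ?_ s42
      have : 0 ≤ 4 * Real.sqrt K := by positivity
      linarith
    linarith
  have ht2K : |(t : ℝ) - 2 * K| ≤ ε * K := by
    have h1 : (t : ℝ) - 2 * K = (t - 2 * l) + 2 * o := by rw [hlR]; ring
    rw [h1]
    refine (abs_add_le _ _).trans ?_
    rw [abs_of_nonneg (by positivity : (0 : ℝ) ≤ 2 * o)]
    have h2 : κ * K ≤ ε / 200 * K := by gcongr
    have h3 : 0 ≤ ε * K := by positivity
    linarith
  have ht3 : (t : ℝ) ≤ 3 * K := by
    have := (abs_le.1 ht2K).2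
    have q1 := mul_le_mul_of_nonneg_right hε1 hKR.le
    linarith
  -- the height
  set h := ⌈1 + Real.log t⌉₊ with hh
  have hlogt : Real.log t ≤ 2 + Real.log K := log_3K hKR1 (Nat.cast_nonneg _) ht3
  have hlogt0 : 0 ≤ Real.log t := Real.log_natCast_nonneg t
  have hh1 : 1 ≤ h := by
    rw [hh, Nat.one_le_ceil_iff]
    linarith
  have hhe : er (2 ^ v * m) t ≤ h := by
    have hn : 1 ≤ 2 ^ v * m := Nat.mul_pos (by positivity) (by omega)
    exact (er_bound hn hT).trans (Nat.le_ceil _)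
  have hhu : (h : ℝ) ≤ 4 + Real.log K := by
    have := (Nat.ceil_lt_add_one (show 0 ≤ 1 + Real.log t by linarith)).le
    linarith
  have hlpos' : (0 : ℝ) < l := by rw [hlR]; positivity
  have hρ3 : (t : ℝ) / l ≤ 3 := by
    rw [div_le_iff₀ hlpos', hlR]
    have : (0 : ℝ) ≤ o := Nat.cast_nonneg o
    linarith
  have hs16 : 16 * (1 + Real.log K) ≤ η / 8 * Real.sqrt K := by
    refine le_trans ?_ s51
    apply mul_le_mul_of_nonneg_right _ (by linarith)
    have : (0 : ℝ) ≤ v := Nat.cast_nonneg v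
    linarith
  have hsv : 2 * (v : ℝ) + 2 * (1 + Real.log K) ≤ η / 8 * Real.sqrt K := by
    refine le_trans ?_ s51
    have : (0 : ℝ) ≤ v := Nat.cast_nonneg v
    have q1 := mul_nonneg this hlogK
    linarith
  have hw1 : ((h : ℝ) + 1) * (t / l) ≤ η * Real.sqrt K / 2 := by
    have h1 : ((h : ℝ) + 1) * (t / l) ≤ (5 + Real.log K) * 3 := by
      apply mul_le_mul (by linarith) hρ3 (by positivity) (by linarith)
    have h2 : 0 ≤ η * Real.sqrt K := by positivity
    linarith
  have hcore : |(K : ℝ) * (t / l - x / K)| ≤ (v : ℝ) + |(s : ℝ) - 2 * o| + 17 * κ * (M * Real.sqrt K) := by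
    have h1 : (K : ℝ) * (t / l - x / K) = (K / l) * (v + (s - 2 * o)) - (o / l) * (x - 2 * K) := by
      have hne : (K : ℝ) + o ≠ 0 := by
        have : (0 : ℝ) ≤ o := Nat.cast_nonneg o
        linarith
      rw [htR, hlR]
      field_simp
      ring
    rw [h1]
    have hKl1 : (K : ℝ) / l ≤ 1 := by
      rw [div_le_one hlpos', hlR]
      have : (0 : ℝ) ≤ o := Nat.cast_nonneg o
      linarith
    have hol : (o : ℝ) / l ≤ 17 * κ := by
      rw [div_le_iff₀ hlpos', hlR]
      have : (0 : ℝ) ≤ o := Nat.cast_nonneg o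
      have q1 := mul_nonneg hκ.le this
      linarith
    refine (abs_sub _ _).trans ?_
    rw [abs_mul, abs_mul, abs_of_nonneg (by positivity : (0 : ℝ) ≤ (K : ℝ) / l),
      abs_of_nonneg (by positivity : (0 : ℝ) ≤ (o : ℝ) / l)]
    have h5 : |(v : ℝ) + (s - 2 * o)| ≤ v + |(s : ℝ) - 2 * o| := by
      refine (abs_add_le _ _).trans ?_
      rw [abs_of_nonneg (Nat.cast_nonneg v)]
    have h6 : (K : ℝ) / l * |(v : ℝ) + (s - 2 * o)| ≤ 1 * (v + |(s : ℝ) - 2 * o|) := by
      apply mul_le_mul hKl1 h5 (abs_nonneg _) zero_le_one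
    have h7 : (o : ℝ) / l * |(x : ℝ) - 2 * K| ≤ 17 * κ * (M * Real.sqrt K) := by
      apply mul_le_mul hol g1.le (abs_nonneg _) (by positivity)
    linarith
  have hw2 : ∀ j : ℕ, j ≤ K → |(j : ℝ) * (t / l - x / K) - v| ≤ η * Real.sqrt K / 2 := by
    intro j hj
    have hjK : (j : ℝ) ≤ K := by exact_mod_cast hj
    have h1 : |(j : ℝ) * (t / l - x / K)| ≤ |(K : ℝ) * (t / l - x / K)| := by
      rw [abs_mul, abs_mul]
      apply mul_le_mul_of_nonneg_right _ (abs_nonneg _)
      rw [abs_of_nonneg (Nat.cast_nonneg j), abs_of_nonneg hKR.le]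
      exact hjK
    have h2 : |(j : ℝ) * (t / l - x / K) - v| ≤ |(j : ℝ) * (t / l - x / K)| + v := by
      refine (abs_sub _ _).trans ?_
      rw [abs_of_nonneg (Nat.cast_nonneg v : (0 : ℝ) ≤ (v : ℝ))]
    have h3 : 4 * Z * Real.sqrt (2 * κ) * Real.sqrt K ≤ η / 8 * Real.sqrt K := by
      apply mul_le_mul_of_nonneg_right _ (Real.sqrt_nonneg _)
      linarith
    have h4 : 17 * κ * (M * Real.sqrt K) ≤ η / 8 * Real.sqrt K := by
      have : 17 * κ * M ≤ η / 8 := by linarith
      have q1 := mul_le_mul_of_nonneg_right this (Real.sqrt_nonneg (K : ℝ))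
      linarith
    linarith
  have hfin := chord_cmp (w := η * Real.sqrt K) hm htpos hT hhe hh1 hK0 hKl hw1 hw2
  refine ⟨t, htpos, hT, ht2K, ?_, ?_⟩
  · have h1 := hfin.1
    have h2 : (((range t).filter (Above (2 ^ v * m) t)).card : ℝ) ≤
        2 * (((range K).filter (sg K m)).card + ((range K).filter (bd (η * Real.sqrt K) K m)).card)
        + 2 * h + 2 * ((l - K : ℕ) : ℝ) + ((t - 2 * l : ℕ) : ℝ) := by exact_mod_cast h1
    have h3 : ((l - K : ℕ) : ℝ) ≤ 17 * κ * K := by
      rw [hlK, Nat.add_sub_cancel_left]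
      exact ho17
    have h4 : ((t - 2 * l : ℕ) : ℝ) ≤ ε / 8 * K := by
      rcases le_total (2 * l) t with h5 | h5
      · rw [Nat.cast_sub h5]
        push_cast
        exact (le_abs_self _).trans habs
      · rw [Nat.sub_eq_zero_of_le h5]
        push_cast
        positivity
    have h5 : 2 * (h : ℝ) ≤ ε / 8 * K := by
      have h6 : 2 * (h : ℝ) ≤ 2 * (4 * (1 + Real.log K)) := by linarith
      have h7 : 4 * (1 + Real.log K) ≤ ε / 16 * Real.sqrt K := by
        refine le_trans ?_ s41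
        apply mul_le_mul_of_nonneg_right _ (by linarith)
        have h8 : 0 ≤ 4 * Z * Real.sqrt (2 * κ) := by positivity
        have : (0 : ℝ) ≤ v := Nat.cast_nonneg v
        linarith
      have h8 : ε / 16 * Real.sqrt K ≤ ε / 16 * K := by gcongr
      linarith
    have h6 : κ * K ≤ ε / 200 * K := by gcongr
    have h7 : 0 ≤ ε * K := by positivity
    linarith
  · have h1 := hfin.2
    have h2 : 2 * (((range K).filter (sg K m)).card : ℝ) ≤ ((range t).filter (Above (2 ^ v * m) t)).card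
        + 2 * ((range K).filter (bd (η * Real.sqrt K) K m)).card + 2 * h + ((2 * l - t : ℕ) : ℝ) := by
      exact_mod_cast h1
    have h4 : ((2 * l - t : ℕ) : ℝ) ≤ ε / 8 * K := by
      rcases le_total t (2 * l) with h5 | h5
      · rw [Nat.cast_sub h5]
        push_cast
        have := (neg_abs_le ((t : ℝ) - 2 * l))
        linarith
      · rw [Nat.sub_eq_zero_of_le h5]
        push_cast
        positivity
    have h5 : 2 * (h : ℝ) ≤ ε / 8 * K := by
      have h6 : 2 * (h : ℝ) ≤ 2 * (4 * (1 + Real.log K)) := by linarith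
      have h7 : 4 * (1 + Real.log K) ≤ ε / 16 * Real.sqrt K := by
        refine le_trans ?_ s41
        apply mul_le_mul_of_nonneg_right _ (by linarith)
        have h8 : 0 ≤ 4 * Z * Real.sqrt (2 * κ) := by positivity
        have : (0 : ℝ) ≤ v := Nat.cast_nonneg v
        linarith
      have h8 : ε / 16 * Real.sqrt K ≤ ε / 16 * K := by gcongr
      linarith
    have h6 : 0 ≤ ε * K := by positivity
    linarith

end Pool.Agent.H55.UL
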