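import Pool.Agent.H55.UL.Mis

/-!
# The law of the number of block endpoints below the chord, given the endpoint
-/

set_option autoImplicit false

namespace Pool.Agent.H55.UL

open MeasureTheory ProbabilityTheory Filter Topology Finset
open Pool.Agent.H499R2.ND.TJ (PP geo)
open Pool.Agent.Results.MP_f7abf1_nt.BlockLaw (T Syr wait blocks Admissible model prob oddCount HasDensity bound Phi)

theorem bs_range_rot {r b : ℕ} (hr : 0 < r) (hb : 0 < b) (ω : ℕ → ℕ) (c : ℕ) :
    bs (range (r * b)) (fun i => ω (rot (r * b) c i)) = bs (range (r * b)) ω := by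
  rw [← Pp_bs ω le_rfl, ← Pp_bs _ le_rfl, Pp_rot_K (Nat.mul_pos hr hb)]

/-- the number of the block endpoints below the chord is uniformly distributed, given the endpoint -/
theorem uniformF {r b : ℕ} (hr : 0 < r) (hb : 0 < b) {a : ℕ} (ha : a < r) (F : Set ℕ) :
    |PP.real {ω | cnt r b ω ≤ a ∧ bs (range (r * b)) ω ∈ F} -
      ((a : ℝ) + 1) / r * PP.real {ω | bs (range (r * b)) ω ∈ F}| ≤ r ^ 2 / Real.sqrt b := by
  have hrR : (0 : ℝ) < r := by exact_mod_cast hr
  set D : Set (ℕ → ℕ) := {ω | bs (range (r * b)) ω ∈ F} with hD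
  have hDm : MeasurableSet D := (meas_bs _) (Set.to_countable F).measurableSet
  set E : ℕ → Set (ℕ → ℕ) := fun s => {ω | rk r b ω s ≤ a} ∩ D with hE
  have hEm0 : ∀ s, MeasurableSet {ω | rk r b ω s ≤ a} := fun s =>
    (meas_rk r b s) (Set.to_countable (Set.Iic a)).measurableSet
  have hEm : ∀ s, MeasurableSet (E s) := fun s => (hEm0 s).inter hDm
  have h1 : ∀ s, PP.real {ω | cnt r b ω ≤ a ∧ bs (range (r * b)) ω ∈ F} = PP.real (E s) := by
    intro s
    have hm : MeasurableSet {ω | cnt r b ω ≤ a ∧ bs (range (r * b)) ω ∈ F} := by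
      have : {ω | cnt r b ω ≤ a ∧ bs (range (r * b)) ω ∈ F} = E 0 := by
        ext ω
        simp only [hE, hD, Set.mem_ofPred_eq, Set.mem_inter_iff, cnt_rk0]
      rw [this]
      exact hEm 0
    conv_lhs => rw [← map_reindex (rot_inj (r * b) (s * b))]
    rw [measureReal_def, measureReal_def, Measure.map_apply (measurable_pi_lambda _ fun j => measurable_pi_apply _) hm]
    congr 2
    ext ω
    simp only [hE, hD, Set.mem_preimage, Set.mem_ofPred_eq, Set.mem_inter_iff]
    rw [cnt_rot hr hb, bs_range_rot hr hb]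
  set Tc : Set (ℕ → ℕ) := {ω | ¬ Set.InjOn (pp r b ω) (Set.Iio r)} with hTc
  have hTm : MeasurableSet Tc := by
    have : Tc = ⋃ s ∈ range r, ⋃ s' ∈ (range r).filter (· ≠ s), {ω | pp r b ω s = pp r b ω s'} := by
      ext ω
      simp only [hTc, Set.mem_ofPred_eq, Set.InjOn, Set.mem_iUnion, exists_prop, Finset.mem_range,
        Finset.mem_filter, Set.mem_Iio]
      push Not
      constructor
      · rintro ⟨s, hs, s', hs', h, hne⟩
        exact ⟨s, hs, s', ⟨hs', hne.symm⟩, h⟩
      · rintro ⟨s, hs, s', ⟨hs', hne⟩, h⟩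
        exact ⟨s, hs, s', hs', h, hne.symm⟩
    rw [this]
    refine Finset.measurableSet_biUnion _ fun s _ => Finset.measurableSet_biUnion _ fun s' _ => ?_
    exact measurableSet_eq_fun (meas_pp r b s) (meas_pp r b s')
  have h2 : (r : ℝ) * PP.real {ω | cnt r b ω ≤ a ∧ bs (range (r * b)) ω ∈ F} =
      ∫ ω, ∑ s ∈ range r, (E s).indicator (fun _ => (1 : ℝ)) ω ∂PP := by
    rw [integral_finsetSum]
    · have : ∀ s ∈ range r, ∫ ω, (E s).indicator (fun _ => (1 : ℝ)) ω ∂PP =
          PP.real {ω | cnt r b ω ≤ a ∧ bs (range (r * b)) ω ∈ F} := by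
        intro s _
        rw [integral_indicator_const _ (hEm s), h1 s]
        simp
      rw [Finset.sum_congr rfl this, Finset.sum_const, Finset.card_range, nsmul_eq_mul]
    · intro s _
      exact (integrable_const (1 : ℝ)).indicator (hEm s)
  have hI : Integrable (fun ω => ∑ s ∈ range r, (E s).indicator (fun _ => (1 : ℝ)) ω) PP :=
    integrable_finsetSum _ fun s _ => (integrable_const (1 : ℝ)).indicator (hEm s)
  have hID : Integrable (fun ω => D.indicator (fun _ => ((a : ℝ) + 1)) ω) PP :=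
    (integrable_const _).indicator hDm
  have h3 : ∀ ω, |(∑ s ∈ range r, (E s).indicator (fun _ => (1 : ℝ)) ω) - D.indicator (fun _ => ((a : ℝ) + 1)) ω| ≤
      Tc.indicator (fun _ => (r : ℝ)) ω := by
    intro ω
    by_cases hωD : ω ∈ D
    · rw [Set.indicator_of_mem hωD]
      have e : ∑ s ∈ range r, (E s).indicator (fun _ => (1 : ℝ)) ω =
          (((range r).filter fun s => rk r b ω s ≤ a).card : ℝ) := by
        rw [Finset.card_filter]
        push_cast
        apply Finset.sum_congr rfl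
        intro s _
        by_cases h : rk r b ω s ≤ a
        · rw [Set.indicator_of_mem (show ω ∈ E s from ⟨h, hωD⟩), if_pos h]
        · rw [Set.indicator_of_notMem (fun h' : ω ∈ E s => h h'.1), if_neg h]
      rw [e]
      by_cases hω : Set.InjOn (pp r b ω) (Set.Iio r)
      · have h4 := rank_count r (pp r b ω) hω ha
        have h5 : ((range r).filter fun s => rk r b ω s ≤ a).card = a + 1 := h4
        rw [h5, Set.indicator_of_notMem (by intro h; exact h hω)]
        simp
      · rw [Set.indicator_of_mem (by exact hω)]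
        have h4 : (((range r).filter fun s => rk r b ω s ≤ a).card : ℝ) ≤ r := by
          have := Finset.card_filter_le (range r) (fun s => rk r b ω s ≤ a)
          rw [Finset.card_range] at this
          exact_mod_cast this
        have h5 : (0 : ℝ) ≤ (((range r).filter fun s => rk r b ω s ≤ a).card : ℝ) := Nat.cast_nonneg _
        have h6 : (a : ℝ) + 1 ≤ r := by exact_mod_cast ha
        have h7 : (0 : ℝ) ≤ a := Nat.cast_nonneg _
        rw [abs_le]
        constructor <;> linarith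
    · rw [Set.indicator_of_notMem hωD, sub_zero]
      have e : ∑ s ∈ range r, (E s).indicator (fun _ => (1 : ℝ)) ω = 0 := by
        apply Finset.sum_eq_zero
        intro s _
        rw [Set.indicator_of_notMem (fun h' : ω ∈ E s => hωD h'.2)]
      rw [e, abs_zero]
      exact Set.indicator_nonneg (fun _ _ => hrR.le) ω
  have h4 : |(r : ℝ) * PP.real {ω | cnt r b ω ≤ a ∧ bs (range (r * b)) ω ∈ F} - ((a : ℝ) + 1) * PP.real D| ≤
      r * PP.real Tc := by
    have e : (r : ℝ) * PP.real {ω | cnt r b ω ≤ a ∧ bs (range (r * b)) ω ∈ F} - ((a : ℝ) + 1) * PP.real D =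
        ∫ ω, ((∑ s ∈ range r, (E s).indicator (fun _ => (1 : ℝ)) ω) - D.indicator (fun _ => ((a : ℝ) + 1)) ω) ∂PP := by
      rw [integral_sub hI hID, h2, integral_indicator_const _ hDm]
      simp [mul_comm]
    rw [e]
    refine (abs_integral_le_integral_abs).trans ?_
    calc ∫ ω, |(∑ s ∈ range r, (E s).indicator (fun _ => (1 : ℝ)) ω) - D.indicator (fun _ => ((a : ℝ) + 1)) ω| ∂PP
        ≤ ∫ ω, Tc.indicator (fun _ => (r : ℝ)) ω ∂PP := by
          apply integral_mono_of_nonneg
          · exact Filter.Eventually.of_forall fun ω => abs_nonneg _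
          · exact (integrable_const _).indicator hTm
          · exact Filter.Eventually.of_forall h3
      _ = r * PP.real Tc := by
          rw [integral_indicator_const _ hTm]
          simp [mul_comm]
  have h5 := tie hr hb
  have h6 : PP.real {ω | cnt r b ω ≤ a ∧ bs (range (r * b)) ω ∈ F} - ((a : ℝ) + 1) / r * PP.real D =
      ((r : ℝ) * PP.real {ω | cnt r b ω ≤ a ∧ bs (range (r * b)) ω ∈ F} - ((a : ℝ) + 1) * PP.real D) / r := by
    field_simp
  rw [h6, abs_div, abs_of_pos hrR, div_le_iff₀ hrR]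
  calc |(r : ℝ) * PP.real {ω | cnt r b ω ≤ a ∧ bs (range (r * b)) ω ∈ F} - ((a : ℝ) + 1) * PP.real D|
      ≤ r * PP.real Tc := h4
    _ ≤ r * (r ^ 2 / Real.sqrt b) := by gcongr
    _ = r ^ 2 / Real.sqrt b * r := by ring

/-- the law of the number of block endpoints below the chord, for the numbers which reach `1` -/
theorem lawF {κ ε : ℝ} (hκ : 0 < κ) (hε : 0 < ε) : ∀ᶠ X : ℕ in atTop, ∀ r b : ℕ,
    0 < r → 0 < b → κ * Real.log X ≤ b → ((r * b : ℕ) : ℝ) ≤ (1 - κ) * Real.log X / Real.log (4 / 3) →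
    ∀ a < r, ∀ F : Set ℕ, |oddCount X (fun n => R n ∧ cn r b n ≤ a ∧ S n (r * b) ∈ F) -
      ((a : ℝ) + 1) / r * oddCount X (fun n => R n ∧ S n (r * b) ∈ F)| ≤ (r ^ 2 / Real.sqrt b + 2 * ε) * X := by
  obtain ⟨δ', h0, h1, h2, _, h3⟩ := Pool.Agent.Results.MP_f7abf1_nt.BlockLaw.result.1 R (fun _ _ => R_T)
  obtain ⟨X₀, hX⟩ := h3 κ ε hκ hε
  filter_upwards [eventually_ge_atTop X₀] with X hX₀ r b hr hb h4 h5 a ha F
  have hrR : (0 : ℝ) < r := by exact_mod_cast hr
  have hadm : Admissible κ X r (fun i => i * b) := by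
    refine ⟨by simp, ?_, by simpa using h5⟩
    intro i _
    push_cast
    linarith
  set E1 : Set (Fin r → ℕ) := {v | ((range r).filter fun i => r * ps v i < i * ps v r).card ≤ a ∧ ps v r ∈ F} with hE1
  set E2 : Set (Fin r → ℕ) := {v | ps v r ∈ F} with hE2
  have hA := hX X hX₀ r (fun i => i * b) hadm E1
  have hB := hX X hX₀ r (fun i => i * b) hadm E2
  have m2 : ∀ x : ℕ → ℕ, blocks (fun i => i * b) r x ∈ E2 ↔ (∑ j ∈ range (r * b), x j) ∈ F := by
    intro x
    rw [hE2, Set.mem_ofPred_eq, ps_blocks x le_rfl]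
  have m1 : ∀ x : ℕ → ℕ, blocks (fun i => i * b) r x ∈ E1 ↔
      ((range r).filter fun i => r * (∑ j ∈ range (i * b), x j) < i * (∑ j ∈ range (r * b), x j)).card ≤ a ∧
      (∑ j ∈ range (r * b), x j) ∈ F := by
    intro x
    rw [hE1, Set.mem_ofPred_eq, ps_blocks x le_rfl]
    have : ((range r).filter fun i => r * ps (blocks (fun i => i * b) r x) i < i * (∑ j ∈ range (r * b), x j)) =
        ((range r).filter fun i => r * (∑ j ∈ range (i * b), x j) < i * (∑ j ∈ range (r * b), x j)) := by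
      apply Finset.filter_congr
      intro i hi
      rw [Finset.mem_range] at hi
      rw [ps_blocks x hi.le]
    rw [this]
  have p1 : prob (fun i => i * b) r E1 = PP.real {ω | cnt r b ω ≤ a ∧ bs (range (r * b)) ω ∈ F} := by
    unfold prob
    rw [Pool.Agent.Results.MP_f7abf1_nt.BlockLaw.model_eq]
    congr 1
    ext ω
    exact m1 (fun j => ω j + 1)
  have p2 : prob (fun i => i * b) r E2 = PP.real {ω | bs (range (r * b)) ω ∈ F} := by
    unfold prob
    rw [Pool.Agent.Results.MP_f7abf1_nt.BlockLaw.model_eq]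
    congr 1
    ext ω
    exact m2 (fun j => ω j + 1)
  have e1 : (fun n => R n ∧ cn r b n ≤ a ∧ S n (r * b) ∈ F) =
      (fun n => R n ∧ blocks (fun i => i * b) r (wait n) ∈ E1) := by
    funext n
    rw [m1]
    rfl
  have e2 : (fun n => R n ∧ S n (r * b) ∈ F) = (fun n => R n ∧ blocks (fun i => i * b) r (wait n) ∈ E2) := by
    funext n
    rw [m2]
    rfl
  rw [e1, e2]
  rw [p1] at hA
  rw [p2] at hB
  have h6 := uniformF hr hb ha F
  have hX0 : (0 : ℝ) ≤ X := Nat.cast_nonneg X
  set A := oddCount X (fun n => R n ∧ blocks (fun i => i * b) r (wait n) ∈ E1)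
  set B := oddCount X (fun n => R n ∧ blocks (fun i => i * b) r (wait n) ∈ E2)
  set pA := PP.real {ω | cnt r b ω ≤ a ∧ bs (range (r * b)) ω ∈ F}
  set pB := PP.real {ω | bs (range (r * b)) ω ∈ F}
  set q : ℝ := ((a : ℝ) + 1) / r with hq
  have hq0 : 0 ≤ q := by rw [hq]; positivity
  have hq1 : q ≤ 1 := by
    rw [hq, div_le_one hrR]
    exact_mod_cast ha
  have h7 : |δ' / 2 * pA * X - q * (δ' / 2 * pB * X)| ≤ r ^ 2 / Real.sqrt b * X := by
    have e4 : δ' / 2 * pA * X - q * (δ' / 2 * pB * X) = δ' / 2 * X * (pA - q * pB) := by ring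
    rw [e4, abs_mul, abs_of_nonneg (by positivity)]
    have h8 : δ' / 2 * X ≤ X := by
      have := mul_le_mul_of_nonneg_right h1 hX0
      linarith
    calc δ' / 2 * X * |pA - q * pB| ≤ X * (r ^ 2 / Real.sqrt b) := by gcongr
      _ = r ^ 2 / Real.sqrt b * X := by ring
  have h8 : |q * (δ' / 2 * pB * X) - q * B| ≤ ε * X := by
    rw [← mul_sub, abs_mul, abs_of_nonneg hq0]
    calc q * |δ' / 2 * pB * X - B| ≤ 1 * |δ' / 2 * pB * X - B| := by
          apply mul_le_mul_of_nonneg_right hq1 (abs_nonneg _)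
      _ = |B - δ' / 2 * pB * X| := by rw [one_mul, abs_sub_comm]
      _ ≤ ε * X := hB
  have h9 := abs_sub_le A (δ' / 2 * pA * X) (q * B)
  have h10 := abs_sub_le (δ' / 2 * pA * X) (q * (δ' / 2 * pB * X)) (q * B)
  linarith

end Pool.Agent.H55.UL
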