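import Pool.Agent.H55.G.R_seed8.Results.MP_f7abf1_nt.BlockLaw

/-!
# The model of the block law: sums of geometric variables
-/

set_option autoImplicit false

namespace Pool.Agent.H55.UL

open MeasureTheory ProbabilityTheory Filter Topology Finset
open Pool.Agent.H499R2.ND.TJ (PP geo)

/-- sum of the waiting times with indices in `s` -/
def bs (s : Finset ℕ) (ω : ℕ → ℕ) : ℕ := ∑ j ∈ s, (ω j + 1)

/-- one waiting time -/
def wt (j : ℕ) (ω : ℕ → ℕ) : ℕ := ω j + 1

theorem meas_wt (j : ℕ) : Measurable (wt j) := (measurable_pi_apply j).add_const 1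

theorem bs_eq (s : Finset ℕ) : bs s = ∑ j ∈ s, wt j := by
  funext ω
  unfold bs wt
  rw [Finset.sum_apply]

theorem meas_bs (s : Finset ℕ) : Measurable (bs s) := by
  unfold bs
  exact Finset.measurable_sum _ fun j _ => meas_wt j

theorem indep_wt : iIndepFun wt PP := by
  unfold PP
  exact iIndepFun_infinitePi (X := fun (_ : ℕ) (n : ℕ) => n + 1) (fun _ => measurable_from_top)

theorem wt_law (j x : ℕ) : PP.real {ω | wt j ω = x + 1} = (1 / 2 : ℝ) ^ (x + 1) := by
  have h : {ω : ℕ → ℕ | wt j ω = x + 1} = (fun ω : ℕ → ℕ => ω j) ⁻¹' {x} := by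
    ext ω
    simp [wt]
  rw [h, ← Pool.Agent.H499R2.ND.TJ.geo_real x, ← Pool.Agent.H499R2.ND.TJ.map_eval j]
  rw [measureReal_def, measureReal_def, Measure.map_apply (measurable_pi_apply j) (measurableSet_singleton x)]

theorem wt_zero (j : ℕ) : PP.real {ω | wt j ω = 0} = 0 := by
  have h : {ω : ℕ → ℕ | wt j ω = 0} = ∅ := by
    ext ω
    simp [wt]
  rw [h]
  simp

theorem indep_bs {s : Finset ℕ} {a : ℕ} (ha : a ∉ s) : IndepFun (bs s) (wt a) PP := by
  rw [bs_eq]
  exact indep_wt.indepFun_finsetSum_of_notMem meas_wt ha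

theorem bs_insert {s : Finset ℕ} {a : ℕ} (ha : a ∉ s) (ω : ℕ → ℕ) : bs (insert a s) ω = bs s ω + wt a ω := by
  unfold bs wt
  rw [Finset.sum_insert ha]
  ring

theorem conv {s : Finset ℕ} {a : ℕ} (ha : a ∉ s) (x : ℕ) :
    PP.real {ω | bs (insert a s) ω = x} =
      ∑ y ∈ range x, PP.real {ω | bs s ω = y} * (1 / 2 : ℝ) ^ (x - y) := by
  have e : {ω | bs (insert a s) ω = x} = ⋃ y ∈ range x, ({ω | bs s ω = y} ∩ {ω | wt a ω = x - y}) := by
    ext ω
    simp only [Set.mem_ofPred_eq, Set.mem_iUnion, Set.mem_inter_iff, Finset.mem_range, exists_prop]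
    rw [bs_insert ha]
    constructor
    · intro h
      refine ⟨bs s ω, ?_, rfl, by omega⟩
      have : 1 ≤ wt a ω := Nat.succ_pos _
      omega
    · rintro ⟨y, h1, h2, h3⟩
      omega
  rw [e, measureReal_biUnion_finset]
  · apply Finset.sum_congr rfl
    intro y hy
    rw [Finset.mem_range] at hy
    have h := (indep_bs ha).measure_inter_preimage_eq_mul {y} {x - y} (measurableSet_singleton _)
      (measurableSet_singleton _)
    have h1 : PP.real ({ω | bs s ω = y} ∩ {ω | wt a ω = x - y}) =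
        PP.real {ω | bs s ω = y} * PP.real {ω | wt a ω = x - y} := by
      simp only [measureReal_def]
      rw [← ENNReal.toReal_mul]
      congr 1
    rw [h1]
    congr 1
    obtain ⟨z, hz⟩ : ∃ z, x - y = z + 1 := ⟨x - y - 1, by omega⟩
    rw [hz, wt_law]
  · intro i _ j _ hij
    refine Set.disjoint_left.2 ?_
    rintro ω ⟨h1, _⟩ ⟨h2, _⟩
    exact hij (h1.symm.trans h2)
  · intro y _
    exact ((measurableSet_singleton y).preimage (meas_bs s)).inter ((measurableSet_singleton _).preimage (meas_wt a))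

theorem sum_choose (k m : ℕ) : ∑ i ∈ range m, i.choose k = m.choose (k + 1) := by
  induction m with
  | zero => simp
  | succ m ih => rw [Finset.sum_range_succ, ih, Nat.choose_succ_succ]; ring

/-- the negative binomial law -/
theorem bs_law (s : Finset ℕ) : s.Nonempty → PP.real {ω | bs s ω = 0} = 0 ∧
    ∀ x, PP.real {ω | bs s ω = x + 1} = (x.choose (s.card - 1) : ℝ) * (1 / 2 : ℝ) ^ (x + 1) := by
  induction s using Finset.induction_on with
  | empty => intro h; exact absurd h (by simp)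
  | insert a s ha ih =>
    intro _
    rcases s.eq_empty_or_nonempty with hs | hs
    · subst hs
      have e : ∀ ω, bs (insert a ∅) ω = wt a ω := by
        intro ω
        simp [bs, wt]
      simp only [e]
      refine ⟨wt_zero a, fun x => ?_⟩
      rw [wt_law]
      simp
    · obtain ⟨h0, h1⟩ := ih hs
      refine ⟨by rw [conv ha]; simp, fun x => ?_⟩
      rw [conv ha, Finset.sum_range_succ', h0]
      simp only [zero_mul, add_zero]
      have hc : (insert a s).card - 1 = (s.card - 1) + 1 := by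
        rw [Finset.card_insert_of_notMem ha]
        have := hs.card_pos
        omega
      rw [hc, ← sum_choose]
      push_cast
      rw [Finset.sum_mul]
      apply Finset.sum_congr rfl
      intro i hi
      rw [Finset.mem_range] at hi
      rw [h1 i, mul_assoc, ← pow_add]
      congr 2
      omega

theorem central_sq (n : ℕ) : (n.centralBinom) ^ 2 * (2 * n + 1) ≤ 16 ^ n := by
  induction n with
  | zero => simp
  | succ n ih =>
    have h := Nat.succ_mul_centralBinom_succ n
    have h1 : (n + 1) ^ 2 * ((n + 1).centralBinom ^ 2 * (2 * (n + 1) + 1)) ≤ (n + 1) ^ 2 * 16 ^ (n + 1) := by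
      calc (n + 1) ^ 2 * ((n + 1).centralBinom ^ 2 * (2 * (n + 1) + 1))
          = ((n + 1) * (n + 1).centralBinom) ^ 2 * (2 * n + 3) := by ring
        _ = (2 * (2 * n + 1) * n.centralBinom) ^ 2 * (2 * n + 3) := by rw [h]
        _ = 4 * ((2 * n + 1) * (2 * n + 3)) * (n.centralBinom ^ 2 * (2 * n + 1)) := by ring
        _ ≤ 4 * (4 * (n + 1) ^ 2) * 16 ^ n := by
            apply Nat.mul_le_mul _ ih
            apply Nat.mul_le_mul_left
            nlinarith
        _ = (n + 1) ^ 2 * 16 ^ (n + 1) := by ring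
    exact Nat.le_of_mul_le_mul_left h1 (by positivity)

theorem choose_bound (m k : ℕ) : (m.choose k : ℝ) * (1 / 2 : ℝ) ^ (m + 1) ≤ 1 / Real.sqrt (m + 1) := by
  have h1 : (m.choose k : ℝ) ≤ m.choose (m / 2) := by exact_mod_cast Nat.choose_le_middle k m
  have h2 : (m.choose (m / 2) : ℝ) ^ 2 * (m + 1) ≤ (2 ^ m) ^ 2 := by
    rcases Nat.even_or_odd' m with ⟨n, h | h⟩
    · subst h
      have h3 := central_sq n
      have h4 : (2 * n).choose (2 * n / 2) = n.centralBinom := by
        rw [Nat.centralBinom_eq_two_mul_choose, Nat.mul_div_cancel_left n (by norm_num)]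
      rw [h4]
      have h5 : ((n.centralBinom : ℝ)) ^ 2 * (2 * n + 1) ≤ 16 ^ n := by exact_mod_cast h3
      calc (n.centralBinom : ℝ) ^ 2 * (((2 * n : ℕ) : ℝ) + 1) = (n.centralBinom : ℝ) ^ 2 * (2 * n + 1) := by
            push_cast; ring
        _ ≤ 16 ^ n := h5
        _ = (2 ^ (2 * n)) ^ 2 := by rw [← pow_mul, show 2 * n * 2 = 4 * n by ring, pow_mul]; norm_num
    · subst h
      have h3 := central_sq (n + 1)
      have h4 : 2 * (2 * n + 1).choose ((2 * n + 1) / 2) = (n + 1).centralBinom := by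
        have e1 : (2 * n + 1) / 2 = n := by omega
        rw [e1, Nat.centralBinom_eq_two_mul_choose, show 2 * (n + 1) = (2 * n + 1) + 1 by ring,
          Nat.choose_succ_succ, Nat.choose_symm_half]
        ring
      have h5 : (((n + 1).centralBinom : ℝ)) ^ 2 * (2 * (n + 1) + 1) ≤ 16 ^ (n + 1) := by exact_mod_cast h3
      rw [← h4] at h5
      push_cast at h5 ⊢
      have h6 : (0 : ℝ) ≤ ((2 * n + 1).choose ((2 * n + 1) / 2) : ℝ) ^ 2 := by positivity
      have h7 : (4 : ℝ) * (((2 * n + 1).choose ((2 * n + 1) / 2) : ℝ) ^ 2 * (2 * n + 1 + 1)) ≤ 16 ^ (n + 1) := by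
        nlinarith
      have h8 : (4 : ℝ) * (2 ^ (2 * n + 1)) ^ 2 = 16 ^ (n + 1) := by
        rw [← pow_mul, show (2 * n + 1) * 2 = 4 * n + 2 by ring, pow_add, pow_mul, pow_succ]
        norm_num
        ring
      linarith
  have h3 : (m.choose (m / 2) : ℝ) * Real.sqrt (m + 1) ≤ 2 ^ m := by
    have h4 : 0 ≤ (m.choose (m / 2) : ℝ) * Real.sqrt (m + 1) := by positivity
    have h5 : ((m.choose (m / 2) : ℝ) * Real.sqrt (m + 1)) ^ 2 ≤ (2 ^ m) ^ 2 := by
      rw [mul_pow, Real.sq_sqrt (by positivity)]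
      exact h2
    exact (pow_le_pow_iff_left₀ h4 (by positivity) (by norm_num)).1 h5
  have hs : 0 < Real.sqrt ((m : ℝ) + 1) := Real.sqrt_pos.2 (by positivity)
  rw [le_div_iff₀ hs]
  calc (m.choose k : ℝ) * (1 / 2) ^ (m + 1) * Real.sqrt (m + 1)
      ≤ (m.choose (m / 2) : ℝ) * (1 / 2) ^ (m + 1) * Real.sqrt (m + 1) := by gcongr
    _ = ((m.choose (m / 2) : ℝ) * Real.sqrt (m + 1)) * (1 / 2) ^ (m + 1) := by ring
    _ ≤ 2 ^ m * (1 / 2) ^ (m + 1) := by gcongr
    _ = 1 / 2 := by
        rw [pow_succ, ← mul_assoc, ← mul_pow]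
        norm_num
    _ ≤ 1 := by norm_num

/-- no value has a large probability -/
theorem bs_max {s : Finset ℕ} (hs : s.Nonempty) (x : ℕ) :
    PP.real {ω | bs s ω = x} ≤ 1 / Real.sqrt s.card := by
  obtain ⟨h0, h1⟩ := bs_law s hs
  rcases x with _ | x
  · rw [h0]; positivity
  · rw [h1]
    have hc := hs.card_pos
    rcases lt_or_ge x (s.card - 1) with h | h
    · rw [Nat.choose_eq_zero_of_lt h]
      simp
    · refine (choose_bound x _).trans ?_
      have hcR : (0 : ℝ) < s.card := by exact_mod_cast hc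
      have : (s.card : ℝ) ≤ (x : ℝ) + 1 := by
        have : s.card ≤ x + 1 := by omega
        exact_mod_cast this
      gcongr

end Pool.Agent.H55.UL
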