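import Pool.Agent.H55.UL.Model

/-!
# The model of the block law: Chebyshev, concentration, permutations
-/

set_option autoImplicit false

namespace Pool.Agent.H55.UL

open MeasureTheory ProbabilityTheory Filter Topology Finset
open Pool.Agent.H499R2.ND.TJ (PP geo XX meas_XX ident mean0 mean1 indep nl map_eval)

theorem memLp0 : MemLp (XX 0) 2 PP := by
  rw [memLp_two_iff_integrable_sq (meas_XX 0).aestronglyMeasurable]
  by_contra h
  have h1 := integral_undef h
  have h2 := mean1
  simp only [Pi.pow_apply] at h2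
  rw [h1] at h2
  norm_num at h2

theorem memLp_XX (i : ℕ) : MemLp (XX i) 2 PP := (ident i).memLp_iff.2 memLp0

theorem var_XX (i : ℕ) : Var[XX i; PP] = 1 := by
  rw [(ident i).variance_eq, variance_eq_sub memLp0, mean0, mean1]
  norm_num

theorem mean_XX (i : ℕ) : ∫ ω, XX i ω ∂PP = 0 := by
  rw [(ident i).integral_eq, mean0]

theorem bs_XX (s : Finset ℕ) (ω : ℕ → ℕ) :
    (bs s ω : ℝ) - 2 * s.card = Real.sqrt 2 * (∑ i ∈ s, XX i) ω := by
  have h2 : (0 : ℝ) < Real.sqrt 2 := by positivity
  unfold bs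
  rw [Finset.sum_apply, Finset.mul_sum]
  push_cast
  have : (2 : ℝ) * s.card = ∑ i ∈ s, (2 : ℝ) := by rw [Finset.sum_const, nsmul_eq_mul]; ring
  rw [this, ← Finset.sum_sub_distrib]
  apply Finset.sum_congr rfl
  intro i _
  unfold XX nl
  field_simp
  ring

/-- Chebyshev's inequality -/
theorem cheb (s : Finset ℕ) {x : ℝ} (hx : 0 < x) :
    PP.real {ω | x ≤ |(bs s ω : ℝ) - 2 * s.card|} ≤ 2 * s.card / x ^ 2 := by
  have h2 : (0 : ℝ) < Real.sqrt 2 := by positivity
  have hL : MemLp (∑ i ∈ s, XX i) 2 PP := memLp_finsetSum' s fun i _ => memLp_XX i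
  have hv : Var[∑ i ∈ s, XX i; PP] = s.card := by
    rw [IndepFun.variance_sum (fun i _ => memLp_XX i)]
    · simp [var_XX]
    · intro i _ j _ hij
      exact indep.indepFun hij
  have hm : ∫ ω, (∑ i ∈ s, XX i) ω ∂PP = 0 := by
    simp only [Finset.sum_apply]
    rw [integral_finsetSum s fun i _ => (memLp_XX i).integrable (by norm_num)]
    simp [mean_XX]
  have h := meas_ge_le_variance_div_sq hL (c := x / Real.sqrt 2) (by positivity)
  rw [hv, hm] at h
  have e : {ω | x ≤ |(bs s ω : ℝ) - 2 * s.card|} =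
      {ω | x / Real.sqrt 2 ≤ |(∑ i ∈ s, XX i) ω - 0|} := by
    ext ω
    simp only [Set.mem_ofPred_eq]
    rw [bs_XX, abs_mul, abs_of_pos h2, sub_zero, div_le_iff₀ h2, mul_comm]
  rw [e, measureReal_def]
  have h3 : (s.card : ℝ) / (x / Real.sqrt 2) ^ 2 = 2 * s.card / x ^ 2 := by
    rw [div_pow, Real.sq_sqrt (by norm_num)]
    field_simp
  rw [h3] at h
  exact ENNReal.toReal_le_of_le_ofReal (by positivity) h

/-- block sums over disjoint sets are independent -/
theorem indep_blocks {s t : Finset ℕ} (h : Disjoint s t) : IndepFun (bs s) (bs t) PP := by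
  have h1 := indep_wt.indepFun_finset s t h meas_wt
  have e : ∀ u : Finset ℕ, bs u = (fun v : u → ℕ => ∑ i, v i) ∘ (fun ω (i : u) => wt i ω) := by
    intro u
    funext ω
    simp only [Function.comp_apply]
    unfold bs wt
    rw [← Finset.sum_coe_sort]
  rw [e s, e t]
  refine h1.comp ?_ ?_
  · exact Finset.measurable_sum _ fun i _ => measurable_pi_apply i
  · exact Finset.measurable_sum _ fun i _ => measurable_pi_apply i

/-- sets of integers of small diameter have small probabilities -/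
theorem bs_short {s : Finset ℕ} (hs : s.Nonempty) (E : Set ℕ) {l : ℝ} (hl : 0 ≤ l)
    (h : ∀ x ∈ E, ∀ y ∈ E, (y : ℝ) ≤ x + l) :
    PP.real {ω | bs s ω ∈ E} ≤ (l + 1) / Real.sqrt s.card := by
  rcases E.eq_empty_or_nonempty with hE | hE
  · subst hE
    simp only [Set.mem_empty_iff_false]
    have : {ω : ℕ → ℕ | False} = ∅ := by ext; simp
    rw [this]
    simp only [measureReal_empty]
    positivity
  · obtain ⟨x0, hx0⟩ := hE
    let m := sInf E
    have hm : m ∈ E := Nat.sInf_mem ⟨x0, hx0⟩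
    have hsub : {ω | bs s ω ∈ E} ⊆ ⋃ x ∈ Finset.Icc m (m + ⌊l⌋₊), {ω | bs s ω = x} := by
      intro ω hω
      simp only [Set.mem_ofPred_eq] at hω
      simp only [Set.mem_iUnion, Set.mem_ofPred_eq, exists_prop, Finset.mem_Icc]
      refine ⟨bs s ω, ⟨Nat.sInf_le hω, ?_⟩, rfl⟩
      have h1 := h m hm _ hω
      have h2 : ((bs s ω - m : ℕ) : ℝ) ≤ l := by
        rcases le_total (bs s ω) m with h3 | h3
        · rw [Nat.sub_eq_zero_of_le h3]; simpa using hl
        · rw [Nat.cast_sub h3]; linarith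
      have h3 := Nat.le_floor h2
      omega
    refine (measureReal_mono hsub (measure_ne_top _ _)).trans ?_
    refine (measureReal_biUnion_finset_le _ _).trans ?_
    refine (Finset.sum_le_card_nsmul _ _ _ fun x _ => bs_max hs x).trans ?_
    rw [Nat.card_Icc, nsmul_eq_mul]
    have h4 : ((m + ⌊l⌋₊ + 1 - m : ℕ) : ℝ) ≤ l + 1 := by
      have : m + ⌊l⌋₊ + 1 - m = ⌊l⌋₊ + 1 := by omega
      rw [this]
      push_cast
      linarith [Nat.floor_le hl]
    calc ((m + ⌊l⌋₊ + 1 - m : ℕ) : ℝ) * (1 / Real.sqrt s.card) ≤ (l + 1) * (1 / Real.sqrt s.card) := by gcongr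
      _ = (l + 1) / Real.sqrt s.card := by ring

/-- fibrewise bound for a pair of independent block sums -/
theorem pair_bound {s t : Finset ℕ} (h : Disjoint s t) (E : Set (ℕ × ℕ)) {C : ℝ} (hC : 0 ≤ C)
    (hE : ∀ y, PP.real {ω | (bs s ω, y) ∈ E} ≤ C) :
    PP.real {ω | (bs s ω, bs t ω) ∈ E} ≤ C := by
  have hE' : MeasurableSet E := E.to_countable.measurableSet
  have h1 : PP.map (fun ω => (bs s ω, bs t ω)) = (PP.map (bs s)).prod (PP.map (bs t)) :=
    (indepFun_iff_map_prod_eq_prod_map_map (meas_bs s).aemeasurable (meas_bs t).aemeasurable).1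
      (indep_blocks h)
  have hp1 : IsProbabilityMeasure (PP.map (bs s)) := Measure.isProbabilityMeasure_map (meas_bs s).aemeasurable
  have hp2 : IsProbabilityMeasure (PP.map (bs t)) := Measure.isProbabilityMeasure_map (meas_bs t).aemeasurable
  have h2 : PP {ω | (bs s ω, bs t ω) ∈ E} ≤ ENNReal.ofReal C := by
    have e : PP {ω | (bs s ω, bs t ω) ∈ E} = PP.map (fun ω => (bs s ω, bs t ω)) E := by
      rw [Measure.map_apply ((meas_bs s).prodMk (meas_bs t)) hE']
      rfl
    rw [e, h1, Measure.prod_apply_symm hE']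
    have h3 : ∀ y, PP.map (bs s) ((fun x => (x, y)) ⁻¹' E) ≤ ENNReal.ofReal C := by
      intro y
      rw [Measure.map_apply (meas_bs s) ((Set.to_countable _).measurableSet)]
      have := hE y
      rw [measureReal_def] at this
      exact (ENNReal.le_ofReal_iff_toReal_le (measure_ne_top _ _) hC).2 this
    calc ∫⁻ y, PP.map (bs s) ((fun x => (x, y)) ⁻¹' E) ∂(PP.map (bs t))
        ≤ ∫⁻ _, ENNReal.ofReal C ∂(PP.map (bs t)) := lintegral_mono h3
      _ = ENNReal.ofReal C := by simp
  rw [measureReal_def]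
  exact ENNReal.toReal_le_of_le_ofReal hC h2

/-- `|a B - c A|` is not small -/
theorem anti {s t : Finset ℕ} (h : Disjoint s t) (hs : s.Nonempty) (ht : t.Nonempty) {w : ℝ} (hw : 0 ≤ w) :
    PP.real {ω | |(s.card : ℝ) * bs t ω - t.card * bs s ω| ≤ w} ≤ (2 * w / t.card + 1) / Real.sqrt s.card := by
  have ht0 : (0 : ℝ) < t.card := by exact_mod_cast ht.card_pos
  have := pair_bound h {p : ℕ × ℕ | |(s.card : ℝ) * p.2 - t.card * p.1| ≤ w}
    (C := (2 * w / t.card + 1) / Real.sqrt s.card) (by positivity) ?_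
  · exact this
  · intro y
    refine bs_short hs {x | |(s.card : ℝ) * y - t.card * x| ≤ w} (by positivity) ?_
    intro x hx x' hx'
    simp only [Set.mem_ofPred_eq] at hx hx'
    rw [abs_le] at hx hx'
    have h1 : (t.card : ℝ) * x' ≤ t.card * x + 2 * w := by linarith
    calc (x' : ℝ) = (t.card * x') / t.card := by field_simp
      _ ≤ (t.card * x + 2 * w) / t.card := by gcongr
      _ = x + 2 * w / t.card := by field_simp

/-- the model is invariant under injective changes of the indices -/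
theorem map_reindex {g : ℕ → ℕ} (hg : Function.Injective g) :
    PP.map (fun ω : ℕ → ℕ => fun i => ω (g i)) = PP := by
  have h0 : iIndepFun (fun (i : ℕ) (ω : ℕ → ℕ) => ω i) PP := by
    unfold PP
    exact iIndepFun_infinitePi (X := fun (_ : ℕ) (n : ℕ) => n) (fun _ => measurable_id)
  have h1 : iIndepFun (fun (i : ℕ) (ω : ℕ → ℕ) => ω (g i)) PP := h0.precomp hg
  have h2 := (iIndepFun_iff_map_fun_eq_infinitePi_map (fun i => measurable_pi_apply (g i))).1 h1
  rw [h2]
  simp only [map_eval]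
  rfl

end Pool.Agent.H55.UL
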