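import Pool.Agent.H55.UL.Model2

/-!
# The model of the block law: the number of block endpoints below the chord is uniformly distributed
-/

set_option autoImplicit false

namespace Pool.Agent.H55.UL

open MeasureTheory ProbabilityTheory Filter Topology Finset
open Pool.Agent.H499R2.ND.TJ (PP geo)

/-- partial sums of the periodic continuation -/
def Pp (K : ℕ) (ω : ℕ → ℕ) (j : ℕ) : ℕ := ∑ i ∈ range j, (ω (i % K) + 1)

/-- the deviation from the chord, times `r` -/
def pp (r b : ℕ) (ω : ℕ → ℕ) (i : ℕ) : ℤ := r * (Pp (r * b) ω (i * b) : ℤ) - i * (Pp (r * b) ω (r * b) : ℤ)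

/-- rotation of `[0, K)` by `c` -/
def rot (K c j : ℕ) : ℕ := if j < K then (j + c) % K else j

theorem rot_inj (K c : ℕ) : Function.Injective (rot K c) := by
  intro i j h
  unfold rot at h
  rcases Nat.eq_zero_or_pos K with hK | hK
  · subst hK; simpa using h
  split_ifs at h with h1 h2 h3
  · have h4 : (i + c) ≡ (j + c) [MOD K] := h
    have h5 := Nat.ModEq.add_right_cancel' c h4
    exact Nat.ModEq.eq_of_lt_of_lt h5 h1 h2
  · have := Nat.mod_lt (i + c) hK
    omega
  · have := Nat.mod_lt (j + c) hK
    omega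
  · exact h

theorem Pp_add {K : ℕ} (hK : 0 < K) (ω : ℕ → ℕ) (c j : ℕ) :
    Pp K ω (c + j) = Pp K ω c + Pp K (fun i => ω (rot K c i)) j := by
  unfold Pp
  rw [Finset.sum_range_add]
  congr 1
  apply Finset.sum_congr rfl
  intro x _
  have h : rot K c (x % K) = (c + x) % K := by
    unfold rot
    rw [if_pos (Nat.mod_lt x hK), Nat.mod_add_mod, add_comm]
  show ω ((c + x) % K) + 1 = ω (rot K c (x % K)) + 1
  rw [h]

theorem Pp_period {K : ℕ} (ω : ℕ → ℕ) (j : ℕ) : Pp K ω (K + j) = Pp K ω K + Pp K ω j := by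
  unfold Pp
  rw [Finset.sum_range_add]
  congr 1
  apply Finset.sum_congr rfl
  intro x _
  rw [Nat.add_mod_left]

theorem Pp_rot_K {K : ℕ} (hK : 0 < K) (ω : ℕ → ℕ) (c : ℕ) : Pp K (fun i => ω (rot K c i)) K = Pp K ω K := by
  have h1 := Pp_add hK ω c K
  have h2 := Pp_period (K := K) ω c
  rw [add_comm] at h2
  omega

theorem Pp_bs {K : ℕ} (ω : ℕ → ℕ) {j : ℕ} (h : j ≤ K) : Pp K ω j = bs (range j) ω := by
  unfold Pp bs
  apply Finset.sum_congr rfl
  intro x hx
  rw [Finset.mem_range] at hx
  rw [Nat.mod_eq_of_lt (by omega)]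

theorem pp_rot {r b : ℕ} (hr : 0 < r) (hb : 0 < b) (ω : ℕ → ℕ) (s i : ℕ) :
    pp r b (fun i => ω (rot (r * b) (s * b) i)) i = pp r b ω (s + i) - pp r b ω s := by
  have hK : 0 < r * b := Nat.mul_pos hr hb
  unfold pp
  rw [Pp_rot_K hK, add_mul, Pp_add hK]
  push_cast
  ring

theorem pp_period {r b : ℕ} (ω : ℕ → ℕ) (i : ℕ) : pp r b ω (i + r) = pp r b ω i := by
  unfold pp
  rw [add_mul, add_comm (i * b) (r * b), Pp_period]
  push_cast
  ring

/-- the number of block endpoints below the chord -/
def cnt (r b : ℕ) (ω : ℕ → ℕ) : ℕ :=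
  ((range r).filter fun i => r * bs (range (i * b)) ω < i * bs (range (r * b)) ω).card

theorem cnt_pp (r b : ℕ) (ω : ℕ → ℕ) : cnt r b ω = ((range r).filter fun i => pp r b ω i < 0).card := by
  unfold cnt
  congr 1
  apply Finset.filter_congr
  intro i hi
  rw [Finset.mem_range] at hi
  unfold pp
  rw [Pp_bs ω (Nat.mul_le_mul_right b hi.le), Pp_bs ω le_rfl, sub_neg]
  constructor
  · intro h; exact_mod_cast h
  · intro h; exact_mod_cast h

/-- the rank of the `s`-th block endpoint -/
def rk (r b : ℕ) (ω : ℕ → ℕ) (s : ℕ) : ℕ := ((range r).filter fun i => pp r b ω i < pp r b ω s).card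

theorem cnt_rot {r b : ℕ} (hr : 0 < r) (hb : 0 < b) (ω : ℕ → ℕ) (s : ℕ) :
    cnt r b (fun i => ω (rot (r * b) (s * b) i)) = rk r b ω s := by
  rw [cnt_pp]
  have hper : Function.Periodic (fun i => pp r b ω i < pp r b ω s) r := by
    intro i
    simp only [pp_period]
  have h1 := Nat.filter_Ico_card_eq_of_periodic s r (fun i => pp r b ω i < pp r b ω s) hper
  have h2 := Nat.filter_Ico_card_eq_of_periodic 0 r (fun i => pp r b ω i < pp r b ω s) hper
  rw [zero_add, ← Finset.range_eq_Ico] at h2
  unfold rk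
  rw [h2, ← h1]
  refine Finset.card_bij (fun i _ => s + i) ?_ ?_ ?_
  · intro i hi
    rw [Finset.mem_filter, Finset.mem_range, pp_rot hr hb] at hi
    rw [Finset.mem_filter, Finset.mem_Ico]
    exact ⟨⟨by omega, by omega⟩, by linarith [hi.2]⟩
  · intro i _ j _ h
    exact Nat.add_left_cancel h
  · intro j hj
    rw [Finset.mem_filter, Finset.mem_Ico] at hj
    refine ⟨j - s, ?_, by omega⟩
    rw [Finset.mem_filter, Finset.mem_range, pp_rot hr hb]
    have : s + (j - s) = j := by omega
    rw [this]
    exact ⟨by omega, by linarith [hj.2]⟩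

/-- ranks of different values -/
theorem rank_count (r : ℕ) (f : ℕ → ℤ) (hf : Set.InjOn f (Set.Iio r)) {a : ℕ} (ha : a < r) :
    ((range r).filter fun s => ((range r).filter fun i => f i < f s).card ≤ a).card = a + 1 := by
  set R : ℕ → ℕ := fun s => ((range r).filter fun i => f i < f s).card with hR
  have hlt : ∀ s ∈ range r, ∀ s' ∈ range r, f s < f s' → R s < R s' := by
    intro s hs s' _ h
    apply Finset.card_lt_card
    rw [Finset.ssubset_iff_of_subset]
    · refine ⟨s, ?_, ?_⟩
      · rw [Finset.mem_filter]; exact ⟨hs, h⟩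
      · rw [Finset.mem_filter]; exact fun h' => lt_irrefl _ h'.2
    · intro i hi
      rw [Finset.mem_filter] at hi ⊢
      exact ⟨hi.1, hi.2.trans h⟩
  have hinj : Set.InjOn R (range r) := by
    intro s hs s' hs' h
    rw [Finset.mem_coe] at hs hs'
    by_contra hne
    have hne' : f s ≠ f s' := fun h' => hne (hf (by simpa using hs) (by simpa using hs') h')
    rcases lt_or_gt_of_ne hne' with h' | h'
    · exact absurd h (hlt s hs s' hs' h').ne
    · exact absurd h (hlt s' hs' s hs h').ne'
  have himg : (range r).image R = range r := by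
    apply Finset.eq_of_subset_of_card_le
    · intro m hm
      rw [Finset.mem_image] at hm
      obtain ⟨s, hs, rfl⟩ := hm
      rw [Finset.mem_range]
      have : R s < (range r).card := by
        apply Finset.card_lt_card
        rw [Finset.ssubset_iff_of_subset (Finset.filter_subset _ _)]
        exact ⟨s, hs, by rw [Finset.mem_filter]; exact fun h' => lt_irrefl _ h'.2⟩
      simpa using this
    · rw [Finset.card_image_of_injOn hinj]
  have h1 : ((range r).filter fun s => R s ≤ a).image R = range (a + 1) := by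
    ext m
    rw [Finset.mem_image, Finset.mem_range]
    constructor
    · rintro ⟨s, hs, rfl⟩
      rw [Finset.mem_filter] at hs
      omega
    · intro hm
      have : m ∈ (range r).image R := by rw [himg, Finset.mem_range]; omega
      rw [Finset.mem_image] at this
      obtain ⟨s, hs, rfl⟩ := this
      exact ⟨s, by rw [Finset.mem_filter]; exact ⟨hs, by omega⟩, rfl⟩
  have h2 := Finset.card_image_of_injOn (hinj.mono (s₁ := ((range r).filter fun s => R s ≤ a : Finset ℕ))
    (by intro s hs; rw [Finset.mem_coe, Finset.mem_filter] at hs; exact hs.1))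
  rw [← h2, h1, Finset.card_range]

theorem meas_Pp (K j : ℕ) : Measurable fun ω : ℕ → ℕ => Pp K ω j := by
  unfold Pp
  exact Finset.measurable_sum _ fun i _ => (measurable_pi_apply (i % K)).add_const 1

theorem meas_pp (r b i : ℕ) : Measurable fun ω : ℕ → ℕ => pp r b ω i := by
  unfold pp
  have h : ∀ j, Measurable fun ω : ℕ → ℕ => (Pp (r * b) ω j : ℤ) := fun j =>
    (measurable_from_top (f := fun n : ℕ => (n : ℤ))).comp (meas_Pp (r * b) j)
  exact ((h _).const_mul _).sub ((h _).const_mul _)

theorem meas_rk (r b s : ℕ) : Measurable fun ω : ℕ → ℕ => rk r b ω s := by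
  have h : (fun ω : ℕ → ℕ => rk r b ω s) =
      fun ω => ∑ i ∈ range r, if pp r b ω i < pp r b ω s then 1 else 0 := by
    funext ω
    unfold rk
    rw [Finset.card_filter]
  rw [h]
  refine Finset.measurable_sum _ fun i _ => ?_
  exact Measurable.ite (measurableSet_lt (meas_pp r b i) (meas_pp r b s)) measurable_const measurable_const

theorem cnt_rk0 {r b : ℕ} (ω : ℕ → ℕ) : cnt r b ω = rk r b ω 0 := by
  rw [cnt_pp]
  unfold rk
  have : pp r b ω 0 = 0 := by
    unfold pp Pp
    simp
  rw [this]

/-- the injectivity fails with a small probability only -/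
theorem tie {r b : ℕ} (hr : 0 < r) (hb : 0 < b) :
    PP.real {ω | ¬ Set.InjOn (pp r b ω) (Set.Iio r)} ≤ r ^ 2 / Real.sqrt b := by
  have hbR : (0 : ℝ) < b := by exact_mod_cast hb
  have hone : ∀ i, 0 < i → i < r → PP.real {ω | pp r b ω i = 0} ≤ 1 / Real.sqrt b := by
    intro i hi hir
    have hd : Disjoint (range (i * b)) (Ico (i * b) (r * b)) := by
      rw [Finset.disjoint_left]
      intro x hx hx'
      rw [Finset.mem_range] at hx
      rw [Finset.mem_Ico] at hx'
      omega
    have hc1 : (range (i * b)).card = i * b := Finset.card_range _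
    have hc2 : (Ico (i * b) (r * b)).card = (r - i) * b := by rw [Nat.card_Ico, Nat.sub_mul]
    have hn1 : (range (i * b)).Nonempty := by
      rw [← Finset.card_pos, hc1]; positivity
    have hn2 : (Ico (i * b) (r * b)).Nonempty := by
      rw [← Finset.card_pos, hc2]
      have : 0 < r - i := by omega
      positivity
    have h := anti hd hn1 hn2 (w := 0) le_rfl
    rw [hc1, hc2] at h
    have hsub : {ω | pp r b ω i = 0} ⊆
        {ω | |((i * b : ℕ) : ℝ) * bs (Ico (i * b) (r * b)) ω - (((r - i) * b : ℕ) : ℝ) * bs (range (i * b)) ω| ≤ 0} := by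
      intro ω hω
      simp only [Set.mem_ofPred_eq] at hω ⊢
      have h1 : bs (range (r * b)) ω = bs (range (i * b)) ω + bs (Ico (i * b) (r * b)) ω := by
        unfold bs
        rw [Finset.sum_range_add_sum_Ico _ (Nat.mul_le_mul_right b hir.le)]
      unfold pp at hω
      rw [Pp_bs ω (Nat.mul_le_mul_right b hir.le), Pp_bs ω le_rfl, h1] at hω
      have h2 : (r : ℝ) * bs (range (i * b)) ω - i * (bs (range (i * b)) ω + bs (Ico (i * b) (r * b)) ω) = 0 := by
        exact_mod_cast hω
      rw [Nat.cast_mul, Nat.cast_mul, Nat.cast_sub hir.le]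
      have h3 : (i : ℝ) * b * bs (Ico (i * b) (r * b)) ω - ((r : ℝ) - i) * b * bs (range (i * b)) ω
          = -(b * ((r : ℝ) * bs (range (i * b)) ω - i * (bs (range (i * b)) ω + bs (Ico (i * b) (r * b)) ω))) := by
        ring
      rw [h3, h2]
      simp
    refine (measureReal_mono hsub (measure_ne_top _ _)).trans (h.trans ?_)
    simp only [mul_zero, zero_div, zero_add]
    have : (b : ℝ) ≤ ((i * b : ℕ) : ℝ) := by
      have : b ≤ i * b := Nat.le_mul_of_pos_left b hi
      exact_mod_cast this
    gcongr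
  have htwo : ∀ s i, 0 < i → i < r → PP.real {ω | pp r b ω s = pp r b ω (s + i)} ≤ 1 / Real.sqrt b := by
    intro s i hi hir
    have h1 := hone i hi hir
    have h2 : PP.real {ω | pp r b ω i = 0} = PP.real {ω | pp r b ω s = pp r b ω (s + i)} := by
      have hm : MeasurableSet {ω | pp r b ω i = 0} := (meas_pp r b i) (measurableSet_singleton 0)
      conv_lhs => rw [← map_reindex (rot_inj (r * b) (s * b))]
      rw [measureReal_def, measureReal_def, Measure.map_apply (measurable_pi_lambda _ fun j => measurable_pi_apply _) hm]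
      congr 2
      ext ω
      simp only [Set.mem_preimage, Set.mem_ofPred_eq]
      rw [pp_rot hr hb]
      constructor
      · intro h; linarith
      · intro h; linarith
    rw [← h2]
    exact h1
  have hsub : {ω | ¬ Set.InjOn (pp r b ω) (Set.Iio r)} ⊆
      ⋃ s ∈ range r, ⋃ i ∈ (range r).filter (0 < ·), {ω | pp r b ω s = pp r b ω (s + i)} := by
    intro ω hω
    simp only [Set.mem_ofPred_eq, Set.InjOn] at hω
    push Not at hω
    obtain ⟨s, hs, s', hs', h, hne⟩ := hω
    simp only [Set.mem_Iio] at hs hs'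
    simp only [Set.mem_iUnion, Set.mem_ofPred_eq, exists_prop, Finset.mem_range, Finset.mem_filter]
    rcases lt_or_gt_of_ne hne with h1 | h1
    · exact ⟨s, hs, s' - s, ⟨by omega, by omega⟩, by rw [show s + (s' - s) = s' by omega]; exact h⟩
    · exact ⟨s', hs', s - s', ⟨by omega, by omega⟩, by rw [show s' + (s - s') = s by omega]; exact h.symm⟩
  refine (measureReal_mono hsub (measure_ne_top _ _)).trans ?_
  refine (measureReal_biUnion_finset_le _ _).trans ?_
  have h3 : ∀ s ∈ range r, PP.real (⋃ i ∈ (range r).filter (0 < ·), {ω | pp r b ω s = pp r b ω (s + i)}) ≤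
      r * (1 / Real.sqrt b) := by
    intro s _
    refine (measureReal_biUnion_finset_le _ _).trans ?_
    refine (Finset.sum_le_card_nsmul _ _ (1 / Real.sqrt b) fun i hi => ?_).trans ?_
    · rw [Finset.mem_filter, Finset.mem_range] at hi
      exact htwo s i hi.2 hi.1
    · rw [nsmul_eq_mul]
      have : (((range r).filter (0 < ·)).card : ℝ) ≤ r := by
        have := Finset.card_filter_le (range r) (0 < ·)
        rw [Finset.card_range] at this
        exact_mod_cast this
      gcongr
  refine (Finset.sum_le_card_nsmul _ _ _ h3).trans ?_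
  rw [nsmul_eq_mul, Finset.card_range]
  apply le_of_eq
  ring

/-- the number of the block endpoints below the chord is uniformly distributed -/
theorem uniform {r b : ℕ} (hr : 0 < r) (hb : 0 < b) {a : ℕ} (ha : a < r) :
    |PP.real {ω | cnt r b ω ≤ a} - ((a : ℝ) + 1) / r| ≤ r ^ 2 / Real.sqrt b := by
  have hrR : (0 : ℝ) < r := by exact_mod_cast hr
  set E : ℕ → Set (ℕ → ℕ) := fun s => {ω | rk r b ω s ≤ a} with hE
  have hEm : ∀ s, MeasurableSet (E s) := fun s => (meas_rk r b s) (Set.to_countable (Set.Iic a)).measurableSet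
  have h1 : ∀ s, PP.real {ω | cnt r b ω ≤ a} = PP.real (E s) := by
    intro s
    have hm : MeasurableSet {ω | cnt r b ω ≤ a} := by
      have : {ω | cnt r b ω ≤ a} = E 0 := by
        ext ω
        simp only [hE, Set.mem_ofPred_eq, cnt_rk0]
      rw [this]
      exact hEm 0
    conv_lhs => rw [← map_reindex (rot_inj (r * b) (s * b))]
    rw [measureReal_def, measureReal_def, Measure.map_apply (measurable_pi_lambda _ fun j => measurable_pi_apply _) hm]
    congr 2
    ext ω
    simp only [hE, Set.mem_preimage, Set.mem_ofPred_eq]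
    rw [cnt_rot hr hb]
  set Tc : Set (ℕ → ℕ) := {ω | ¬ Set.InjOn (pp r b ω) (Set.Iio r)} with hTc
  have hTm : MeasurableSet Tc := by
    have : Tc = ⋃ s ∈ range r, ⋃ s' ∈ (range r).filter (· ≠ s), {ω | pp r b ω s = pp r b ω s'} := by
      ext ω
      simp only [hTc, Set.mem_ofPred_eq, Set.InjOn, Set.mem_iUnion, exists_prop, Finset.mem_range,
        Finset.mem_filter, Set.mem_Iio]
      push Not
      constructor
      · rintro ⟨s, hs, s', hs', h, hne⟩
        exact ⟨s, hs, s', ⟨hs', hne.symm⟩, h⟩
      · rintro ⟨s, hs, s', ⟨hs', hne⟩, h⟩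
        exact ⟨s, hs, s', hs', h, hne.symm⟩
    rw [this]
    refine Finset.measurableSet_biUnion _ fun s _ => Finset.measurableSet_biUnion _ fun s' _ => ?_
    exact measurableSet_eq_fun (meas_pp r b s) (meas_pp r b s')
  have h2 : (r : ℝ) * PP.real {ω | cnt r b ω ≤ a} = ∫ ω, ∑ s ∈ range r, (E s).indicator (fun _ => (1 : ℝ)) ω ∂PP := by
    rw [integral_finsetSum]
    · have : ∀ s ∈ range r, ∫ ω, (E s).indicator (fun _ => (1 : ℝ)) ω ∂PP = PP.real {ω | cnt r b ω ≤ a} := by
        intro s _
        rw [integral_indicator_const _ (hEm s), h1 s]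
        simp
      rw [Finset.sum_congr rfl this, Finset.sum_const, Finset.card_range, nsmul_eq_mul]
    · intro s _
      exact (integrable_const (1 : ℝ)).indicator (hEm s)
  have hI : Integrable (fun ω => ∑ s ∈ range r, (E s).indicator (fun _ => (1 : ℝ)) ω) PP :=
    integrable_finsetSum _ fun s _ => (integrable_const (1 : ℝ)).indicator (hEm s)
  have h3 : ∀ ω, |(∑ s ∈ range r, (E s).indicator (fun _ => (1 : ℝ)) ω) - ((a : ℝ) + 1)| ≤
      Tc.indicator (fun _ => (r : ℝ)) ω := by
    intro ω
    have e : ∑ s ∈ range r, (E s).indicator (fun _ => (1 : ℝ)) ω =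
        (((range r).filter fun s => rk r b ω s ≤ a).card : ℝ) := by
      rw [Finset.card_filter]
      push_cast
      apply Finset.sum_congr rfl
      intro s _
      by_cases h : rk r b ω s ≤ a
      · rw [Set.indicator_of_mem (by exact h), if_pos h]
      · rw [Set.indicator_of_notMem (by exact h), if_neg h]
    rw [e]
    by_cases hω : Set.InjOn (pp r b ω) (Set.Iio r)
    · have h4 := rank_count r (pp r b ω) hω ha
      have h5 : ((range r).filter fun s => rk r b ω s ≤ a).card = a + 1 := h4
      rw [h5, Set.indicator_of_notMem (by intro h; exact h hω)]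
      simp
    · rw [Set.indicator_of_mem (by exact hω)]
      have h4 : (((range r).filter fun s => rk r b ω s ≤ a).card : ℝ) ≤ r := by
        have := Finset.card_filter_le (range r) (fun s => rk r b ω s ≤ a)
        rw [Finset.card_range] at this
        exact_mod_cast this
      have h5 : (0 : ℝ) ≤ (((range r).filter fun s => rk r b ω s ≤ a).card : ℝ) := Nat.cast_nonneg _
      have h6 : (a : ℝ) + 1 ≤ r := by exact_mod_cast ha
      have h7 : (0 : ℝ) ≤ a := Nat.cast_nonneg _
      rw [abs_le]
      constructor <;> linarith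
  have h4 : |(r : ℝ) * PP.real {ω | cnt r b ω ≤ a} - ((a : ℝ) + 1)| ≤ r * PP.real Tc := by
    have e : (r : ℝ) * PP.real {ω | cnt r b ω ≤ a} - ((a : ℝ) + 1) =
        ∫ ω, ((∑ s ∈ range r, (E s).indicator (fun _ => (1 : ℝ)) ω) - ((a : ℝ) + 1)) ∂PP := by
      rw [integral_sub hI (integrable_const _), h2]
      simp
    rw [e]
    refine (abs_integral_le_integral_abs).trans ?_
    calc ∫ ω, |(∑ s ∈ range r, (E s).indicator (fun _ => (1 : ℝ)) ω) - ((a : ℝ) + 1)| ∂PP
        ≤ ∫ ω, Tc.indicator (fun _ => (r : ℝ)) ω ∂PP := by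
          apply integral_mono_of_nonneg
          · exact Filter.Eventually.of_forall fun ω => abs_nonneg _
          · exact (integrable_const _).indicator hTm
          · exact Filter.Eventually.of_forall h3
      _ = r * PP.real Tc := by
          rw [integral_indicator_const _ hTm]
          simp [mul_comm]
  have h5 := tie hr hb
  have h6 : PP.real {ω | cnt r b ω ≤ a} - ((a : ℝ) + 1) / r =
      ((r : ℝ) * PP.real {ω | cnt r b ω ≤ a} - ((a : ℝ) + 1)) / r := by field_simp
  rw [h6, abs_div, abs_of_pos hrR, div_le_iff₀ hrR]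
  calc |(r : ℝ) * PP.real {ω | cnt r b ω ≤ a} - ((a : ℝ) + 1)| ≤ r * PP.real Tc := h4
    _ ≤ r * (r ^ 2 / Real.sqrt b) := by gcongr
    _ = r ^ 2 / Real.sqrt b * r := by ring

end Pool.Agent.H55.UL
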