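import Pool.Agent.H55.G.R_seed8.Results.MP_f7abf1_nt.BlockLaw

/-!
# Trajectories of the `3x+1` function: odd terms and logarithms
-/

set_option autoImplicit false

namespace Pool.Agent.H55.UL

open Finset
open Pool.Agent.Results.MP_f7abf1_nt.BlockLaw (T Syr wait)

/-- the time of the `j`-th odd term (`n` odd) -/
def S (n j : ℕ) : ℕ := ∑ i ∈ range j, wait n i

/-- the number of the odd terms before time `k` -/
def O (n k : ℕ) : ℕ := ((range k).filter fun i => T^[i] n % 2 = 1).card

theorem T_even {n : ℕ} (h : n % 2 = 0) : T n = n / 2 := by unfold T; rw [if_pos h]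

theorem T_odd {n : ℕ} (h : n % 2 = 1) : T n = (3 * n + 1) / 2 := by unfold T; rw [if_neg (by omega)]

theorem T_pos {n : ℕ} (h : 1 ≤ n) : 1 ≤ T n := by
  unfold T
  split_ifs with h1 <;> omega

theorem Ti_pos {n : ℕ} (h : 1 ≤ n) (k : ℕ) : 1 ≤ T^[k] n := by
  induction k with
  | zero => exact h
  | succ k ih => rw [Function.iterate_succ_apply']; exact T_pos ih

theorem T_block {m : ℕ} (hm : m % 2 = 1) (i : ℕ) : 1 ≤ i → 2 ^ i ∣ 3 * m + 1 → T^[i] m = (3 * m + 1) / 2 ^ i := by
  induction i with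
  | zero => intro h; omega
  | succ i ih =>
    intro _ hd
    rcases Nat.eq_zero_or_pos i with hi | hi
    · subst hi
      simpa using T_odd hm
    · rw [Function.iterate_succ_apply', ih hi ((pow_dvd_pow 2 (Nat.le_succ i)).trans hd)]
      obtain ⟨c, hc⟩ := hd
      have h1 : (3 * m + 1) / 2 ^ i = 2 * c := by
        rw [hc, pow_succ, mul_assoc, Nat.mul_div_cancel_left _ (by positivity)]
      have h2 : (3 * m + 1) / 2 ^ (i + 1) = c := by
        rw [hc, Nat.mul_div_cancel_left _ (by positivity)]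
      rw [h1, h2, T_even (by omega)]
      omega

theorem val_pos {m : ℕ} (hm : m % 2 = 1) : 1 ≤ padicValNat 2 (3 * m + 1) := by
  apply one_le_padicValNat_of_dvd (by omega)
  omega

theorem Syr_odd {m : ℕ} : Syr m % 2 = 1 := by
  unfold Syr
  have h1 : ¬ 2 ^ (padicValNat 2 (3 * m + 1) + 1) ∣ 3 * m + 1 :=
    pow_succ_padicValNat_not_dvd (by omega)
  have h0 : 2 ^ padicValNat 2 (3 * m + 1) ∣ 3 * m + 1 := pow_padicValNat_dvd
  generalize padicValNat 2 (3 * m + 1) = e at h0 h1 ⊢
  obtain ⟨c, hc⟩ := h0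
  have h2 : (3 * m + 1) / 2 ^ e = c := Nat.div_eq_of_eq_mul_right (by positivity) hc
  rw [h2]
  by_contra hcon
  have h3 : 2 ∣ c := by omega
  apply h1
  rw [pow_succ, hc]
  exact Nat.mul_dvd_mul_left _ h3

theorem T_val {m : ℕ} (hm : m % 2 = 1) : T^[padicValNat 2 (3 * m + 1)] m = Syr m := by
  rw [T_block hm _ (val_pos hm) pow_padicValNat_dvd]
  rfl

theorem O_zero (n : ℕ) : O n 0 = 0 := by simp [O]

theorem O_succ (n k : ℕ) : O n (k + 1) = O n k + if T^[k] n % 2 = 1 then 1 else 0 := by
  unfold O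
  rw [Finset.range_add_one, Finset.filter_insert]
  split_ifs with h
  · rw [Finset.card_insert_of_notMem (by simp)]
  · rw [add_zero]

theorem O_mono (n : ℕ) : Monotone (O n) := by
  apply monotone_nat_of_le_succ
  intro k
  rw [O_succ]
  omega

theorem O_add (n a c : ℕ) : O n (a + c) = O n a + O (T^[a] n) c := by
  induction c with
  | zero => simp [O_zero]
  | succ c ih =>
    rw [← add_assoc, O_succ, ih, O_succ, ← Function.iterate_add_apply, add_comm c a]
    omega

theorem O_block {m : ℕ} (hm : m % 2 = 1) (c : ℕ) : 1 ≤ c → c ≤ padicValNat 2 (3 * m + 1) → O m c = 1 := by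
  induction c with
  | zero => intro h; omega
  | succ c ih =>
    intro _ hc
    rw [O_succ]
    rcases Nat.eq_zero_or_pos c with h0 | h0
    · subst h0
      rw [O_zero]
      simp [hm]
    · rw [ih h0 (by omega), T_block hm c h0 ((pow_dvd_pow 2 (by omega)).trans pow_padicValNat_dvd)]
      have hd : 2 ^ (c + 1) ∣ 3 * m + 1 := (pow_dvd_pow 2 hc).trans pow_padicValNat_dvd
      obtain ⟨d, hd⟩ := hd
      have h1 : (3 * m + 1) / 2 ^ c = 2 * d := by
        rw [hd, pow_succ, mul_assoc, Nat.mul_div_cancel_left _ (by positivity)]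
      rw [h1, if_neg (by omega)]

theorem S_succ (n j : ℕ) : S n (j + 1) = S n j + wait n j := Finset.sum_range_succ _ _

theorem syr_iter_odd {m : ℕ} (hm : m % 2 = 1) (j : ℕ) : Syr^[j] m % 2 = 1 := by
  cases j with
  | zero => exact hm
  | succ j => rw [Function.iterate_succ_apply']; exact Syr_odd

theorem T_S {m : ℕ} (hm : m % 2 = 1) (j : ℕ) : T^[S m j] m = Syr^[j] m := by
  induction j with
  | zero => rfl
  | succ j ih =>
    rw [S_succ, add_comm, Function.iterate_add_apply, ih, Function.iterate_succ_apply']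
    exact T_val (syr_iter_odd hm j)

theorem O_S {m : ℕ} (hm : m % 2 = 1) (j : ℕ) : O m (S m j) = j := by
  induction j with
  | zero => exact O_zero m
  | succ j ih =>
    rw [S_succ, O_add, ih, T_S hm]
    have h := O_block (syr_iter_odd hm j) (wait m j) (val_pos (syr_iter_odd hm j)) le_rfl
    rw [h]

theorem lt_O {m : ℕ} (hm : m % 2 = 1) (j k : ℕ) : j < O m k ↔ S m j < k := by
  constructor
  · intro h
    by_contra hcon
    have h1 := O_mono m (not_lt.1 hcon)
    rw [O_S hm] at h1
    omega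
  · intro h
    have h1 := O_mono m (show S m j + 1 ≤ k from h)
    rw [O_succ, O_S hm, T_S hm, if_pos (syr_iter_odd hm j)] at h1
    omega

theorem T_two (v m : ℕ) : ∀ i ≤ v, T^[i] (2 ^ v * m) = 2 ^ (v - i) * m := by
  intro i
  induction i with
  | zero => intro _; rfl
  | succ i ih =>
    intro h
    rw [Function.iterate_succ_apply', ih (by omega)]
    obtain ⟨c, hc⟩ : ∃ c, v - i = c + 1 := ⟨v - i - 1, by omega⟩
    have h2 : v - (i + 1) = c := by omega
    rw [hc, h2, pow_succ, mul_right_comm, mul_comm, T_even (by omega), Nat.mul_div_cancel_left _ (by norm_num)]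

theorem O_two (v m : ℕ) : O (2 ^ v * m) v = 0 := by
  unfold O
  rw [Finset.card_eq_zero, Finset.filter_eq_empty_iff]
  intro i hi
  rw [Finset.mem_range] at hi
  rw [T_two v m i hi.le]
  obtain ⟨c, hc⟩ : ∃ c, v - i = c + 1 := ⟨v - i - 1, by omega⟩
  rw [hc, pow_succ, mul_right_comm]
  omega

theorem lt_O' {m : ℕ} (hm : m % 2 = 1) (v j k : ℕ) : j < O (2 ^ v * m) k ↔ S m j + v < k := by
  rcases le_total k v with h | h
  · have h1 := O_mono (2 ^ v * m) h
    rw [O_two] at h1
    omega
  · obtain ⟨c, rfl⟩ := Nat.exists_eq_add_of_le h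
    rw [O_add, O_two, zero_add, T_two v m v le_rfl, Nat.sub_self, pow_zero, one_mul, lt_O hm]
    omega

/-- `t` is the total stopping time of `n` -/
def IsT (n t : ℕ) : Prop := T^[t] n = 1 ∧ ∀ j < t, T^[j] n ≠ 1

/-- the error term in the logarithm -/
noncomputable def er (n k : ℕ) : ℝ :=
  Real.log (T^[k] n) - Real.log n - O n k * Real.log 3 + k * Real.log 2

theorem er_succ {n : ℕ} (hn : 1 ≤ n) (k : ℕ) :
    0 ≤ er n (k + 1) - er n k ∧ er n (k + 1) - er n k ≤ 1 / (T^[k] n : ℕ) := by
  have hp : 1 ≤ T^[k] n := Ti_pos hn k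
  have hpR : (0 : ℝ) < (T^[k] n : ℕ) := by exact_mod_cast hp
  unfold er
  rw [O_succ, Function.iterate_succ_apply']
  rcases Nat.mod_two_eq_zero_or_one (T^[k] n) with h | h
  · rw [if_neg (by omega), T_even h]
    have h1 : ((T^[k] n / 2 : ℕ) : ℝ) = (T^[k] n : ℕ) / 2 := by
      rw [Nat.cast_div (by omega) (by norm_num)]
      norm_num
    rw [h1, Real.log_div hpR.ne' (by norm_num)]
    push_cast
    have h0 : (0 : ℝ) ≤ 1 / (T^[k] n : ℕ) := by positivity
    constructor <;> nlinarith
  · rw [if_pos h, T_odd h]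
    have h1 : (((3 * T^[k] n + 1) / 2 : ℕ) : ℝ) = (3 * (T^[k] n : ℕ) + 1) / 2 := by
      rw [Nat.cast_div (by omega) (by norm_num)]
      push_cast
      norm_num
    have h2 : (3 * ((T^[k] n : ℕ) : ℝ) + 1) / 2 = (T^[k] n : ℕ) * 3 / 2 * (1 + 1 / (3 * (T^[k] n : ℕ))) := by
      field_simp
    have h3 : (0 : ℝ) < 1 / (3 * (T^[k] n : ℕ)) := by positivity
    rw [h1, h2, Real.log_mul (by positivity) (by positivity), Real.log_div (by positivity) (by norm_num),
      Real.log_mul hpR.ne' (by norm_num)]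
    have h4 : 0 ≤ Real.log (1 + 1 / (3 * ((T^[k] n : ℕ) : ℝ))) := Real.log_nonneg (by linarith)
    have h5 : Real.log (1 + 1 / (3 * ((T^[k] n : ℕ) : ℝ))) ≤ 1 / (3 * (T^[k] n : ℕ)) := by
      have := Real.log_le_sub_one_of_pos (show (0 : ℝ) < 1 + 1 / (3 * ((T^[k] n : ℕ) : ℝ)) by positivity)
      linarith
    have h6 : (1 : ℝ) / (3 * (T^[k] n : ℕ)) ≤ 1 / (T^[k] n : ℕ) := by
      apply one_div_le_one_div_of_le hpR
      linarith
    push_cast
    constructor <;> linarith

theorem er_zero (n : ℕ) : er n 0 = 0 := by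
  unfold er
  simp [O_zero]

theorem er_mono {n : ℕ} (hn : 1 ≤ n) : Monotone (er n) := by
  apply monotone_nat_of_le_succ
  intro k
  linarith [(er_succ hn k).1]

theorem er_nonneg {n : ℕ} (hn : 1 ≤ n) (k : ℕ) : 0 ≤ er n k := by
  rw [← er_zero n]
  exact er_mono hn (Nat.zero_le k)

theorem er_le_sum {n : ℕ} (hn : 1 ≤ n) (k : ℕ) : er n k ≤ ∑ i ∈ range k, 1 / ((T^[i] n : ℕ) : ℝ) := by
  induction k with
  | zero => simp [er_zero]
  | succ k ih =>
    rw [Finset.sum_range_succ]
    linarith [(er_succ hn k).2]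

theorem inv_sum (s : Finset ℕ) : (∀ x ∈ s, 1 ≤ x) → ∑ x ∈ s, 1 / (x : ℝ) ≤ ∑ i ∈ range s.card, 1 / ((i : ℝ) + 1) := by
  induction s using Finset.induction_on_max with
  | empty => intro _; simp
  | insert a s ha ih =>
    intro h
    have has : a ∉ s := fun h' => lt_irrefl _ (ha a h')
    rw [Finset.sum_insert has, Finset.card_insert_of_notMem has, Finset.sum_range_succ]
    have h1 := ih fun x hx => h x (Finset.mem_insert_of_mem hx)
    have h2 : s.card + 1 ≤ a := by
      have h3 : s ⊆ Finset.Ico 1 a := by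
        intro x hx
        rw [Finset.mem_Ico]
        exact ⟨h x (Finset.mem_insert_of_mem hx), ha x hx⟩
      have h4 := Finset.card_le_card h3
      rw [Nat.card_Ico] at h4
      have := h a (Finset.mem_insert_self _ _)
      omega
    have h3 : (1 : ℝ) / a ≤ 1 / ((s.card : ℝ) + 1) := by
      apply one_div_le_one_div_of_le (by positivity)
      exact_mod_cast h2
    linarith

theorem er_bound' {n t k : ℕ} (hn : 1 ≤ n) (ht : IsT n t) (hk : k ≤ t) : er n k ≤ 1 + Real.log k := by
  refine (er_le_sum hn k).trans ?_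
  have hinj : Set.InjOn (fun i => T^[i] n) (range k) := by
    have key : ∀ i j, i < j → j < t → T^[i] n ≠ T^[j] n := by
      intro i j hij hj h
      have h1 : T^[t - j + i] n = 1 := by
        rw [Function.iterate_add_apply, h, ← Function.iterate_add_apply]
        rw [show t - j + j = t by omega]
        exact ht.1
      exact ht.2 _ (by omega) h1
    intro i hi j hj h
    rw [Finset.mem_coe, Finset.mem_range] at hi hj
    by_contra hne
    rcases lt_or_gt_of_ne hne with h1 | h1
    · exact key i j h1 (by omega) h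
    · exact key j i h1 (by omega) h.symm
  have h1 : ∑ i ∈ range k, 1 / ((T^[i] n : ℕ) : ℝ) = ∑ x ∈ (range k).image (fun i => T^[i] n), 1 / (x : ℝ) := by
    rw [Finset.sum_image]
    exact hinj
  rw [h1]
  refine (inv_sum _ ?_).trans ?_
  · intro x hx
    rw [Finset.mem_image] at hx
    obtain ⟨i, _, rfl⟩ := hx
    exact Ti_pos hn i
  · rw [Finset.card_image_of_injOn hinj, Finset.card_range]
    have h2 := harmonic_le_one_add_log k
    refine le_trans (le_of_eq ?_) h2
    unfold harmonic
    push_cast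
    apply Finset.sum_congr rfl
    intro i _
    rw [one_div]

theorem er_bound {n t : ℕ} (hn : 1 ≤ n) (ht : IsT n t) : er n t ≤ 1 + Real.log t := er_bound' hn ht le_rfl

theorem O_le (n k : ℕ) : O n k ≤ k := by
  unfold O
  refine (Finset.card_filter_le _ _).trans ?_
  rw [Finset.card_range]

end Pool.Agent.H55.UL
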