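import Pool.Agent.H55.UL.Model3
import Pool.Agent.H55.UL.Traj

/-!
# Transfer of the estimates of the model by the block law
-/

set_option autoImplicit false

namespace Pool.Agent.H55.UL

open MeasureTheory ProbabilityTheory Filter Topology Finset
open Pool.Agent.H499R2.ND.TJ (PP geo)
open Pool.Agent.Results.MP_f7abf1_nt.BlockLaw (T Syr wait blocks Admissible model prob oddCount HasDensity bound Phi)

theorem oc_mono {X : ℕ} {P Q : ℕ → Prop} (h : ∀ n, n ≤ X → Odd n → P n → Q n) : oddCount X P ≤ oddCount X Q := by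
  unfold oddCount
  have hf : {n : ℕ | n ≤ X ∧ Odd n ∧ Q n}.Finite := (Set.finite_Iic X).subset fun n hn => hn.1
  have hs : {n : ℕ | n ≤ X ∧ Odd n ∧ P n} ⊆ {n : ℕ | n ≤ X ∧ Odd n ∧ Q n} :=
    fun n hn => ⟨hn.1, hn.2.1, h n hn.1 hn.2.1 hn.2.2⟩
  exact_mod_cast Set.ncard_le_ncard hs hf

theorem oc_nonneg (X : ℕ) (P : ℕ → Prop) : 0 ≤ oddCount X P := by
  unfold oddCount
  positivity

theorem oc_le (X : ℕ) (P : ℕ → Prop) : oddCount X P ≤ X := by
  unfold oddCount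
  have h : {n : ℕ | n ≤ X ∧ Odd n ∧ P n} ⊆ (Finset.Icc 1 X : Finset ℕ) := by
    rintro n ⟨h1, h2, _⟩
    rw [Finset.coe_Icc]
    exact ⟨h2.pos, h1⟩
  have h1 := Set.ncard_le_ncard h (Finset.finite_toSet _)
  rw [Set.ncard_coe_finset, Nat.card_Icc] at h1
  exact_mod_cast h1

theorem oc_or (X : ℕ) (P Q : ℕ → Prop) : oddCount X (fun n => P n ∨ Q n) ≤ oddCount X P + oddCount X Q := by
  unfold oddCount
  have e : {n : ℕ | n ≤ X ∧ Odd n ∧ (P n ∨ Q n)} = {n : ℕ | n ≤ X ∧ Odd n ∧ P n} ∪ {n : ℕ | n ≤ X ∧ Odd n ∧ Q n} := by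
    ext n
    simp only [Set.mem_ofPred_eq, Set.mem_union]
    tauto
  rw [e]
  exact_mod_cast Set.ncard_union_le _ _

theorem oc_sub {X : ℕ} {P Q : ℕ → Prop} (h : ∀ n, Q n → P n) :
    oddCount X (fun n => P n ∧ ¬ Q n) = oddCount X P - oddCount X Q := by
  have hf : {n : ℕ | n ≤ X ∧ Odd n ∧ P n}.Finite := (Set.finite_Iic X).subset fun n hn => hn.1
  have hQ : {n : ℕ | n ≤ X ∧ Odd n ∧ Q n} ⊆ {n : ℕ | n ≤ X ∧ Odd n ∧ P n} := fun n hn => ⟨hn.1, hn.2.1, h n hn.2.2⟩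
  unfold oddCount
  have e : {n : ℕ | n ≤ X ∧ Odd n ∧ (P n ∧ ¬ Q n)} = {n : ℕ | n ≤ X ∧ Odd n ∧ P n} \ {n : ℕ | n ≤ X ∧ Odd n ∧ Q n} := by
    ext n
    simp only [Set.mem_ofPred_eq, Set.mem_sdiff]
    tauto
  rw [e, Set.ncard_sdiff hQ (hf.subset hQ), Nat.cast_sub (Set.ncard_le_ncard hQ hf)]

open Classical in
/-- Markov's inequality -/
theorem markov (X K : ℕ) (P : ℕ → ℕ → Prop) (c : ℝ) :
    c * oddCount X (fun n => c ≤ (((range K).filter fun j => P n j).card : ℝ)) ≤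
      ∑ j ∈ range K, oddCount X (fun n => P n j) := by
  set U : Finset ℕ := (Finset.range (X + 1)).filter Odd with hU
  have hoc : ∀ Q : ℕ → Prop, oddCount X Q = ((U.filter Q).card : ℝ) := by
    intro Q
    unfold oddCount
    rw [← Set.ncard_coe_finset]
    congr 2
    ext n
    simp only [Set.mem_ofPred_eq, Finset.coe_filter, hU, Finset.mem_filter, Finset.mem_range]
    constructor
    · rintro ⟨h1, h2, h3⟩
      exact ⟨⟨by omega, h2⟩, h3⟩
    · rintro ⟨⟨h1, h2⟩, h3⟩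
      exact ⟨by omega, h2, h3⟩
  simp only [hoc]
  have h1 : ∑ j ∈ range K, ((U.filter fun n => P n j).card : ℝ) =
      ∑ n ∈ U, (((range K).filter fun j => P n j).card : ℝ) := by
    simp only [Finset.card_filter]
    push_cast
    rw [Finset.sum_comm]
  rw [h1]
  calc c * ((U.filter fun n => c ≤ (((range K).filter fun j => P n j).card : ℝ)).card : ℝ)
      = ∑ n ∈ U.filter (fun n => c ≤ (((range K).filter fun j => P n j).card : ℝ)), c := by
        rw [Finset.sum_const, nsmul_eq_mul]; ring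
    _ ≤ ∑ n ∈ U.filter (fun n => c ≤ (((range K).filter fun j => P n j).card : ℝ)),
          (((range K).filter fun j => P n j).card : ℝ) := by
        apply Finset.sum_le_sum
        intro n hn
        rw [Finset.mem_filter] at hn
        exact hn.2
    _ ≤ ∑ n ∈ U, (((range K).filter fun j => P n j).card : ℝ) := by
        apply Finset.sum_le_sum_of_subset_of_nonneg (Finset.filter_subset _ _)
        intro n _ _
        positivity

/-- upper bound for the numbers of the odd integers in terms of the model -/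
theorem upper {κ ε : ℝ} (hκ : 0 < κ) (hε : 0 < ε) : ∀ᶠ X : ℕ in atTop, ∀ (r : ℕ) (K : ℕ → ℕ), Admissible κ X r K →
    ∀ E : Set (Fin r → ℕ), oddCount X (fun n => blocks K r (wait n) ∈ E) ≤ (prob K r E / 2 + ε) * X := by
  obtain ⟨δ, h0, h1, _, _, h2⟩ := Pool.Agent.Results.MP_f7abf1_nt.BlockLaw.result.1 (fun _ => True) (fun _ _ => Iff.rfl)
  obtain ⟨X₀, hX⟩ := h2 κ ε hκ hε
  filter_upwards [eventually_ge_atTop X₀] with X hX₀ r K hA E
  have h3 := (abs_le.1 (hX X hX₀ r K hA E)).2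
  have h4 : oddCount X (fun n => blocks K r (wait n) ∈ E) ≤ oddCount X (fun n => True ∧ blocks K r (wait n) ∈ E) :=
    oc_mono fun n _ _ h => ⟨trivial, h⟩
  have h5 : 0 ≤ prob K r E := by
    unfold prob
    exact measureReal_nonneg
  have h6 : δ / 2 * prob K r E * X ≤ prob K r E / 2 * X := by
    have hX : (0 : ℝ) ≤ X := Nat.cast_nonneg X
    have : δ * prob K r E ≤ prob K r E := by nlinarith
    nlinarith
  linarith

/-- the partition `0, a, c` -/
def K2 (a c : ℕ) (i : ℕ) : ℕ := if i = 0 then 0 else if i = 1 then a else c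

/-- the partition `0, a` -/
def K1 (a : ℕ) (i : ℕ) : ℕ := if i = 0 then 0 else a

theorem adm2 {κ : ℝ} {X a c : ℕ} (h1 : κ * Real.log X ≤ a) (h2 : (a : ℝ) + κ * Real.log X ≤ c)
    (h3 : (c : ℝ) ≤ (1 - κ) * Real.log X / Real.log (4 / 3)) : Admissible κ X 2 (K2 a c) := by
  refine ⟨rfl, ?_, by simpa [K2] using h3⟩
  intro i hi
  interval_cases i
  · simpa [K2] using h1
  · simpa [K2] using h2

theorem adm1 {κ : ℝ} {X a : ℕ} (h1 : κ * Real.log X ≤ a)
    (h3 : (a : ℝ) ≤ (1 - κ) * Real.log X / Real.log (4 / 3)) : Admissible κ X 1 (K1 a) := by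
  refine ⟨rfl, ?_, by simpa [K1] using h3⟩
  intro i hi
  interval_cases i
  simpa [K1] using h1

theorem S_sub (n : ℕ) {a c : ℕ} (h : a ≤ c) : (S n c : ℝ) - S n a = ((∑ j ∈ Finset.Ico a c, wait n j : ℕ) : ℝ) := by
  unfold S
  rw [← Finset.sum_range_add_sum_Ico _ h]
  push_cast
  ring

theorem up_anti {κ ε : ℝ} (hκ : 0 < κ) (hε : 0 < ε) : ∀ᶠ X : ℕ in atTop, ∀ a c : ℕ, 1 ≤ a → a < c →
    κ * Real.log X ≤ a → (a : ℝ) + κ * Real.log X ≤ c → (c : ℝ) ≤ (1 - κ) * Real.log X / Real.log (4 / 3) →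
    ∀ W : ℝ, 0 ≤ W → oddCount X (fun n => |(a : ℝ) * S n c - c * S n a| ≤ W) ≤
      ((2 * W / ((c : ℝ) - a) + 1) / Real.sqrt a / 2 + ε) * X := by
  filter_upwards [upper hκ hε] with X hX a c ha hac h1 h2 h3 W hW
  have h := hX 2 (K2 a c) (adm2 h1 h2 h3) {v | |(a : ℝ) * v 1 - ((c : ℝ) - a) * v 0| ≤ W}
  have e : (fun n => |(a : ℝ) * S n c - c * S n a| ≤ W) =
      fun n => blocks (K2 a c) 2 (wait n) ∈ {v : Fin 2 → ℕ | |(a : ℝ) * v 1 - ((c : ℝ) - a) * v 0| ≤ W} := by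
    funext n
    simp only [Set.mem_ofPred_eq, blocks]
    have e0 : ((∑ j ∈ Ico (K2 a c ((0 : Fin 2) : ℕ)) (K2 a c (((0 : Fin 2) : ℕ) + 1)), wait n j : ℕ) : ℝ) = S n a := by
      simp [K2, S]
    have e1 : ((∑ j ∈ Ico (K2 a c ((1 : Fin 2) : ℕ)) (K2 a c (((1 : Fin 2) : ℕ) + 1)), wait n j : ℕ) : ℝ) = S n c - S n a := by
      rw [S_sub n hac.le]
      simp [K2]
    rw [e0, e1]
    have : (a : ℝ) * S n c - c * S n a = (a : ℝ) * (S n c - S n a) - ((c : ℝ) - a) * S n a := by ring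
    rw [this]
  rw [e]
  refine h.trans ?_
  have hp : prob (K2 a c) 2 {v | |(a : ℝ) * v 1 - ((c : ℝ) - a) * v 0| ≤ W} ≤ (2 * W / ((c : ℝ) - a) + 1) / Real.sqrt a := by
    have hd : Disjoint (Ico 0 a) (Ico a c) := Finset.Ico_disjoint_Ico_consecutive 0 a c
    have hn1 : (Ico 0 a).Nonempty := by rw [Finset.nonempty_Ico]; omega
    have hn2 : (Ico a c).Nonempty := by rw [Finset.nonempty_Ico]; omega
    have h4 := anti hd hn1 hn2 hW
    rw [Nat.card_Ico, Nat.card_Ico, Nat.sub_zero, Nat.cast_sub hac.le] at h4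
    refine le_trans (le_of_eq ?_) h4
    unfold prob
    rw [Pool.Agent.Results.MP_f7abf1_nt.BlockLaw.model_eq]
    congr 1
  have hX0 : (0 : ℝ) ≤ X := Nat.cast_nonneg X
  gcongr

theorem up_cheb2 {κ ε : ℝ} (hκ : 0 < κ) (hε : 0 < ε) : ∀ᶠ X : ℕ in atTop, ∀ a c : ℕ, a ≤ c →
    κ * Real.log X ≤ a → (a : ℝ) + κ * Real.log X ≤ c → (c : ℝ) ≤ (1 - κ) * Real.log X / Real.log (4 / 3) →
    ∀ x : ℝ, 0 < x → oddCount X (fun n => x ≤ |(S n c : ℝ) - S n a - 2 * ((c : ℝ) - a)|) ≤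
      (((c : ℝ) - a) / x ^ 2 + ε) * X := by
  filter_upwards [upper hκ hε] with X hX a c hac h1 h2 h3 x hx
  have h := hX 2 (K2 a c) (adm2 h1 h2 h3) {v | x ≤ |(v 1 : ℝ) - 2 * ((c : ℝ) - a)|}
  have e : (fun n => x ≤ |(S n c : ℝ) - S n a - 2 * ((c : ℝ) - a)|) =
      fun n => blocks (K2 a c) 2 (wait n) ∈ {v : Fin 2 → ℕ | x ≤ |(v 1 : ℝ) - 2 * ((c : ℝ) - a)|} := by
    funext n
    simp only [Set.mem_ofPred_eq, blocks]
    have e1 : ((∑ j ∈ Ico (K2 a c ((1 : Fin 2) : ℕ)) (K2 a c (((1 : Fin 2) : ℕ) + 1)), wait n j : ℕ) : ℝ) = S n c - S n a := by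
      rw [S_sub n hac]
      simp [K2]
    rw [e1]
  rw [e]
  refine h.trans ?_
  have hp : prob (K2 a c) 2 {v | x ≤ |(v 1 : ℝ) - 2 * ((c : ℝ) - a)|} ≤ 2 * ((c : ℝ) - a) / x ^ 2 := by
    have h4 := cheb (Ico a c) hx
    rw [Nat.card_Ico, Nat.cast_sub hac] at h4
    refine le_trans (le_of_eq ?_) h4
    unfold prob
    rw [Pool.Agent.Results.MP_f7abf1_nt.BlockLaw.model_eq]
    congr 1
  have hX0 : (0 : ℝ) ≤ X := Nat.cast_nonneg X
  have h5 : prob (K2 a c) 2 {v | x ≤ |(v 1 : ℝ) - 2 * ((c : ℝ) - a)|} / 2 ≤ ((c : ℝ) - a) / x ^ 2 := by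
    have : 2 * ((c : ℝ) - a) / x ^ 2 = 2 * (((c : ℝ) - a) / x ^ 2) := by ring
    linarith
  gcongr

theorem up_cheb1 {κ ε : ℝ} (hκ : 0 < κ) (hε : 0 < ε) : ∀ᶠ X : ℕ in atTop, ∀ c : ℕ,
    κ * Real.log X ≤ c → (c : ℝ) ≤ (1 - κ) * Real.log X / Real.log (4 / 3) →
    ∀ x : ℝ, 0 < x → oddCount X (fun n => x ≤ |(S n c : ℝ) - 2 * c|) ≤ (c / x ^ 2 + ε) * X := by
  filter_upwards [upper hκ hε] with X hX c h1 h3 x hx
  have h := hX 1 (K1 c) (adm1 h1 h3) {v | x ≤ |(v 0 : ℝ) - 2 * c|}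
  have e : (fun n => x ≤ |(S n c : ℝ) - 2 * c|) =
      fun n => blocks (K1 c) 1 (wait n) ∈ {v : Fin 1 → ℕ | x ≤ |(v 0 : ℝ) - 2 * c|} := by
    funext n
    simp only [Set.mem_ofPred_eq, blocks]
    have e1 : ((∑ j ∈ Ico (K1 c ((0 : Fin 1) : ℕ)) (K1 c (((0 : Fin 1) : ℕ) + 1)), wait n j : ℕ) : ℝ) = S n c := by
      simp [K1, S]
    rw [e1]
  rw [e]
  refine h.trans ?_
  have hp : prob (K1 c) 1 {v | x ≤ |(v 0 : ℝ) - 2 * c|} ≤ 2 * c / x ^ 2 := by
    have h4 := cheb (Ico 0 c) hx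
    rw [Nat.card_Ico, Nat.sub_zero] at h4
    refine le_trans (le_of_eq ?_) h4
    unfold prob
    rw [Pool.Agent.Results.MP_f7abf1_nt.BlockLaw.model_eq]
    congr 1
  have hX0 : (0 : ℝ) ≤ X := Nat.cast_nonneg X
  have h5 : prob (K1 c) 1 {v | x ≤ |(v 0 : ℝ) - 2 * c|} / 2 ≤ (c : ℝ) / x ^ 2 := by
    have : 2 * (c : ℝ) / x ^ 2 = 2 * ((c : ℝ) / x ^ 2) := by ring
    linarith
  gcongr

/-- the number of the block endpoints of the trajectory below the chord -/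
def cn (r b n : ℕ) : ℕ := ((range r).filter fun i => r * S n (i * b) < i * S n (r * b)).card

/-- the number reaches `1` -/
def R (n : ℕ) : Prop := ∃ k, T^[k] n = 1

theorem R_T {n : ℕ} : R n ↔ R (T n) := by
  constructor
  · rintro ⟨k, hk⟩
    cases k with
    | zero =>
      refine ⟨1, ?_⟩
      have h : n = 1 := hk
      subst h
      decide
    | succ k => exact ⟨k, by rw [← Function.iterate_succ_apply]; exact hk⟩
  · rintro ⟨k, hk⟩
    exact ⟨k + 1, by rw [Function.iterate_succ_apply]; exact hk⟩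

/-- partial sums of a vector -/
def ps {r : ℕ} (v : Fin r → ℕ) (i : ℕ) : ℕ := ∑ l ∈ range i, if h : l < r then v ⟨l, h⟩ else 0

theorem ps_blocks {r b : ℕ} (a : ℕ → ℕ) {i : ℕ} (hi : i ≤ r) :
    ps (blocks (fun i => i * b) r a) i = ∑ j ∈ range (i * b), a j := by
  induction i with
  | zero => simp [ps]
  | succ i ih =>
    have h1 : ps (blocks (fun i => i * b) r a) (i + 1) =
        ps (blocks (fun i => i * b) r a) i + blocks (fun i => i * b) r a ⟨i, hi⟩ := by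
      unfold ps
      rw [Finset.sum_range_succ, dif_pos (show i < r from hi)]
    rw [h1, ih (by omega)]
    unfold blocks
    rw [Finset.sum_range_add_sum_Ico _ (Nat.mul_le_mul_right b (Nat.le_succ i))]

/-- the law of the number of block endpoints below the chord, for the numbers which reach `1` -/
theorem law {δ : ℝ} (hδ : HasDensity R δ) {κ ε : ℝ} (hκ : 0 < κ) (hε : 0 < ε) : ∀ᶠ X : ℕ in atTop, ∀ r b : ℕ,
    0 < r → 0 < b → κ * Real.log X ≤ b → ((r * b : ℕ) : ℝ) ≤ (1 - κ) * Real.log X / Real.log (4 / 3) →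
    ∀ a < r, |oddCount X (fun n => R n ∧ cn r b n ≤ a) - δ / 2 * (((a : ℝ) + 1) / r) * X| ≤
      (r ^ 2 / Real.sqrt b + ε) * X := by
  obtain ⟨δ', h0, h1, h2, _, h3⟩ := Pool.Agent.Results.MP_f7abf1_nt.BlockLaw.result.1 R (fun _ _ => R_T)
  have hδ' : δ' = δ := tendsto_nhds_unique h2 hδ
  subst hδ'
  obtain ⟨X₀, hX⟩ := h3 κ ε hκ hε
  filter_upwards [eventually_ge_atTop X₀] with X hX₀ r b hr hb h4 h5 a ha
  have hadm : Admissible κ X r (fun i => i * b) := by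
    refine ⟨by simp, ?_, by simpa using h5⟩
    intro i _
    push_cast
    linarith
  have h := hX X hX₀ r (fun i => i * b) hadm {v | ((range r).filter fun i => r * ps v i < i * ps v r).card ≤ a}
  have e1 : ∀ x : ℕ → ℕ, blocks (fun i => i * b) r x ∈ {v : Fin r → ℕ | ((range r).filter fun i => r * ps v i < i * ps v r).card ≤ a} ↔
      ((range r).filter fun i => r * (∑ j ∈ range (i * b), x j) < i * (∑ j ∈ range (r * b), x j)).card ≤ a := by
    intro x
    rw [Set.mem_ofPred_eq, ps_blocks x le_rfl]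
    have : ((range r).filter fun i => r * ps (blocks (fun i => i * b) r x) i < i * (∑ j ∈ range (r * b), x j)) =
        ((range r).filter fun i => r * (∑ j ∈ range (i * b), x j) < i * (∑ j ∈ range (r * b), x j)) := by
      apply Finset.filter_congr
      intro i hi
      rw [Finset.mem_range] at hi
      rw [ps_blocks x hi.le]
    rw [this]
  have e2 : prob (fun i => i * b) r {v | ((range r).filter fun i => r * ps v i < i * ps v r).card ≤ a} =
      PP.real {ω | cnt r b ω ≤ a} := by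
    unfold prob
    rw [Pool.Agent.Results.MP_f7abf1_nt.BlockLaw.model_eq]
    congr 1
    ext ω
    exact e1 (fun j => ω j + 1)
  have e3 : (fun n => R n ∧ cn r b n ≤ a) = (fun n => R n ∧ blocks (fun i => i * b) r (wait n) ∈
      {v : Fin r → ℕ | ((range r).filter fun i => r * ps v i < i * ps v r).card ≤ a}) := by
    funext n
    rw [e1]
    rfl
  rw [e3]
  rw [e2] at h
  have h6 := uniform hr hb ha
  have hX0 : (0 : ℝ) ≤ X := Nat.cast_nonneg X
  have h7 : |δ' / 2 * PP.real {ω | cnt r b ω ≤ a} * X - δ' / 2 * (((a : ℝ) + 1) / r) * X| ≤ r ^ 2 / Real.sqrt b * X := by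
    have e4 : δ' / 2 * PP.real {ω | cnt r b ω ≤ a} * X - δ' / 2 * (((a : ℝ) + 1) / r) * X =
        δ' / 2 * X * (PP.real {ω | cnt r b ω ≤ a} - ((a : ℝ) + 1) / r) := by ring
    rw [e4, abs_mul, abs_of_nonneg (by positivity)]
    have h8 : δ' / 2 * X ≤ X := by nlinarith
    calc δ' / 2 * X * |PP.real {ω | cnt r b ω ≤ a} - ((a : ℝ) + 1) / r| ≤ X * (r ^ 2 / Real.sqrt b) := by gcongr
      _ = r ^ 2 / Real.sqrt b * X := by ring
  have h9 := abs_sub_le (oddCount X (fun n => R n ∧ blocks (fun i => i * b) r (wait n) ∈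
      {v : Fin r → ℕ | ((range r).filter fun i => r * ps v i < i * ps v r).card ≤ a}))
      (δ' / 2 * PP.real {ω | cnt r b ω ≤ a} * X) (δ' / 2 * (((a : ℝ) + 1) / r) * X)
  linarith

end Pool.Agent.H55.UL
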