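import Pool.Agent.H55.UL.GoodDet2

/-!
# Averages over the places of the trajectory
-/

set_option autoImplicit false

namespace Pool.Agent.H55.UL

open Filter Topology Finset
open Pool.Agent.Results.MP_f7abf1_nt.BlockLaw (T Syr wait bound oddCount)

theorem cnt_lt (K : ℕ) {x : ℝ} (hx : 0 ≤ x) : (((range K).filter fun j : ℕ => (j : ℝ) < x).card : ℝ) ≤ x + 1 := by
  have h1 : ((range K).filter fun j : ℕ => (j : ℝ) < x) ⊆ range ⌈x⌉₊ := by
    intro j hj
    rw [Finset.mem_filter] at hj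
    rw [Finset.mem_range, Nat.lt_ceil]
    exact hj.2
  have h2 := Finset.card_le_card h1
  rw [Finset.card_range] at h2
  have h3 : (((range K).filter fun j : ℕ => (j : ℝ) < x).card : ℝ) ≤ ⌈x⌉₊ := by exact_mod_cast h2
  linarith [(Nat.ceil_lt_add_one hx).le]

theorem cnt_gt (K : ℕ) {x : ℝ} (hx : 0 ≤ x) : (((range K).filter fun j : ℕ => (K : ℝ) - j < x).card : ℝ) ≤ x + 1 := by
  have h2 : ((range K).filter fun j : ℕ => (K : ℝ) - j < x).card ≤ (range ⌈x⌉₊).card := by
    apply Finset.card_le_card_of_injOn (fun j => K - j)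
    · intro j hj
      rw [Finset.mem_coe, Finset.mem_filter, Finset.mem_range] at hj
      rw [Finset.mem_coe, Finset.mem_range, Nat.lt_ceil]
      rw [Nat.cast_sub hj.1.le]
      exact hj.2
    · intro i hi j hj h
      rw [Finset.mem_coe, Finset.mem_filter, Finset.mem_range] at hi hj
      simp only at h
      omega
  rw [Finset.card_range] at h2
  have h3 : (((range K).filter fun j : ℕ => (K : ℝ) - j < x).card : ℝ) ≤ ⌈x⌉₊ := by exact_mod_cast h2
  linarith [(Nat.ceil_lt_add_one hx).le]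

theorem cnt_mod (r : ℕ) {b : ℕ} (hb : 0 < b) {x : ℝ} (hx : 0 ≤ x) :
    (((range (r * b)).filter fun j : ℕ => ((j % b : ℕ) : ℝ) < x).card : ℝ) ≤ r * (x + 1) := by
  have h2 : ((range (r * b)).filter fun j : ℕ => ((j % b : ℕ) : ℝ) < x).card ≤ (range r ×ˢ range ⌈x⌉₊).card := by
    apply Finset.card_le_card_of_injOn (fun j => (j / b, j % b))
    · intro j hj
      rw [Finset.mem_coe, Finset.mem_filter, Finset.mem_range] at hj
      rw [Finset.mem_coe, Finset.mem_product, Finset.mem_range, Finset.mem_range, Nat.lt_ceil]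
      exact ⟨by rw [Nat.div_lt_iff_lt_mul hb]; exact hj.1, hj.2⟩
    · intro i hi j hj h
      simp only [Prod.mk.injEq] at h
      rw [← Nat.div_add_mod i b, ← Nat.div_add_mod j b, h.1, h.2]
  rw [Finset.card_product, Finset.card_range, Finset.card_range] at h2
  have h3 : (((range (r * b)).filter fun j : ℕ => ((j % b : ℕ) : ℝ) < x).card : ℝ) ≤ r * (⌈x⌉₊ : ℝ) := by exact_mod_cast h2
  have h4 : (r : ℝ) * ⌈x⌉₊ ≤ r * (x + 1) := by
    gcongr
    exact (Nat.ceil_lt_add_one hx).le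
  linarith

theorem log_tendsto : Tendsto (fun X : ℕ => Real.log X) atTop atTop :=
  Real.tendsto_log_atTop.comp tendsto_natCast_atTop_atTop

/-- the bound of `up_anti` in the middle range -/
theorem mid_bd {K j : ℕ} {η γ ε : ℝ} (hη : 0 < η) (hγ : 0 < γ) (hγ1 : γ ≤ 1) (hK : 0 < K) (h1 : γ * K ≤ j)
    (h2 : γ * K ≤ K - j) :
    (2 * (K * (η * Real.sqrt K)) / ((K : ℝ) - j) + 1) / Real.sqrt j / 2 + ε ≤ η / γ ^ 2 + 1 / (2 * γ * Real.sqrt K) + ε := by
  have hKR : (0 : ℝ) < K := by exact_mod_cast hK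
  have hs : 0 < Real.sqrt K := Real.sqrt_pos.2 hKR
  have h3 : 2 * (K * (η * Real.sqrt K)) / ((K : ℝ) - j) ≤ 2 * η * Real.sqrt K / γ := by
    have hpos : 0 < (K : ℝ) - j := lt_of_lt_of_le (by positivity) h2
    rw [div_le_div_iff₀ hpos hγ]
    have := mul_le_mul_of_nonneg_left h2 (show 0 ≤ 2 * η * Real.sqrt K by positivity)
    linarith
  have h4 : γ * Real.sqrt K ≤ Real.sqrt j := by
    rw [← Real.sqrt_sq hγ.le, ← Real.sqrt_mul (by positivity)]
    apply Real.sqrt_le_sqrt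
    have : γ ^ 2 * K ≤ γ * K := by
      have : γ ^ 2 ≤ γ := by nlinarith
      gcongr
    linarith
  have h5 : (2 * (K * (η * Real.sqrt K)) / ((K : ℝ) - j) + 1) / Real.sqrt j ≤ (2 * η * Real.sqrt K / γ + 1) / (γ * Real.sqrt K) := by
    gcongr
  have h6 : (2 * η * Real.sqrt K / γ + 1) / (γ * Real.sqrt K) / 2 = η / γ ^ 2 + 1 / (2 * γ * Real.sqrt K) := by
    field_simp
  linarith

theorem bad_sum {ε₀ : ℝ} (h0 : 0 < ε₀) (h01 : ε₀ ≤ 1) : ∃ η : ℝ, 0 < η ∧ ∀ κ : ℝ, 0 < κ → κ ≤ 1 / 2 →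
    ∀ᶠ X : ℕ in atTop, ∀ K : ℕ, Real.log X ≤ K → (K : ℝ) ≤ (1 - κ) * Real.log X / Real.log (4 / 3) →
      ∑ j ∈ range K, oddCount X (fun n => bd (η * Real.sqrt K) K n j) ≤ ε₀ * K * X := by
  set γ : ℝ := ε₀ / 8 with hγ
  have hγ0 : 0 < γ := by positivity
  have hγ1 : γ ≤ 1 := by rw [hγ]; linarith
  set η : ℝ := ε₀ * γ ^ 2 / 8 with hη
  have hη0 : 0 < η := by positivity
  refine ⟨η, hη0, fun κ hκ hκ2 => ?_⟩
  set κ₁ := min κ γ with hκ₁
  have hκ₁0 : 0 < κ₁ := lt_min hκ hγ0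
  obtain ⟨K₁, hK₁⟩ := eventually_atTop.1 (slow (8 / (γ * ε₀)) (show (0 : ℝ) < 1 by norm_num))
  filter_upwards [up_anti hκ₁0 (show 0 < ε₀ / 8 by positivity), log_tendsto.eventually_ge_atTop (max K₁ (max 1 (16 / ε₀)))]
    with X hX hL K hLK hK
  have hL1 : K₁ ≤ Real.log X := (le_max_left _ _).trans hL
  have hL2 : 1 ≤ Real.log X := (le_max_left _ _).trans ((le_max_right _ _).trans hL)
  have hL3 : 16 / ε₀ ≤ Real.log X := (le_max_right _ _).trans ((le_max_right _ _).trans hL)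
  have hKR1 : (1 : ℝ) ≤ K := hL2.trans hLK
  have hKR : (0 : ℝ) < K := by linarith
  have hK0 : 0 < K := by exact_mod_cast hKR
  have hs1 : 1 ≤ Real.sqrt K := by rw [Real.one_le_sqrt]; exact hKR1
  have hX0 : (0 : ℝ) ≤ X := Nat.cast_nonneg X
  have hlpos : 0 < Real.log (4 / 3) := by linarith [log43_lo]
  have hKκ₁ : (K : ℝ) ≤ (1 - κ₁) * Real.log X / Real.log (4 / 3) := by
    refine hK.trans ?_
    have : κ₁ ≤ κ := min_le_left _ _
    gcongr
  have hsm : 1 / (2 * γ * Real.sqrt K) ≤ ε₀ / 8 := by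
    obtain ⟨_, h2, _⟩ := hK₁ K (hL1.trans hLK)
    have h3 : 8 / (γ * ε₀) ≤ 1 * Real.sqrt K := by
      refine le_trans ?_ h2
      have h4 : 0 ≤ Real.log K := Real.log_nonneg hKR1
      have h5 : 0 < 8 / (γ * ε₀) := by positivity
      have := mul_nonneg h5.le h4
      linarith
    rw [one_mul, div_le_iff₀ (by positivity)] at h3
    rw [div_le_iff₀ (by positivity)]
    nlinarith
  have hmid : η / γ ^ 2 + 1 / (2 * γ * Real.sqrt K) + ε₀ / 8 ≤ ε₀ / 2 := by
    have : η / γ ^ 2 = ε₀ / 8 := by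
      rw [hη]; field_simp
    linarith
  have hterm : ∀ j ∈ range K, oddCount X (fun n => bd (η * Real.sqrt K) K n j) ≤
      ((if (j : ℝ) < γ * K then (1 : ℝ) else 0) + (if (K : ℝ) - j < γ * K then (1 : ℝ) else 0) + ε₀ / 2) * X := by
    intro j hj
    rw [Finset.mem_range] at hj
    by_cases h1 : (j : ℝ) < γ * K
    · rw [if_pos h1]
      refine (oc_le X _).trans ?_
      have : (0 : ℝ) ≤ (if (K : ℝ) - j < γ * K then (1 : ℝ) else 0) := by split_ifs <;> norm_num
      have h3 : (1 : ℝ) ≤ 1 + (if (K : ℝ) - j < γ * K then (1 : ℝ) else 0) + ε₀ / 2 := by linarith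
      have := mul_le_mul_of_nonneg_right h3 hX0
      linarith
    · rw [if_neg h1]
      by_cases h2 : (K : ℝ) - j < γ * K
      · rw [if_pos h2]
        refine (oc_le X _).trans ?_
        have h3 : (1 : ℝ) ≤ 0 + 1 + ε₀ / 2 := by linarith
        have := mul_le_mul_of_nonneg_right h3 hX0
        linarith
      · rw [if_neg h2]
        push Not at h1 h2
        have hκL : κ₁ * Real.log X ≤ γ * K := by
          apply mul_le_mul (min_le_right _ _) hLK (by linarith) hγ0.le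
        have hj1 : 1 ≤ j := by
          have : (0 : ℝ) < j := lt_of_lt_of_le (by positivity) h1
          exact_mod_cast this
        have h3 := hX j K hj1 hj (hκL.trans h1) (by linarith) hKκ₁ (K * (η * Real.sqrt K)) (by positivity)
        have h4 := mid_bd (ε := ε₀ / 8) hη0 hγ0 hγ1 hK0 h1 h2
        have h5 : oddCount X (fun n => bd (η * Real.sqrt K) K n j) ≤ (ε₀ / 2) * X := by
          refine le_trans h3 ?_
          gcongr
          exact h4.trans hmid
        linarith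
  refine (Finset.sum_le_sum hterm).trans ?_
  rw [← Finset.sum_mul, Finset.sum_add_distrib, Finset.sum_add_distrib, Finset.sum_const, Finset.card_range,
    nsmul_eq_mul]
  have c1 := cnt_lt K (show 0 ≤ γ * (K : ℝ) by positivity)
  have c2 := cnt_gt K (show 0 ≤ γ * (K : ℝ) by positivity)
  rw [Finset.card_filter] at c1 c2
  push_cast at c1 c2
  have c3 : (2 : ℝ) ≤ ε₀ / 8 * K := by
    have : 16 / ε₀ ≤ K := hL3.trans hLK
    rw [div_le_iff₀ h0] at this
    linarith
  have c4 : (∑ j ∈ range K, (if (j : ℝ) < γ * K then (1 : ℝ) else 0)) + (∑ j ∈ range K, (if (K : ℝ) - j < γ * K then (1 : ℝ) else 0))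
      + K * (ε₀ / 2) ≤ ε₀ * K := by
    have : γ * K = ε₀ / 8 * K := by rw [hγ]
    have hpos : 0 ≤ ε₀ * K := by positivity
    linarith
  exact mul_le_mul_of_nonneg_right c4 hX0

theorem same_sign {w : ℝ} {r b n i j : ℕ} (hw : 0 ≤ w) (hr : 0 < r) (hb : 0 < b) (hij : i ≤ j) (hji : j ≤ i + b)
    (h1 : ¬ bd w (r * b) n i) (h2 : ¬ (r * w / 2 ≤ |(S n (r * b) : ℝ) - 2 * (r * b : ℕ)|))
    (h3 : ¬ (w / 2 ≤ |(S n j : ℝ) - S n i - 2 * ((j : ℝ) - i)|)) : (sg (r * b) n j ↔ sg (r * b) n i) := by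
  unfold bd at h1
  rw [not_le] at h1 h2 h3
  set K := r * b with hK
  have hKR : (K : ℝ) = r * b := by rw [hK]; push_cast; ring
  have hrR : (0 : ℝ) < r := by exact_mod_cast hr
  have hbR : (0 : ℝ) < b := by exact_mod_cast hb
  have hij' : (i : ℝ) ≤ j := by exact_mod_cast hij
  have hji' : (j : ℝ) - i ≤ b := by
    have : (j : ℝ) ≤ i + b := by exact_mod_cast hji
    linarith
  set A : ℝ := i * S n K - K * S n i with hA
  set B : ℝ := ((j : ℝ) - i) * (S n K - 2 * K) - K * (S n j - S n i - 2 * ((j : ℝ) - i)) with hB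
  have hAB : (j : ℝ) * S n K - K * S n j = A + B := by rw [hA, hB]; ring
  have hBle : |B| ≤ K * w := by
    rw [hB]
    refine (abs_sub _ _).trans ?_
    rw [abs_mul, abs_mul, abs_of_nonneg (by linarith : 0 ≤ (j : ℝ) - i), abs_of_nonneg (by positivity : (0 : ℝ) ≤ K)]
    have e1 : ((j : ℝ) - i) * |(S n K : ℝ) - 2 * K| ≤ b * (r * w / 2) := by
      apply mul_le_mul hji' h2.le (abs_nonneg _) hbR.le
    have e2 : (K : ℝ) * |(S n j : ℝ) - S n i - 2 * ((j : ℝ) - i)| ≤ K * (w / 2) := by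
      apply mul_le_mul_of_nonneg_left h3.le (by positivity)
    have e3 : (b : ℝ) * (r * w / 2) = K * (w / 2) := by rw [hKR]; ring
    linarith
  have hs : ∀ q : ℕ, (sg K n q ↔ 0 < (q : ℝ) * S n K - K * S n q) := by
    intro q
    unfold sg
    rw [sub_pos]
    constructor
    · intro h; exact_mod_cast h
    · intro h; exact_mod_cast h
  rw [hs j, hs i, hAB, ← hA]
  rw [abs_le] at hBle
  rcases lt_or_ge 0 A with h5 | h5
  · rw [abs_of_pos h5] at h1
    constructor
    · intro _; exact h5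
    · intro _; linarith
  · rw [abs_of_nonpos h5] at h1
    constructor
    · intro h; linarith
    · intro h; linarith

end Pool.Agent.H55.UL
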