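import Pool.Agent.H55.UL.Rand

/-!
# The end of the trajectory
-/

set_option autoImplicit false

namespace Pool.Agent.H55.UL

open MeasureTheory ProbabilityTheory Filter Topology Finset
open Pool.Agent.H499R2.ND.TJ (PP geo)
open Pool.Agent.Results.MP_f7abf1_nt.BlockLaw (T Syr wait blocks Admissible model prob oddCount HasDensity bound Phi)

/-- the `K`-th odd number of the trajectory reaches `1` in time `bound z` -/
def AA (z : ℝ) (K n : ℕ) : Prop := ∃ k : ℕ, (k : ℝ) ≤ bound z (Syr^[K] n) ∧ T^[k] (Syr^[K] n) = 1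

/-- typical behaviour of the first `K` odd steps and of the rest -/
def Good (M Z : ℝ) (K n : ℕ) : Prop := |(S n K : ℝ) - 2 * K| < M * Real.sqrt K ∧ AA Z K n ∧ ¬ AA (-Z) K n

theorem bound_mono {z z' : ℝ} (h : z ≤ z') (n : ℕ) : bound z n ≤ bound z' n := by
  unfold bound
  have h3 := Real.log_nonneg (by norm_num : (1 : ℝ) ≤ 3)
  have := Real.sqrt_nonneg (2 * Real.log n / Real.log (4 / 3) ^ 3)
  gcongr

theorem AA_mono {z z' : ℝ} (h : z ≤ z') {K n : ℕ} (h1 : AA z K n) : AA z' K n := by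
  obtain ⟨k, h2, h3⟩ := h1
  exact ⟨k, h2.trans (bound_mono h _), h3⟩

theorem AA_R {z : ℝ} {K n : ℕ} (hn : n % 2 = 1) (h : AA z K n) : R n := by
  obtain ⟨k, _, h2⟩ := h
  refine ⟨k + S n K, ?_⟩
  rw [Function.iterate_add_apply, T_S hn]
  exact h2

theorem tail : ∃ δ : ℝ, 0 < δ ∧ δ ≤ 1 ∧ (δ = 1 ↔ ∀ n : ℕ, 1 ≤ n → R n) ∧ HasDensity R δ ∧
    ∀ ε : ℝ, 0 < ε → ∃ M Z : ℝ, 0 < M ∧ 0 < Z ∧ ∀ κ : ℝ, 0 < κ → ∀ᶠ X : ℕ in atTop, ∀ K : ℕ, 0 < K →
      κ * Real.log X ≤ K → (K : ℝ) ≤ (1 - κ) * Real.log X / Real.log (4 / 3) →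
      oddCount X (fun n => R n ∧ ¬ Good M Z K n) ≤ ε * X := by
  obtain ⟨δ, h0, h1, h2, h3, h4⟩ := Pool.Agent.Results.MP_f7abf1_nt.BlockLaw.result.2
  refine ⟨δ, h0, h1, h2, h3, fun ε hε => ?_⟩
  -- the normal law
  have hP1 : Tendsto Phi atTop (𝓝 1) := tendsto_cdf_atTop _
  have hP0 : Tendsto Phi atBot (𝓝 0) := tendsto_cdf_atBot _
  have hP2 : Tendsto (fun z : ℝ => Phi (-z)) atTop (𝓝 0) := hP0.comp tendsto_neg_atTop_atBot
  have hP3 : Tendsto (fun z : ℝ => Phi z - Phi (-z)) atTop (𝓝 1) := by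
    have := hP1.sub hP2
    rwa [sub_zero] at this
  obtain ⟨Z, hZ0, hZ⟩ := ((eventually_gt_atTop (0 : ℝ)).and
    (hP3.eventually (lt_mem_nhds (show 1 - ε / 8 < 1 by linarith)))).exists
  set M : ℝ := 1 + 16 / ε with hM
  have hM1 : 1 ≤ M := by rw [hM]; have : 0 < 16 / ε := by positivity
                         linarith
  have hM2 : 2 / M ^ 2 ≤ ε / 8 := by
    have h5 : 16 / ε ≤ M := by rw [hM]; linarith
    have h6 : M ≤ M ^ 2 := by nlinarith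
    rw [div_le_iff₀ (by positivity)]
    have h7 : 16 / ε ≤ M ^ 2 := h5.trans h6
    rw [div_le_iff₀ hε] at h7
    linarith
  refine ⟨M, Z, by linarith, hZ0, fun κ hκ => ?_⟩
  obtain ⟨X1, hX1⟩ := h4 κ (ε / 8) Z hκ (by positivity)
  obtain ⟨X2, hX2⟩ := h4 κ (ε / 8) (-Z) hκ (by positivity)
  obtain ⟨δ', _, _, g2, _, g3⟩ := Pool.Agent.Results.MP_f7abf1_nt.BlockLaw.result.1 R (fun _ _ => R_T)
  have hδ' : δ' = δ := tendsto_nhds_unique g2 h3
  subst hδ'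
  obtain ⟨X3, hX3⟩ := g3 κ (ε / 8) hκ (by positivity)
  filter_upwards [eventually_ge_atTop X1, eventually_ge_atTop X2, eventually_ge_atTop X3] with X q1 q2 q3 K hK0 hK1 hK2
  have hadm := adm1 (κ := κ) hK1 hK2
  set E : Set (Fin 1 → ℕ) := {v | |(v 0 : ℝ) - 2 * K| < M * Real.sqrt K} with hE
  have hKR : (0 : ℝ) < K := by exact_mod_cast hK0
  have hprobE : 1 - ε / 8 ≤ prob (K1 K) 1 E := by
    have h5 := cheb (Ico 0 K) (x := M * Real.sqrt K) (by positivity)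
    rw [Nat.card_Ico, Nat.sub_zero] at h5
    have h6 : prob (K1 K) 1 E = PP.real {ω | M * Real.sqrt K ≤ |(bs (Ico 0 K) ω : ℝ) - 2 * K|}ᶜ := by
      unfold prob
      rw [Pool.Agent.Results.MP_f7abf1_nt.BlockLaw.model_eq]
      congr 1
      ext ω
      exact (not_le (a := M * Real.sqrt K) (b := |(bs (Ico 0 K) ω : ℝ) - 2 * K|)).symm
    have hms : MeasurableSet {ω | M * Real.sqrt K ≤ |(bs (Ico 0 K) ω : ℝ) - 2 * K|} :=
      (meas_bs (Ico 0 K)) (Set.to_countable {x : ℕ | M * Real.sqrt K ≤ |(x : ℝ) - 2 * K|}).measurableSet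
    rw [h6, probReal_compl_eq_one_sub hms]
    have h7 : 2 * (K : ℝ) / (M * Real.sqrt K) ^ 2 = 2 / M ^ 2 := by
      rw [mul_pow, Real.sq_sqrt hKR.le]
      field_simp
    rw [h7] at h5
    linarith
  have hprobE1 : prob (K1 K) 1 E ≤ 1 := by
    unfold prob
    rw [Pool.Agent.Results.MP_f7abf1_nt.BlockLaw.model_eq]
    exact measureReal_le_one
  have a1 := hX1 X q1 1 (K1 K) hadm E
  have a2 := hX2 X q2 1 (K1 K) hadm E
  have a3 := hX3 X q3 1 (K1 K) hadm Set.univ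
  have hpu : prob (K1 K) 1 Set.univ = 1 := by
    unfold prob
    rw [Pool.Agent.Results.MP_f7abf1_nt.BlockLaw.model_eq]
    simp
  rw [hpu, mul_one] at a3
  have hbE : ∀ n, (blocks (K1 K) 1 (wait n) ∈ E ↔ |(S n K : ℝ) - 2 * K| < M * Real.sqrt K) := by
    intro n
    rw [hE, Set.mem_ofPred_eq]
    have e1 : ((blocks (K1 K) 1 (wait n) 0 : ℕ) : ℝ) = S n K := by
      unfold blocks
      simp [K1, S]
    rw [e1]
  have e1 : oddCount X (fun n => blocks (K1 K) 1 (wait n) ∈ E ∧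
      ∃ k : ℕ, (k : ℝ) ≤ bound Z (Syr^[K1 K 1] n) ∧ T^[k] (Syr^[K1 K 1] n) = 1) =
      oddCount X (fun n => |(S n K : ℝ) - 2 * K| < M * Real.sqrt K ∧ AA Z K n) := by
    congr 1
    funext n
    rw [hbE]
    rfl
  have e2 : oddCount X (fun n => blocks (K1 K) 1 (wait n) ∈ E ∧
      ∃ k : ℕ, (k : ℝ) ≤ bound (-Z) (Syr^[K1 K 1] n) ∧ T^[k] (Syr^[K1 K 1] n) = 1) =
      oddCount X (fun n => |(S n K : ℝ) - 2 * K| < M * Real.sqrt K ∧ AA (-Z) K n) := by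
    congr 1
    funext n
    rw [hbE]
    rfl
  rw [e1] at a1
  rw [e2] at a2
  have a4 := oc_sub (X := X) (P := fun n => |(S n K : ℝ) - 2 * K| < M * Real.sqrt K ∧ AA Z K n)
    (Q := fun n => |(S n K : ℝ) - 2 * K| < M * Real.sqrt K ∧ AA (-Z) K n)
    (fun n h => ⟨h.1, AA_mono (by linarith) h.2⟩)
  have a5 : oddCount X (fun n => (|(S n K : ℝ) - 2 * K| < M * Real.sqrt K ∧ AA Z K n) ∧
      ¬ (|(S n K : ℝ) - 2 * K| < M * Real.sqrt K ∧ AA (-Z) K n)) ≤ oddCount X (fun n => R n ∧ Good M Z K n) := by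
    apply oc_mono
    rintro n _ hn ⟨⟨b1, b2⟩, b3⟩
    exact ⟨AA_R (Nat.odd_iff.1 hn) b2, b1, b2, fun h => b3 ⟨b1, h⟩⟩
  have a6 := oc_sub (X := X) (P := R) (Q := fun n => R n ∧ Good M Z K n) (fun n h => h.1)
  have a7 : oddCount X (fun n => R n ∧ ¬ Good M Z K n) ≤ oddCount X (fun n => R n ∧ ¬ (R n ∧ Good M Z K n)) :=
    oc_mono fun n _ _ h => ⟨h.1, fun h' => h.2 h'.2⟩
  have a8 : oddCount X R ≤ oddCount X (fun n => R n ∧ blocks (K1 K) 1 (wait n) ∈ Set.univ) :=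
    oc_mono fun n _ _ h => ⟨h, Set.mem_univ _⟩
  have hX0 : (0 : ℝ) ≤ X := Nat.cast_nonneg X
  have b1 := (abs_le.1 a1).1
  have b2 := (abs_le.1 a2).2
  have b3 := (abs_le.1 a3).2
  set p := prob (K1 K) 1 E with hp
  have c1 : (1 - ε / 8) - ε / 8 ≤ (Phi Z - Phi (-Z)) * p := by
    have hPle : Phi Z - Phi (-Z) ≤ 1 := by
      have c2 : Phi Z ≤ 1 := cdf_le_one _ _
      have c3 : 0 ≤ Phi (-Z) := cdf_nonneg _ _
      linarith
    nlinarith
  have c4 : δ' / 2 * X - δ' / 2 * Phi Z * p * X + δ' / 2 * Phi (-Z) * p * X ≤ ε / 4 * X := by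
    have c5 : δ' / 2 * X - δ' / 2 * Phi Z * p * X + δ' / 2 * Phi (-Z) * p * X =
        δ' / 2 * X * (1 - (Phi Z - Phi (-Z)) * p) := by ring
    rw [c5]
    have c6 : 1 - (Phi Z - Phi (-Z)) * p ≤ ε / 4 := by linarith
    calc δ' / 2 * X * (1 - (Phi Z - Phi (-Z)) * p) ≤ δ' / 2 * X * (ε / 4) := by gcongr
      _ ≤ 1 * X * (ε / 4) := by gcongr; linarith
      _ = ε / 4 * X := by ring
  have c7 : 0 ≤ ε * X := by positivity
  linarith

end Pool.Agent.H55.UL
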